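import Mathlib
import Pool.Agent.Lib.Pf72953.Core
import Pool.Agent.Lib.Pf72953.Orb

/-!
Fibre powers of a fibration: definitions.
-/

set_option autoImplicit false

open scoped WithZero TensorProduct

namespace Pf72953.Fib

/-- `B` is algebraically closed in `E`. -/
def ClosedIn (B E : Type*) [Field B] [Field E] [Algebra B E] : Prop :=
  ∀ a : E, IsAlgebraic B a → ∃ b : B, algebraMap B E b = a

/-- `L` is the compositum of its subfields `C` and `E`, which are algebraically independent over
`B`. -/
structure Comp (B C E L : Type*) [Field B] [Field C] [Field E] [Field L] [Algebra B C]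
    [Algebra B E] [Algebra B L] [Algebra C L] [Algebra E L] : Prop where
  dim : dimension B C + dimension B E = dimension B L
  gen : IntermediateField.adjoin B (Set.range (algebraMap C L) ∪ Set.range (algebraMap E L)) = ⊤

/-- `L` is the function field of the `r`-fold fibre power of `E/B`: it is generated over `B` by the
images of `r` embeddings of `E`, and its dimension over `B` is `r` times that of `E`. -/
structure IsFibrePower (B E L : Type*) [Field B] [Field E] [Field L] [Algebra B E] [Algebra B L]
    {r : ℕ} (i : Fin r → E →ₐ[B] L) : Prop where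
  gen : IntermediateField.adjoin B (⋃ j, Set.range (i j)) = ⊤
  dim : dimension B L = r * dimension B E

/-- the coordinates `(x, s⁽¹⁾, …, s⁽ʳ⁾)` on the fibre power -/
def coord {B E L ιB ι : Type*} [Field B] [Field E] [Field L] [Algebra B E] [Algebra B L]
    {r : ℕ} (i : Fin r → E →ₐ[B] L) (x : ιB → B) (s : ι → E) : ιB ⊕ (Fin r × ι) → L :=
  Sum.elim (fun a => algebraMap B L (x a)) (fun p => i p.1 (s p.2))

/-- the coordinates on the fibre power, relative to `B` -/
def rcoord {B E L ι : Type*} [Field B] [Field E] [Field L] [Algebra B E] [Algebra B L]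
    {r : ℕ} (i : Fin r → E →ₐ[B] L) (s : ι → E) : Fin r × ι → L :=
  fun p => i p.1 (s p.2)

/-- the valuation `w` restricted to `B[σ]` is the Gauss valuation -/
def Gauss (B : Type*) {L ι : Type*} [Field B] [Field L] [Algebra B L] (w : Valuation L ℤᵐ⁰)
    (σ : ι → L) : Prop :=
  ∀ (p : MvPolynomial ι B) (β : ι →₀ ℕ),
    w (algebraMap B L (MvPolynomial.coeff β p)) ≤ w (MvPolynomial.aeval σ p)

end Pf72953.Fib
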