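import Mathlib
import Pool.Agent.Lib.Pf72953u.Inst
import Pool.Agent.Lib.Pf72953f.Defs

/-!
MODULE Pf72953f.Rel: relative derivations and Jacobians.

Situation: `k ⊆ B ⊆ L`, `x` a transcendence basis of `B/k`, `σ` one of `L/B`.
PROOF.  `tb_rel`: Mathlib `IsTranscendenceBasis.sumElim_comp` (mind the order of the two summands; reindex by
`Equiv.sumComm` with `isTranscendenceBasis_equiv`).
`pd_rel_inr`: the `k`-derivation `D = pd h (inr i)` kills `B` (`pd_algebraMap_of_notMem`, `e = Sum.inl`), so it is a derivation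
over `B` (construct it by `Derivation.mk'` or similar), and `der_eq_sum` over `B` gives `D a = ∑_j pd hσ j a * D (σ j) = pd hσ i a`.
`jac_rel`: `jac_eq_det`; the matrix is block triangular: `pd h (inl a) (x'_b) = pd hx a x'_b` (`pd_algebraMap`),
`pd h (inr i) (x'_b) = 0`, `pd h (inr i) (τ_j) = pd hσ i (τ_j)`; `Matrix.det_fromBlocks_zero₂₁`, `RingHom.map_det`.
-/

set_option autoImplicit false

open scoped WithZero

namespace Pf72953.Fib

variable {k B L ιB ι : Type*} [Field k] [CharZero k] [Field B] [CharZero B] [Field L]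
  [Algebra k B] [Algebra k L] [Algebra B L] [IsScalarTower k B L] [Fintype ιB] [Fintype ι]

omit [CharZero k] [CharZero B] [Fintype ιB] [Fintype ι] in
theorem tb_rel {x : ιB → B} (hx : IsTranscendenceBasis k x) {σ : ι → L}
    (hσ : IsTranscendenceBasis B σ) :
    IsTranscendenceBasis k (Sum.elim (fun a => algebraMap B L (x a)) σ) := by
  refine (isTranscendenceBasis_equiv' (Equiv.sumComm ιB ι) ?_).mpr (hx.sumElim_comp hσ)
  funext a
  rcases a with a | a <;> rfl

theorem pd_rel_inr {x : ιB → B} (hx : IsTranscendenceBasis k x) {σ : ι → L}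
    (hσ : IsTranscendenceBasis B σ)
    (h : IsTranscendenceBasis k (Sum.elim (fun a => algebraMap B L (x a)) σ)) (i : ι) (a : L) :
    pd h (Sum.inr i) a = pd hσ i a := by
  classical
  have hB : ∀ b : B, pd h (Sum.inr i) (algebraMap B L b) = 0 := fun b =>
    pd_algebraMap_of_notMem hx h Sum.inl (fun _ => rfl) (Sum.inr i) (fun _ h => by cases h) b
  let D : Derivation B L L := Derivation.mk'
    { toFun := fun a => pd h (Sum.inr i) a
      map_add' := fun a b => map_add _ a b
      map_smul' := fun b a => by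
        rw [RingHom.id_apply, Algebra.smul_def, Algebra.smul_def, Derivation.leibniz, hB b,
          smul_zero, add_zero, smul_eq_mul] }
    (fun a b => (pd h (Sum.inr i)).leibniz a b)
  have h1 := der_eq_sum hσ D a
  have h2 : ∀ j, D (σ j) = if i = j then 1 else 0 := by
    intro j
    change pd h (Sum.inr i) (Sum.elim (fun a => algebraMap B L (x a)) σ (Sum.inr j)) = _
    rw [pd_self]
    simp only [Sum.inr.injEq]
  simp only [h2, mul_ite, mul_one, mul_zero] at h1
  rw [Finset.sum_ite_eq] at h1
  rw [if_pos (Finset.mem_univ i)] at h1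
  exact h1

variable [DecidableEq ιB] [DecidableEq ι]

theorem jac_rel {x : ιB → B} (hx : IsTranscendenceBasis k x) {σ : ι → L}
    (hσ : IsTranscendenceBasis B σ)
    (h : IsTranscendenceBasis k (Sum.elim (fun a => algebraMap B L (x a)) σ)) (x' : ιB → B)
    (τ : ι → L) :
    jac h (Sum.elim (fun a => algebraMap B L (x' a)) τ) =
      algebraMap B L (jac hx x') * jac hσ τ := by
  rw [jac_eq_det, jac_eq_det, jac_eq_det, RingHom.map_det]
  have : (Matrix.of fun i j => pd h i ((Sum.elim (fun a => algebraMap B L (x' a)) τ) j)) =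
      Matrix.fromBlocks ((algebraMap B L).mapMatrix (Matrix.of fun i j => pd hx i (x' j)))
        (Matrix.of fun i j => pd h (Sum.inl i) (τ j)) 0 (Matrix.of fun i j => pd hσ i (τ j)) := by
    ext i j
    rcases i with i | i <;> rcases j with j | j
    · simp only [Matrix.of_apply, Sum.elim_inl, Matrix.fromBlocks_apply₁₁,
        RingHom.mapMatrix_apply, Matrix.map_apply]
      exact pd_algebraMap hx h Sum.inl Sum.inl_injective (fun _ => rfl) i (x' j)
    · simp only [Matrix.of_apply, Sum.elim_inr, Matrix.fromBlocks_apply₁₂]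
    · simp only [Matrix.of_apply, Sum.elim_inl, Matrix.fromBlocks_apply₂₁, Matrix.zero_apply]
      exact pd_algebraMap_of_notMem hx h Sum.inl (fun _ => rfl) (Sum.inr i)
        (fun _ h => by cases h) (x' j)
    · simp only [Matrix.of_apply, Sum.elim_inr, Matrix.fromBlocks_apply₂₂]
      exact pd_rel_inr hx hσ h i (τ j)
  rw [this, Matrix.det_fromBlocks_zero₂₁]

end Pf72953.Fib
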