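import Mathlib
import Pool.Agent.Lib.Pf72953f.Rel

/-!
MODULE Pf72953f.RelW: relative adapted systems and regular forms.

Situation: `k ⊆ B ⊆ L`, `x` a transcendence basis of `B/k`, `σ` one of `L/B`.
PROOF.  `Adapted_rel`: `c₁ = (t, y)` reindexed, `y` residually independent over `B`; then `(x, y)` is residually independent over `k`: for
`p(X, Y) ≠ 0` over `k`, `p(x, Y)` is a nonzero polynomial over `B` (`x` is algebraically independent) whose value at `y` is `1`.
`WReg_rel`: let `w` be divisorial on `L/B`, `c` a regular basis over `B`.  `w` is divisorial over `k` (`Up.IsDivisorial.under`).  Take an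
adapted system `(c₁, t)` over `B` with `t` a uniformizer (`IsDivisorial.exists_adapted`); `Sum.elim x c₁` is adapted over
`k` (`Adapted_rel`), hence a regular basis over `k` (`Adapted.regBasis`), so `hf` gives
`w f * w (jac_k (x ⊕ c₁) (x ⊕ σ)) ^ m ≤ 1`, and this jacobian is `jac_B c₁ σ` by `jac_rel`, `jac_self`.  Finally
`jac c σ = jac c c₁ * jac c₁ σ` (`jac_chain`), `w (jac c c₁) ≤ 1` (`RegBasis.jac_le`, `Adapted.le_one`).
-/

set_option autoImplicit false

open scoped WithZero

namespace Pf72953.Fib

section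

variable {k B L ιB ι : Type*} [Field k] [Field B] [Field L] [Algebra k B] [Algebra k L]
  [Algebra B L] [IsScalarTower k B L]

theorem resIndep_sum {κ₁ κ₂ : Type*} {x : κ₁ → B} (hx : AlgebraicIndependent k x)
    {w : Valuation L ℤᵐ⁰} {y : κ₂ → L} (hy : ResIndep B w y) :
    ResIndep k w (Sum.elim (fun a => algebraMap B L (x a)) y) := by
  intro p hp
  have h1 : AlgebraicIndependent k (Sum.elim (MvPolynomial.X : κ₂ → MvPolynomial κ₂ B)
      (algebraMap B (MvPolynomial κ₂ B) ∘ x)) :=
    hx.sumElim_comp (MvPolynomial.algebraicIndependent_X κ₂ B)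
  have h2 := h1.comp (Equiv.sumComm κ₁ κ₂) (Equiv.injective _)
  set q := MvPolynomial.aeval ((Sum.elim (MvPolynomial.X : κ₂ → MvPolynomial κ₂ B)
      (algebraMap B (MvPolynomial κ₂ B) ∘ x)) ∘ (Equiv.sumComm κ₁ κ₂)) p with hq
  have hq0 : q ≠ 0 := by
    intro h
    exact hp (h2.eq_zero_of_aeval_eq_zero p h)
  have h3 := hy q hq0
  rw [← h3, hq]
  congr 1
  have h4 : (MvPolynomial.aeval y (R := B)).restrictScalars k
      (MvPolynomial.aeval ((Sum.elim (MvPolynomial.X : κ₂ → MvPolynomial κ₂ B)
      (algebraMap B (MvPolynomial κ₂ B) ∘ x)) ∘ (Equiv.sumComm κ₁ κ₂)) p) =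
      MvPolynomial.aeval (Sum.elim (fun a => algebraMap B L (x a)) y) p := by
    rw [← AlgHom.comp_apply, MvPolynomial.comp_aeval]
    congr 2
    funext i
    rcases i with i | i
    · simp
    · simp
  exact h4.symm

theorem Adapted_rel [Finite ιB] {x : ιB → B} (hx : AlgebraicIndependent k x)
    {w : Valuation L ℤᵐ⁰} {c : ι → L} {t : L} (hc : Adapted B w c t) :
    Adapted k w (Sum.elim (fun a => algebraMap B L (x a)) c) t := by
  obtain ⟨r, e, y, hy, ht0, ht1, rfl⟩ := hc
  obtain ⟨m, ⟨g⟩⟩ := Finite.exists_equiv_fin (ιB ⊕ Fin r)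
  have hs := resIndep_sum hx hy
  let e₁ : ιB ⊕ ι ≃ Option (ιB ⊕ Fin r) :=
    { toFun := fun s => s.elim (fun a => some (Sum.inl a))
        (fun i => (e i).elim none (fun j => some (Sum.inr j)))
      invFun := fun o => o.elim (Sum.inr (e.symm none))
        (fun s => s.elim (fun a => Sum.inl a) (fun j => Sum.inr (e.symm (some j))))
      left_inv := by
        rintro (a | i)
        · rfl
        · rcases h : e i with _ | j
          · have h' : e.symm none = i := by rw [← h, Equiv.symm_apply_apply]
            simp only [Sum.elim_inr, h, Option.elim_none, h']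
          · have h' : e.symm (some j) = i := by rw [← h, Equiv.symm_apply_apply]
            simp only [Sum.elim_inr, h, Option.elim_some, h']
      right_inv := by
        rintro (_ | (a | j))
        · simp
        · simp
        · simp }
  refine ⟨m, e₁.trans g.optionCongr, (Sum.elim (fun a => algebraMap B L (x a)) y) ∘ g.symm, ?_,
    ht0, ht1, ?_⟩
  · intro p hp
    have h1 := hs (MvPolynomial.rename g.symm p) (by
      intro h
      exact hp (MvPolynomial.rename_injective _ g.symm.injective (by rw [h, map_zero])))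
    rw [MvPolynomial.aeval_rename] at h1
    exact h1
  · funext s
    rcases s with a | i
    · simp [e₁]
    · rcases h : e i with _ | j
      · simp [e₁, h]
      · simp [e₁, h]

end

variable {k B L ιB ι : Type*} [Field k] [CharZero k] [Field B] [CharZero B] [Field L]
  [Algebra k B] [Algebra k L] [Algebra B L] [IsScalarTower k B L] [Fintype ιB] [Fintype ι]
  [DecidableEq ιB] [DecidableEq ι]

theorem WReg_rel [Algebra.EssFiniteType k L] {x : ιB → B} (hx : IsTranscendenceBasis k x)
    {σ : ι → L} (hσ : IsTranscendenceBasis B σ) {m : ℕ} {f : L}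
    (hf : f ∈ WReg k (Sum.elim (fun a => algebraMap B L (x a)) σ) m) : f ∈ WReg B σ m := by
  intro w hw c hc
  haveI : Algebra.EssFiniteType B L := Algebra.EssFiniteType.of_comp k B L
  have hwk : IsDivisorial k L w := Pf72953.Up.IsDivisorial.under hw
  obtain ⟨c₁, t, ht, hc₁⟩ := hw.exists_adapted (ι := ι) (card_eq_of_isTranscendenceBasis hσ)
  have hreg₁ := hc₁.regBasis (card_eq_of_isTranscendenceBasis hσ) ht
  have hck := Adapted_rel (k := k) hx.1 hc₁
  have hregk := hck.regBasis
    (card_eq_of_isTranscendenceBasis (tb_rel hx hσ)) ht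
  have h1 := hf w hwk _ hregk
  rw [jac_rel hx hreg₁.tb hregk.tb x σ, jac_self, map_one, one_mul] at h1
  rw [jac_chain hreg₁.tb hc.tb σ, map_mul, mul_pow, ← mul_assoc, mul_comm (w f), mul_assoc]
  refine mul_le_one' (pow_le_one' ?_ m) h1
  exact hc.jac_le c₁ hc₁.le_one

end Pf72953.Fib
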