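import Mathlib
import Pool.Agent.Lib.Pf72953.Defs
import Pool.Agent.Lib.Pf72953f.Defs

/-!
Forms on fibre powers and their restrictions to the diagonal; uniruled varieties: definitions.
-/

set_option autoImplicit false

open scoped WithZero

namespace Pf72953.Fib

universe u v

/-- There are a number `m ≥ 1` and `m`-canonical forms `f_l (dx ∧ ds⁽¹⁾ ∧ ⋯ ∧ ds⁽ʳ⁾)^m`,
`f_l = ∑_a ∏_j i_j (y_{laj})`, `0 ≤ l ≤ c`, on the fibre power `L` of `E/B` whose restrictions to the diagonal,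
`ρ_l (dx)^m (ds)^{rm}`, `ρ_l = ∑_a ∏_j y_{laj}`, satisfy: `ρ_0 ≠ 0` and the ratios `ρ_l / ρ_0`,
`1 ≤ l ≤ c`, are algebraically independent over the field `K₀`. -/
def DiagGE (k B K₀ E L : Type*) [Field k] [Field B] [Field K₀] [Field E] [Field L] [Algebra k B]
    [Algebra K₀ E] [Algebra k L] [Algebra B E] [Algebra B L] {r : ℕ} (i : Fin r → E →ₐ[B] L)
    (c : ℕ) : Prop :=
  ∃ (m n : ℕ) (x : Fin (dimension k B) → B) (s : Fin (dimension B E) → E)
    (e : Fin (dimension k L) ≃ Fin (dimension k B) ⊕ Fin r × Fin (dimension B E))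
    (y : Fin (c + 1) → Fin n → Fin r → E),
    1 ≤ m ∧ IsTranscendenceBasis k x ∧ IsTranscendenceBasis B s ∧
    (∀ l, (∑ a, ∏ j, i j (y l a j)) • pureForm k (fun _ => coord i x s ∘ e) ∈
      pluricanonical k L m) ∧
    (∑ a, ∏ j, y 0 a j) ≠ 0 ∧
    AlgebraicIndependent K₀ (fun l : Fin c => (∑ a, ∏ j, y l.succ a j) / ∑ a, ∏ j, y 0 a j)

/-- `X` is uniruled: there is a dominant, generically finite rational map from `Y × P¹` to `X`, for a variety `Y` over `k`. -/
def Uniruled (k : Type v) (X : Type u) [Field k] [Field X] [Algebra k X] : Prop :=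
  ∃ (Y : Type u) (_ : Field Y) (_ : Algebra k Y) (_ : Algebra.EssFiniteType k Y)
    (_ : X →ₐ[k] RatFunc Y), dimension k Y + 1 = dimension k X

end Pf72953.Fib
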