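import Mathlib
import Pool.Agent.Lib.Pf72953f.Rel

/-!
MODULE Pf72953f.Res: coordinates adapted to a divisorial valuation of `E` which is not trivial on `B`.

PROOF.  `u := v.comap (algebraMap B E)` is divisorial on `B/k` (`IsDivisorial.restrict`).
Take an adapted system `(cB, tB)` of `u` (`IsDivisorial.exists_adapted`, `cB = (tB, xB)` reindexed,
`xB : Fin (dimension k B - 1) → B` residually independent).  The image of `xB` in `E` is residually independent for `v`; extend it by
`IsDivisorial.exists_extend` by `dimension B E` elements `y` (`(b - 1) + f = dimension k E - 1`), and let `σ` be `y` reindexed by `ι`.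
`v (σ l) = 1`: `ResIndep.apply`.
Gauss: let `κu ⊆ κv` be the residue fields.  The residues of `xB` form a transcendence basis of `κu/k` (if there was one more independent
element, `B/k` would have too large a transcendence degree, `ResIndep.algebraicIndependent` with `tB`), so the residues of `σ` are
algebraically independent over `κu`.  For a nonzero polynomial `p` over `B` let `β₀` be such that
`v (p_β₀)` is maximal; `p / p_β₀` has coefficients in `O_u`, one of them `1`; its reduction is a nonzero polynomial over `κu`, so
`v (p(σ) / p_β₀) = 1`; hence `v (p_β) ≤ v (p_β₀) = v (p(σ))` for all `β`.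
Transcendence basis: by Gauss `σ` is algebraically independent over `B`, and has `dimension B E` elements
(`isTranscendenceBasis_of_card`).
Derivations: `Sum.elim cB σ` is adapted over `k` for `v` and `tB` (`v tB < 1`), so it is a logarithmic basis
(`Adapted.logBasis`), and `v (σ l * pd (inr l) y) ≤ v y`, `v (σ l) = 1`, `pd_rel_inr`.
The adapted system over `k` is part of the conclusion.
-/

set_option autoImplicit false
set_option linter.style.haveILetI false

open scoped WithZero

namespace Pf72953.Fib

namespace ResAux

open IsLocalRing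

/-- elements algebraically independent over `k` together with a transcendence basis of `κ` are
algebraically independent over `κ` -/
theorem indep_over {k κ K ι ι' : Type*} [Field k] [Field κ] [Field K] [Algebra k κ] [Algebra k K]
    [Algebra κ K] [IsScalarTower k κ K] {x : ι → κ} (hx : IsTranscendenceBasis k x) {y : ι' → K}
    (h : AlgebraicIndependent k (Sum.elim (fun i => algebraMap κ K (x i)) y)) :
    AlgebraicIndependent κ y := by
  have h1 : AlgebraicIndependent k (Sum.elim y (fun i => algebraMap κ K (x i))) := by
    have h2 := h.comp (Equiv.sumComm ι' ι) (Equiv.sumComm ι' ι).injective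
    convert h2 using 1
    funext i
    rcases i with i | i <;> rfl
  have h3 := (AlgebraicIndependent.sumElim_iff.mp h1).2
  have hle : ∀ a ∈ Algebra.adjoin k (Set.range x), algebraMap κ K a ∈
      Algebra.adjoin k (Set.range (fun i => algebraMap κ K (x i))) := by
    intro a ha
    have h4 : Algebra.adjoin k (Set.range x) ≤
        (Algebra.adjoin k (Set.range (fun i => algebraMap κ K (x i)))).comap
          (IsScalarTower.toAlgHom k κ K) := by
      rw [Algebra.adjoin_le_iff]
      rintro _ ⟨i, rfl⟩
      exact Algebra.subset_adjoin ⟨i, rfl⟩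
    exact h4 ha
  let φ : Algebra.adjoin k (Set.range x) →+*
      Algebra.adjoin k (Set.range (fun i => algebraMap κ K (x i))) :=
    ((algebraMap κ K).comp (Algebra.adjoin k (Set.range x)).val.toRingHom).codRestrict
      (Algebra.adjoin k (Set.range (fun i => algebraMap κ K (x i)))).toSubring
      (fun a => hle a a.2)
  letI : Algebra (Algebra.adjoin k (Set.range x))
      (Algebra.adjoin k (Set.range (fun i => algebraMap κ K (x i)))) := φ.toAlgebra
  haveI : IsScalarTower (Algebra.adjoin k (Set.range x))
      (Algebra.adjoin k (Set.range (fun i => algebraMap κ K (x i)))) K :=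
    IsScalarTower.of_algebraMap_eq fun a => rfl
  have hinj : Function.Injective (algebraMap (Algebra.adjoin k (Set.range x))
      (Algebra.adjoin k (Set.range (fun i => algebraMap κ K (x i))))) := by
    intro a b hab
    have h5 : algebraMap κ K a = algebraMap κ K b := congrArg Subtype.val hab
    exact Subtype.ext ((algebraMap κ K).injective h5)
  have h6 : AlgebraicIndependent (Algebra.adjoin k (Set.range x)) y := h3.restrictScalars hinj
  haveI := hx.isAlgebraic
  exact h6.extendScalars κ

theorem gauss_of_residue {F L Γ ι : Type*} [Field F] [Field L] [Algebra F L]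
    [LinearOrderedCommGroupWithZero Γ] (v : Valuation F Γ) (w : Valuation L Γ)
    [v.HasExtension w] (hvw : ∀ a, w (algebraMap F L a) = v a) (z : ι → w.valuationSubring)
    (hz : AlgebraicIndependent (ResidueField v.valuationSubring)
      (fun i => residue w.valuationSubring (z i))) (P : MvPolynomial ι F) (m : ι →₀ ℕ) :
    w (algebraMap F L (P.coeff m)) ≤ w (MvPolynomial.aeval (fun i => (z i : L)) P) := by
  classical
  by_cases hne : P = 0
  · simp [hne]
  obtain ⟨m₀, hm₀, hmax⟩ := Finset.exists_max_image P.support
    (fun i => v (P.coeff i)) (by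
      rwa [Finset.nonempty_iff_ne_empty, Ne, MvPolynomial.support_eq_empty])
  have hc0 : P.coeff m₀ ≠ 0 := MvPolynomial.mem_support_iff.mp hm₀
  have hcpos : 0 < v (P.coeff m₀) := zero_lt_iff.mpr ((Valuation.ne_zero_iff v).mpr hc0)
  set Q : MvPolynomial ι F := MvPolynomial.C (P.coeff m₀)⁻¹ * P with hQ
  have hQc : ∀ i, Q.coeff i = (P.coeff m₀)⁻¹ * P.coeff i := fun i => by
    rw [hQ, MvPolynomial.coeff_C_mul]
  have hQ1 : ∀ i, Q.coeff i ∈ v.valuationSubring := by
    intro i
    rw [Valuation.mem_valuationSubring_iff, hQc, map_mul, map_inv₀]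
    by_cases hi : i ∈ P.support
    · calc _ ≤ (v (P.coeff m₀))⁻¹ * v (P.coeff m₀) := by
            gcongr
            exact hmax i hi
        _ = 1 := inv_mul_cancel₀ hcpos.ne'
    · rw [MvPolynomial.notMem_support_iff.mp hi]; simp
  have hmem : Q ∈ Set.range (MvPolynomial.map (algebraMap v.valuationSubring F) :
      MvPolynomial ι v.valuationSubring →+* MvPolynomial ι F) := by
    rw [MvPolynomial.mem_range_map_iff_coeffs_subset]
    intro c hc
    rw [Finset.mem_coe, MvPolynomial.mem_coeffs_iff] at hc
    obtain ⟨i, _, rfl⟩ := hc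
    exact ⟨⟨_, hQ1 i⟩, rfl⟩
  obtain ⟨Q₀, hQ₀⟩ := hmem
  have hcoef : ∀ i, ((Q₀.coeff i : v.valuationSubring) : F) = Q.coeff i := by
    intro i
    rw [← hQ₀, MvPolynomial.coeff_map]
    rfl
  have e1 : ((MvPolynomial.aeval z Q₀ : w.valuationSubring) : L) =
      MvPolynomial.aeval (fun i => (z i : L)) Q := by
    rw [← hQ₀]
    have := MvPolynomial.aeval_algebraMap_apply (R := v.valuationSubring) L z Q₀
    have e2 : algebraMap w.valuationSubring L (MvPolynomial.aeval z Q₀) =
      ((MvPolynomial.aeval z Q₀ : w.valuationSubring) : L) := rfl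
    rw [← e2, ← this]
    have e3 := MvPolynomial.aeval_map_algebraMap (R := v.valuationSubring) F
      (fun i => (z i : L)) Q₀
    exact e3.symm
  -- the reduction does not vanish
  have hw1 : ¬ w ((MvPolynomial.aeval z Q₀ : w.valuationSubring) : L) < 1 := by
    intro hlt
    have h2 : MvPolynomial.aeval (fun i => residue w.valuationSubring (z i))
        (MvPolynomial.map (residue v.valuationSubring) Q₀) = 0 := by
      have e1 := MvPolynomial.aeval_map_algebraMap (R := v.valuationSubring)
        (ResidueField v.valuationSubring) (fun i => residue w.valuationSubring (z i)) Q₀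
      have e2 := MvPolynomial.aeval_algebraMap_apply (R := v.valuationSubring)
        (ResidueField w.valuationSubring) z Q₀
      have e3 : MvPolynomial.aeval (fun i => residue w.valuationSubring (z i))
        (MvPolynomial.map (residue v.valuationSubring) Q₀) =
        MvPolynomial.aeval (fun i => residue w.valuationSubring (z i)) Q₀ := e1
      rw [e3]
      refine Eq.trans e2 ?_
      exact (residue_eq_zero_iff' w _).2 hlt
    have h3 := (algebraicIndependent_iff.mp hz) _ h2
    have h4 := congrArg (fun q => MvPolynomial.coeff m₀ q) h3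
    simp only [MvPolynomial.coeff_map, MvPolynomial.coeff_zero] at h4
    rw [residue_eq_zero_iff'] at h4
    rw [hcoef, hQc, inv_mul_cancel₀ hc0, map_one] at h4
    exact lt_irrefl _ h4
  rw [e1, hQ, map_mul, map_mul, not_lt, MvPolynomial.algHom_C, hvw, map_inv₀] at hw1
  have h5 : v (P.coeff m₀) ≤ w (MvPolynomial.aeval (fun i => (z i : L)) P) := by
    calc v (P.coeff m₀) = v (P.coeff m₀) * 1 := (mul_one _).symm
      _ ≤ v (P.coeff m₀) * ((v (P.coeff m₀))⁻¹ *
          w (MvPolynomial.aeval (fun i => (z i : L)) P)) := by gcongr
      _ = _ := by rw [← mul_assoc, mul_inv_cancel₀ hcpos.ne', one_mul]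
  rw [hvw]
  refine le_trans ?_ h5
  by_cases hi : m ∈ P.support
  · exact hmax m hi
  · rw [MvPolynomial.notMem_support_iff.mp hi]; simp

/-- an option in a sum -/
def osum (α β : Type*) : Option α ⊕ β ≃ Option (α ⊕ β) where
  toFun := Sum.elim (fun o => o.elim none (fun a => some (Sum.inl a))) (fun b => some (Sum.inr b))
  invFun o := o.elim (Sum.inl none) (Sum.elim (fun a => Sum.inl (some a)) Sum.inr)
  left_inv := by rintro ((_ | a) | b) <;> rfl
  right_inv := by rintro (_ | a | b) <;> rfl

theorem dim_add (k B E : Type*) [Field k] [Field B] [Field E] [Algebra k B] [Algebra k E]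
    [Algebra B E] [IsScalarTower k B E] [FinTrdeg k E] :
    dimension k B + dimension B E = dimension k E := by
  have hsum := lift_trdeg_add_eq k B E
  have hfin : Algebra.trdeg k E < Cardinal.aleph0 := trdeg_lt_aleph0 k E
  obtain ⟨n, hn⟩ := Cardinal.lt_aleph0.mp hfin
  have hn' : dimension k E = n := by rw [dimension, hn, Cardinal.toNat_natCast]
  rw [hn, Cardinal.lift_natCast] at hsum
  have hfin2 := hsum.trans_lt (Cardinal.natCast_lt_aleph0 (n := n))
  rw [Cardinal.add_lt_aleph0_iff, Cardinal.lift_lt_aleph0, Cardinal.lift_lt_aleph0] at hfin2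
  obtain ⟨f, hf⟩ := Cardinal.lt_aleph0.mp hfin2.1
  obtain ⟨d, hd⟩ := Cardinal.lt_aleph0.mp hfin2.2
  have hf' : dimension k B = f := by rw [dimension, hf, Cardinal.toNat_natCast]
  have hd' : dimension B E = d := by rw [dimension, hd, Cardinal.toNat_natCast]
  rw [hf, hd, Cardinal.lift_natCast, Cardinal.lift_natCast] at hsum
  rw [hf', hd', hn']
  exact_mod_cast hsum

theorem ResIndep.reindex {k K α β Γ : Type*} [Field k] [Field K] [Algebra k K]
    [LinearOrderedCommGroupWithZero Γ] {w : Valuation K Γ} {x : α → K} (hx : ResIndep k w x)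
    (e : β ≃ α) : ResIndep k w (x ∘ e) := by
  intro p hp
  have h1 := hx (MvPolynomial.rename e p) (by
    rw [Ne, MvPolynomial.rename_injective e e.injective |>.eq_iff' (map_zero _)]
    exact hp)
  rwa [MvPolynomial.aeval_rename] at h1

theorem res_tb {k B : Type*} [Field k] [Field B] [Algebra k B] [FinTrdeg k B]
    {u : Valuation B ℤᵐ⁰} [Algebra k u.valuationSubring] [IsScalarTower k u.valuationSubring B]
    {r : ℕ} {x : Fin r → u.valuationSubring}
    (hx : AlgebraicIndependent k (fun i => residue u.valuationSubring (x i))) {t : B}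
    (ht0 : t ≠ 0) (ht : u t < 1) (hr : r + 1 = dimension k B) :
    IsTranscendenceBasis k (fun i => residue u.valuationSubring (x i)) := by
  refine hx.isTranscendenceBasis_of_lift_trdeg_le_of_finite ?_
  by_contra hlt
  rw [not_le] at hlt
  have h0 : (r : Cardinal) < Algebra.trdeg k (ResidueField u.valuationSubring) := by
    simpa using hlt
  have h1 : ((r + 1 : ℕ) : Cardinal) ≤ Algebra.trdeg k (ResidueField u.valuationSubring) := by
    have h2 := Order.succ_le_of_lt h0
    rw [Cardinal.succ_natCast] at h2
    rw [Nat.cast_add, Nat.cast_one]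
    exact h2
  obtain ⟨y, hy⟩ := exists_algebraicIndependent_of_le_trdeg h1
  choose z hz using fun i => residue_surjective (y i)
  have hz' : (fun i => residue u.valuationSubring (z i)) = y := funext hz
  have h3 : ResIndep k u (fun i => (z i : B)) := (resIndep_iff u z).mpr (by rw [hz']; exact hy)
  have h4 := (h3.algebraicIndependent ht0 ht).lift_cardinalMk_le_trdeg
  rw [← trdeg_eq_dimension, ← hr] at h4
  simp only [Cardinal.mk_option, Cardinal.mk_fin, Cardinal.lift_natCast, Cardinal.lift_add,
    Cardinal.lift_one] at h4
  have h6 : r + 1 + 1 ≤ r + 1 := by exact_mod_cast h4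
  omega

end ResAux

open ResAux IsLocalRing

variable {k B E ιB ι : Type*} [Field k] [CharZero k] [Field B] [CharZero B] [Field E]
  [Algebra k B] [Algebra k E] [Algebra B E] [IsScalarTower k B E] [Algebra.EssFiniteType k B]
  [Algebra.EssFiniteType k E] [Fintype ιB] [Fintype ι]

/-- the data adapted to a divisorial valuation of `E` not trivial on `B` -/
theorem exists_res (hιB : Fintype.card ιB = dimension k B) (hι : Fintype.card ι = dimension B E)
    {v : Valuation E ℤᵐ⁰} (hv : IsDivisorial k E v)
    (hnt : ∃ a : B, a ≠ 0 ∧ v (algebraMap B E a) ≠ 1) :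
    ∃ (cB : ιB → B) (tB : B) (σ : ι → E) (hσ : IsTranscendenceBasis B σ),
      Adapted k (v.comap (algebraMap B E)) cB tB ∧
      Adapted k v (Sum.elim (fun a => algebraMap B E (cB a)) σ) (algebraMap B E tB) ∧
      (∀ l, v (σ l) = 1) ∧ Gauss B v σ ∧ ∀ l y, v (pd hσ l y) ≤ v y := by
  classical
  haveI : Algebra.EssFiniteType B E := Algebra.EssFiniteType.of_comp k B E
  have hdim := dim_add k B E
  obtain ⟨u, hu⟩ : ∃ u, u = v.comap (algebraMap B E) := ⟨_, rfl⟩
  have hud : IsDivisorial k B u := by
    rw [hu]
    exact hv.restrict hnt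
  have huv : ∀ a, v (algebraMap B E a) = u a := by
    intro a
    rw [hu]
    rfl
  rw [← hu]
  obtain ⟨cB, tB, htB, hadB⟩ := hud.exists_adapted hιB
  obtain ⟨r, e, x, hx, ht0, ht1, hcB⟩ := id hadB
  have hr : r + 1 = dimension k B := by
    rw [← hιB, Fintype.card_congr e, Fintype.card_option, Fintype.card_fin]
  have hx' : ResIndep k v (fun i => algebraMap B E (x i)) := by
    intro p hp
    have h1 := hx p hp
    rw [← huv] at h1
    rw [← h1]
    congr 1
    exact MvPolynomial.aeval_algebraMap_apply _ x p
  obtain ⟨y, hy⟩ := hv.exists_extend (s := dimension B E) hx' (by omega)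
  have e' : ι ≃ Fin (dimension B E) := Fintype.equivFinOfCardEq hι
  have hy1 : ∀ l, v (y l) = 1 := fun l => hy.apply (Sum.inr l)
  -- residue fields
  haveI hext : u.HasExtension v := ⟨by rw [hu]; exact Valuation.IsEquiv.refl⟩
  have hkE : ∀ c : k, algebraMap k E c ∈ v.valuationSubring := by
    intro c
    rcases eq_or_ne c 0 with rfl | hc
    · simp
    · exact (hv.const c hc).le
  have hkB : ∀ c : k, algebraMap k B c ∈ u.valuationSubring := by
    intro c
    have h1 := hkE c
    rw [IsScalarTower.algebraMap_apply k B E] at h1
    change u (algebraMap k B c) ≤ 1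
    rw [← huv]
    exact h1
  letI algE : Algebra k v.valuationSubring :=
    ((algebraMap k E).codRestrict v.valuationSubring hkE).toAlgebra
  letI algB : Algebra k u.valuationSubring :=
    ((algebraMap k B).codRestrict u.valuationSubring hkB).toAlgebra
  haveI : IsScalarTower k v.valuationSubring E := IsScalarTower.of_algebraMap_eq fun _ => rfl
  haveI : IsScalarTower k u.valuationSubring B := IsScalarTower.of_algebraMap_eq fun _ => rfl
  haveI : IsScalarTower k u.valuationSubring v.valuationSubring :=
    IsScalarTower.of_algebraMap_eq fun c => Subtype.ext (by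
      change algebraMap k E c = algebraMap B E (algebraMap k B c)
      rw [← IsScalarTower.algebraMap_apply k B E])
  haveI : IsScalarTower k (ResidueField u.valuationSubring) (ResidueField v.valuationSubring) :=
    IsScalarTower.of_algebraMap_eq fun c => by
      rw [IsScalarTower.algebraMap_apply k v.valuationSubring (ResidueField v.valuationSubring),
        IsScalarTower.algebraMap_apply k u.valuationSubring v.valuationSubring]
      rfl
  have hxm : ∀ i, x i ∈ u.valuationSubring := fun i => (hx.apply i).le
  have hxr := (resIndep_iff u (fun i => (⟨x i, hxm i⟩ : u.valuationSubring))).mp hx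
  have hxtb := res_tb hxr ht0 ht1 hr
  have hym : ∀ l, y l ∈ v.valuationSubring := fun l => (hy1 l).le
  have hxm' : ∀ i, algebraMap B E (x i) ∈ v.valuationSubring := fun i => (hx'.apply i).le
  have hyr : AlgebraicIndependent (ResidueField u.valuationSubring)
      (fun l => residue v.valuationSubring (⟨y l, hym l⟩ : v.valuationSubring)) := by
    refine indep_over (k := k) hxtb ?_
    have h0 : ResIndep k v (fun i => ((Sum.elim
      (fun i => (⟨algebraMap B E (x i), hxm' i⟩ : v.valuationSubring))
      (fun l => (⟨y l, hym l⟩ : v.valuationSubring)) i : v.valuationSubring) : E)) := by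
      have h00 : (fun i => ((Sum.elim
        (fun i => (⟨algebraMap B E (x i), hxm' i⟩ : v.valuationSubring))
        (fun l => (⟨y l, hym l⟩ : v.valuationSubring)) i : v.valuationSubring) : E)) =
        Sum.elim (fun i => algebraMap B E (x i)) y := by
        funext i
        rcases i with i | i <;> rfl
      rw [h00]
      exact hy
    have h1 := (resIndep_iff v _).mp h0
    have h2 : (fun i => residue v.valuationSubring (Sum.elim
        (fun i => (⟨algebraMap B E (x i), hxm' i⟩ : v.valuationSubring))
        (fun l => (⟨y l, hym l⟩ : v.valuationSubring)) i)) =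
        Sum.elim (fun i => algebraMap (ResidueField u.valuationSubring)
          (ResidueField v.valuationSubring) (residue u.valuationSubring ⟨x i, hxm i⟩))
        (fun l => residue v.valuationSubring (⟨y l, hym l⟩ : v.valuationSubring)) := by
      funext i
      rcases i with i | i <;> rfl
    rw [h2] at h1
    exact h1
  have hyB : AlgebraicIndependent B (fun l => y l) :=
    algebraicIndependent_of_residue u v (fun l => (⟨y l, hym l⟩ : v.valuationSubring)) hyr
  have hσi : AlgebraicIndependent B (y ∘ e') := hyB.comp e' e'.injective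
  have hσ : IsTranscendenceBasis B (y ∘ e') := isTranscendenceBasis_of_card hι hσi
  have hG : Gauss B v (y ∘ e') := by
    intro p β
    exact gauss_of_residue u v huv (fun l => (⟨y (e' l), hym (e' l)⟩ : v.valuationSubring))
      (hyr.comp e' e'.injective) p β
  -- the adapted system
  have hadE : Adapted k v (Sum.elim (fun a => algebraMap B E (cB a)) (y ∘ e'))
      (algebraMap B E tB) := by
    refine ⟨r + dimension B E, ((Equiv.sumCongr e e').trans (osum _ _)).trans
      (Equiv.optionCongr finSumFinEquiv),
      (Sum.elim (fun i => algebraMap B E (x i)) y) ∘ finSumFinEquiv.symm,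
      ResAux.ResIndep.reindex hy _, by simpa using ht0, by rw [huv]; exact ht1, ?_⟩
    funext i
    rcases i with a | l
    · simp only [Sum.elim_inl, Function.comp_apply, Equiv.trans_apply, Equiv.sumCongr_apply,
        Sum.map_inl, hcB]
      rcases e a with _ | j
      · rfl
      · simp [osum]
    · simp [osum]
  have hcBtb : IsTranscendenceBasis k cB :=
    isTranscendenceBasis_of_card hιB hadB.algebraicIndependent
  have hlog : LogBasis k v (Sum.elim (fun a => algebraMap B E (cB a)) (y ∘ e')) :=
    hadE.logBasis (by rw [Fintype.card_sum, hιB, hι, hdim])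
  refine ⟨cB, tB, y ∘ e', hσ, hadB, hadE, fun l => hy1 _, hG, fun l a => ?_⟩
  have h1 := hlog.der (Sum.inr l) a
  rw [pd_rel_inr hcBtb hσ hlog.tb l a, map_mul, Sum.elim_inr, Function.comp_apply, hy1,
    one_mul] at h1
  exact h1

end Pf72953.Fib
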