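import Mathlib
import Pool.Agent.Lib.Pf72953u.Inst
import Pool.Agent.Lib.Pf72953f.Defs

/-!
MODULE Pf72953f.Tower: finiteness and coordinates of fibre powers.

PROOF.  `essFiniteType`: `L` is generated as a field over `B` by the images of the finitely many generators of `E` under the
`i j` (`IntermediateField.fg_top`, `essFiniteType_iff_fg_top` or similar; cf. `essFiniteType_of_gen` in Pf72953u/Inst.lean).
`tb`: `L` is algebraic over `B (rcoord i s)`: every `i j y` is, since `y` is algebraic over `B(s)` (cf. `isAlgebraic_transport` in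
Pf72953/Core.lean); the family has `r * card ι = r * dimension B E = dimension B L` elements, so it is a transcendence basis
(`Algebra.IsAlgebraic.isTranscendenceBasis_of_lift_le_trdeg_of_finite` as in `sumElim_tb`, Pf72953/Core.lean).
-/

set_option autoImplicit false

namespace Pf72953.Fib

universe u v w

variable {B : Type u} {E : Type v} {ι : Type*} [Field B] [Field E] [Algebra B E]
  [Algebra.EssFiniteType B E]

theorem IsFibrePower.essFiniteType {L : Type w} [Field L] [Algebra B L] {r : ℕ}
    {i : Fin r → E →ₐ[B] L} (h : IsFibrePower B E L i) : Algebra.EssFiniteType B L := by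
  classical
  obtain ⟨s, hs⟩ := IntermediateField.fg_top B E
  rw [← IntermediateField.fg_top_iff]
  refine ⟨Finset.univ.biUnion fun j => s.image (i j), ?_⟩
  rw [_root_.eq_top_iff, ← h.gen, IntermediateField.adjoin_le_iff]
  intro z hz
  obtain ⟨j, hj⟩ := Set.mem_iUnion.mp hz
  obtain ⟨b, rfl⟩ := hj
  have hb : b ∈ IntermediateField.adjoin B (s : Set E) := by rw [hs]; trivial
  have h1 : IntermediateField.adjoin B (s : Set E) ≤
      (IntermediateField.adjoin B
        (↑(Finset.univ.biUnion fun j => s.image (i j)) : Set L)).comap (i j) := by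
    rw [IntermediateField.adjoin_le_iff]
    intro c hc
    refine IntermediateField.subset_adjoin B _ (Finset.mem_coe.mpr ?_)
    exact Finset.mem_biUnion.mpr ⟨j, Finset.mem_univ _, Finset.mem_image_of_mem _
      (Finset.mem_coe.mp hc)⟩
  exact h1 hb

theorem IsFibrePower.tb [Finite ι] {L : Type w} [Field L] [Algebra B L] {r : ℕ}
    {i : Fin r → E →ₐ[B] L} (h : IsFibrePower B E L i) {s : ι → E}
    (hs : IsTranscendenceBasis B s) : IsTranscendenceBasis B (rcoord i s) := by
  classical
  haveI := Fintype.ofFinite ι
  haveI : Algebra.EssFiniteType B L := h.essFiniteType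
  haveI halg : Algebra.IsAlgebraic (Algebra.adjoin B (Set.range (rcoord i s))) L := by
    refine ⟨fun a => ?_⟩
    have h1 : IsAlgebraic (Algebra.adjoin B (⋃ j, Set.range (i j))) a := by
      rw [← IntermediateField.isAlgebraic_adjoin_iff]
      have ha : a ∈ IntermediateField.adjoin B (⋃ j, Set.range (i j)) := by
        rw [h.gen]; trivial
      exact isAlgebraic_algebraMap
        (⟨a, ha⟩ : IntermediateField.adjoin B (⋃ j, Set.range (i j)))
    refine h1.adjoin_of_forall_isAlgebraic ?_
    rintro b ⟨hb, _⟩
    obtain ⟨j, hj⟩ := Set.mem_iUnion.mp hb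
    obtain ⟨c, rfl⟩ := hj
    letI : Algebra E L := (i j).toRingHom.toAlgebra
    haveI : IsScalarTower B E L := IsScalarTower.of_algebraMap_eq fun x => ((i j).commutes x).symm
    exact isAlgebraic_transport hs (Set.range (rcoord i s)) (fun a => ⟨(j, a), rfl⟩) c
  refine Algebra.IsAlgebraic.isTranscendenceBasis_of_lift_le_trdeg_of_finite B (rcoord i s) ?_
  rw [← trdeg_eq_dimension, h.dim, Cardinal.mk_fintype, Fintype.card_prod, Fintype.card_fin,
    card_eq_of_isTranscendenceBasis hs]
  simp

end Pf72953.Fib
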