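import Mathlib
import Pool.Agent.Lib.Pf72953f.Tower

/-!
MODULE Pf72953f.Peel: splitting off one factor of a fibre power.

PROOF.  `C := IntermediateField.adjoin B (⋃ j : Fin r, Set.range (i j.castSucc))`, `i' j` is `i j.castSucc` with values in `C`.
`gen` for `C`: a subfield of `C` containing the images contains everything (`IntermediateField.adjoin_induction`, or
`IntermediateField.map` along `C.val`).  `dim`: with a transcendence basis `s` of `E/B` the family
`rcoord i' s` is algebraically independent (a subfamily of `rcoord i s`) and `C` is algebraic over it, so it is a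
transcendence basis of `C/B` with `r * dimension B E` elements.
-/

set_option autoImplicit false

namespace Pf72953.Fib

universe u v w

variable {B : Type u} {E : Type v} [Field B] [Field E] [Algebra B E]
  [Algebra.EssFiniteType B E]

theorem IsFibrePower.peel {L : Type w} [Field L] [Algebra B L] {r : ℕ}
    {i : Fin (r + 1) → E →ₐ[B] L} (h : IsFibrePower B E L i) :
    ∃ (C : IntermediateField B L) (i' : Fin r → E →ₐ[B] C),
      (∀ j y, ((i' j y : C) : L) = i j.castSucc y) ∧ IsFibrePower B E C i' ∧
      dimension B C + dimension B E = dimension B L ∧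
      IntermediateField.adjoin B (Set.range (algebraMap C L) ∪ Set.range (i (Fin.last r))) = ⊤ := by
  classical
  set S : Set L := ⋃ j : Fin r, Set.range (i j.castSucc) with hS
  set C : IntermediateField B L := IntermediateField.adjoin B S with hC
  have hmem : ∀ (j : Fin r) (y : E), i j.castSucc y ∈ C := fun j y =>
    IntermediateField.subset_adjoin B S (Set.mem_iUnion.2 ⟨j, y, rfl⟩)
  let i' : Fin r → E →ₐ[B] C := fun j =>
    (i j.castSucc).codRestrict C.toSubalgebra (fun y => hmem j y)
  have hi' : ∀ j y, ((i' j y : C) : L) = i j.castSucc y := fun j y => rfl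
  have hgen : IntermediateField.adjoin B (⋃ j, Set.range (i' j)) = ⊤ := by
    have himg : C.val '' (⋃ j, Set.range (i' j)) = S := by
      rw [hS, Set.image_iUnion]
      refine Set.iUnion_congr fun j => ?_
      rw [← Set.range_comp]
      rfl
    have h1 : (IntermediateField.adjoin B (⋃ j, Set.range (i' j))).map C.val = C := by
      rw [IntermediateField.adjoin_map]
      exact congrArg (IntermediateField.adjoin B) himg
    rw [_root_.eq_top_iff]
    rintro ⟨z, hz⟩ _
    have h2 : z ∈ (IntermediateField.adjoin B (⋃ j, Set.range (i' j))).map C.val := by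
      rw [h1]
      exact hz
    obtain ⟨y, hy, hyz⟩ := h2
    have h3 : y = ⟨z, hz⟩ := Subtype.ext hyz
    rw [← h3]
    exact hy
  obtain ⟨s, hs⟩ := exists_tb B E
  have hind : AlgebraicIndependent B (rcoord i' s) := by
    rw [← AlgHom.algebraicIndependent_iff C.val C.val.injective]
    have h1 := (h.tb hs).1
    have h2 := h1.comp (fun p : Fin r × Fin (dimension B E) => (p.1.castSucc, p.2)) (by
      rintro ⟨a, b⟩ ⟨a', b'⟩ hab
      simp only [Prod.mk.injEq, Fin.castSucc_inj] at hab
      rw [hab.1, hab.2])
    exact h2
  have halg : Algebra.IsAlgebraic (Algebra.adjoin B (Set.range (rcoord i' s))) C := by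
    refine ⟨fun a => ?_⟩
    have h1 : IsAlgebraic (Algebra.adjoin B (⋃ j, Set.range (i' j))) a := by
      rw [← IntermediateField.isAlgebraic_adjoin_iff]
      have ha : a ∈ IntermediateField.adjoin B (⋃ j, Set.range (i' j)) := by
        rw [hgen]; trivial
      exact isAlgebraic_algebraMap
        (⟨a, ha⟩ : IntermediateField.adjoin B (⋃ j, Set.range (i' j)))
    refine h1.adjoin_of_forall_isAlgebraic ?_
    rintro b ⟨hb, _⟩
    obtain ⟨j, hj⟩ := Set.mem_iUnion.mp hb
    obtain ⟨c, rfl⟩ := hj
    letI : Algebra E C := (i' j).toRingHom.toAlgebra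
    have : IsScalarTower B E C := IsScalarTower.of_algebraMap_eq fun x => ((i' j).commutes x).symm
    exact isAlgebraic_transport hs (Set.range (rcoord i' s)) (fun a => ⟨(j, a), rfl⟩) c
  have htb : IsTranscendenceBasis B (rcoord i' s) :=
    hind.isTranscendenceBasis_iff_isAlgebraic.2 halg
  have hdim : dimension B C = r * dimension B E := by
    have h1 := card_eq_of_isTranscendenceBasis htb
    rw [← h1, Fintype.card_prod, Fintype.card_fin, Fintype.card_fin]
  refine ⟨C, i', hi', ⟨hgen, hdim⟩, ?_, ?_⟩
  · rw [hdim, h.dim]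
    ring
  · rw [_root_.eq_top_iff, ← h.gen, IntermediateField.adjoin_le_iff]
    rintro z hz
    obtain ⟨j, hj⟩ := Set.mem_iUnion.mp hz
    obtain ⟨y, rfl⟩ := hj
    refine IntermediateField.subset_adjoin B _ ?_
    rcases Fin.eq_castSucc_or_eq_last j with ⟨j', rfl⟩ | rfl
    · exact Or.inl ⟨i' j' y, rfl⟩
    · exact Or.inr ⟨y, rfl⟩

end Pf72953.Fib
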