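import Mathlib
import Pool.Agent.Lib.Pf72953u.Lin
import Pool.Agent.Lib.Pf72953f.Defs

/-!
MODULE Pf72953f.Lin: linear disjointness of algebraically independent fields when the base field is
algebraically closed in one of them.

PROOF.  `const_of_pd`: copy the proof of `Lin_const` (Pf72953u/Lin.lean): there the element is shown to be algebraic over
the base field, and only the last step uses `IsAlgClosed`; here use `ClosedIn`.
`linInd_left` when `fun i => algebraMap E L (s i)` is a transcendence basis of `L/C`: copy the proof of
`linearIndependent_const` (Pf72953u/Lin.lean) with `const_of_pd` instead of `Lin_const`.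
In general let `L'` be the subfield of `L` generated by `C` and `E` (`IntermediateField.adjoin C (Set.range (algebraMap E L))`,
with `Algebra E L'` by `codRestrict`, `Algebra B L'`, scalar towers); it is algebraic over `C(s)` because `E` is algebraic over
`B(s)`, so `s` is a transcendence basis of `L'/C` (see `isAlgebraic_transport` in Pf72953/Core.lean and `tb_over` in
Pf72953u/Inst.lean for this kind of argument).  The independence in `L'` is the independence in `L`
(`LinearIndependent.map'` with the injective `E`-linear map `L' → L`, or work with `Finset` sums).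
`linInd_right`: suppose `∑_a c_a e_a = 0` (finite sum, `c_a ∈ C`), `e_a ∈ E` independent over `B`.  Take a `B`-basis `b_g` of `C` (or of
the span of the `c_a`), `c_a = ∑_g λ_{ag} b_g`, so `∑_g (∑_a λ_{ag} e_a) b_g = 0` and by `linInd_left` `∑_a λ_{ag} e_a = 0` for
all `g`, so `λ = 0` and `c = 0`.  (Or Mathlib: `Submodule.LinearDisjoint`, symmetric.)
-/

set_option autoImplicit false

namespace Pf72953.Fib

variable {B C E L ι : Type*} [Field B] [CharZero B] [Field C] [CharZero C] [Field E] [Field L]
  [Algebra B C] [Algebra B E] [Algebra B L] [Algebra C L] [Algebra E L] [IsScalarTower B C L]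
  [IsScalarTower B E L] [Fintype ι]

/-- constants of all partial derivatives -/
theorem const_of_pd {s : ι → E} (hs : IsTranscendenceBasis B s) (hE : ClosedIn B E) (p : E)
    (hp : ∀ a, pd hs a p = 0) : ∃ b : B, algebraMap B E b = p := by
  have hD : KaehlerDifferential.D B E p = 0 := by
    rw [D_eq_sum hs p]
    exact Finset.sum_eq_zero fun i _ => by rw [hp i, zero_smul]
  have halg : IsAlgebraic B p := by
    by_contra htr
    have h1 : AlgebraicIndepOn B id ({p} : Set E) := by
      have : Unique ({p} : Set E) := Set.uniqueSingleton p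
      refine algebraicIndependent_unique_type_iff.2 ?_
      have h0 : ((default : ({p} : Set E)) : E) = p := (default : ({p} : Set E)).2
      change Transcendental B ((default : ({p} : Set E)) : E)
      rw [h0]
      exact htr
    obtain ⟨t, ht, hbt⟩ := exists_isTranscendenceBasis_superset h1
    have h2 := dBasis_apply hbt ⟨p, ht rfl⟩
    exact (dBasis hbt).ne_zero ⟨p, ht rfl⟩ (h2.trans hD)
  exact hE p halg

namespace LinAux

theorem pd_ext {s : ι → E} (hs : IsTranscendenceBasis B s) {κ' : Type*} {z : κ' → L}
    (hz : IsTranscendenceBasis C z) (j : ι → κ') (hj : Function.Injective j)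
    (hzj : ∀ i, z (j i) = algebraMap E L (s i)) (a : ι) (f : E) :
    pd hz (j a) (algebraMap E L f) = algebraMap E L (pd hs a f) := by
  classical
  have hcomm : SMulCommClass C E L := ⟨fun c y z => by
    rw [Algebra.smul_def, Algebra.smul_def, Algebra.smul_def, Algebra.smul_def, mul_left_comm]⟩
  have h1 : KaehlerDifferential.D C L (algebraMap E L f) =
      ∑ i, algebraMap E L (pd hs i f) • KaehlerDifferential.D C L (algebraMap E L (s i)) := by
    rw [← KaehlerDifferential.map_D B C E L, D_eq_sum hs f, map_sum]
    refine Finset.sum_congr rfl fun i _ => ?_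
    rw [LinearMap.map_smul, KaehlerDifferential.map_D, algebraMap_smul]
  rw [pd_apply, h1, map_sum, Finsupp.finsetSum_apply]
  have h2 : ∀ i, KaehlerDifferential.D C L (algebraMap E L (s i)) = dBasis hz (j i) :=
    fun i => by rw [← hzj i, dBasis_apply hz (j i)]
  simp only [h2, map_smul, Module.Basis.repr_self, Finsupp.smul_apply,
    Finsupp.single_apply, smul_eq_mul, mul_ite, mul_one, mul_zero, hj.eq_iff]
  simp

theorem exists_ext {s : ι → E} 
    (hsL : AlgebraicIndependent C (fun i => algebraMap E L (s i))) :
    ∃ (t : Set L) (_ : IsTranscendenceBasis C ((↑) : t → L)) (j : ι → t),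
      Function.Injective j ∧ ∀ i, ((j i : t) : L) = algebraMap E L (s i) := by
  obtain ⟨t, ht, hbt⟩ := exists_isTranscendenceBasis_superset
    (s := Set.range fun i => algebraMap E L (s i)) hsL.to_subtype_range
  refine ⟨t, hbt, fun i => ⟨algebraMap E L (s i), ht ⟨i, rfl⟩⟩, ?_, fun i => rfl⟩
  intro i i' h
  exact hsL.injective (congrArg Subtype.val h)

end LinAux

open LinAux

theorem linInd_left (hE : ClosedIn B E) {s : ι → E} (hs : IsTranscendenceBasis B s)
    (hsL : AlgebraicIndependent C (fun i => algebraMap E L (s i))) {γ : Type*} {b : γ → C}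
    (hb : LinearIndependent B b) : LinearIndependent E (fun g => algebraMap C L (b g)) := by
  classical
  obtain ⟨t, hz, j, hj, hzj⟩ := exists_ext hsL
  have hpd : ∀ (a : ι) (f : E), pd hz (j a) (algebraMap E L f) = algebraMap E L (pd hs a f) :=
    pd_ext hs hz j hj hzj
  rw [linearIndependent_iff']
  suffices H : ∀ (n : ℕ) (S : Finset γ), S.card ≤ n → ∀ g : γ → E,
      ∑ i ∈ S, g i • algebraMap C L (b i) = 0 → ∀ i ∈ S, g i = 0 from
    fun S g hg => H S.card S le_rfl g hg
  intro n
  induction n with
  | zero =>
    intro S hS g _ i hi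
    have := Finset.card_pos.2 ⟨i, hi⟩
    omega
  | succ n ih =>
    intro S hS g hg i₀ hi₀
    by_contra hne
    -- normalise
    set p : γ → E := fun i => (g i₀)⁻¹ * g i with hpdef
    have hp0 : p i₀ = 1 := inv_mul_cancel₀ hne
    have hrel : ∑ i ∈ S, p i • algebraMap C L (b i) = 0 := by
      have : ∑ i ∈ S, p i • algebraMap C L (b i) =
          (g i₀)⁻¹ • ∑ i ∈ S, g i • algebraMap C L (b i) := by
        rw [Finset.smul_sum]
        exact Finset.sum_congr rfl fun i _ => by rw [hpdef, mul_smul]
      rw [this, hg, smul_zero]
    have hder : ∀ a, ∀ i ∈ S, pd hs a (p i) = 0 := by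
      intro a
      have h1 : ∑ i ∈ S, (pd hs a (p i)) • algebraMap C L (b i) = 0 := by
        have h2 := congrArg (pd hz (j a)) hrel
        rw [map_zero, map_sum] at h2
        rw [← h2]
        refine Finset.sum_congr rfl fun i _ => ?_
        have h6 : pd hz (j a) (algebraMap E L (p i) * algebraMap C L (b i)) =
            algebraMap E L (pd hs a (p i)) * algebraMap C L (b i) := by
          rw [Derivation.leibniz, Derivation.map_algebraMap, smul_zero, zero_add,
            hpd, smul_eq_mul, mul_comm]
        rw [Algebra.smul_def, Algebra.smul_def, h6]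
      have h3 : pd hs a (p i₀) = 0 := by rw [hp0, Derivation.map_one_eq_zero]
      have h4 : ∑ i ∈ S.erase i₀, (pd hs a (p i)) • algebraMap C L (b i) = 0 := by
        rw [← Finset.add_sum_erase S _ hi₀, h3, zero_smul, zero_add] at h1
        exact h1
      have h5 := ih (S.erase i₀) (by rw [Finset.card_erase_of_mem hi₀]; omega) _ h4
      intro i hi
      by_cases hii : i = i₀
      · rw [hii, h3]
      · exact h5 i (Finset.mem_erase.2 ⟨hii, hi⟩)
    have hconst : ∀ i : γ, ∃ c : B, i ∈ S → algebraMap B E c = p i := by
      intro i
      by_cases hi : i ∈ S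
      · obtain ⟨c, hc⟩ := const_of_pd hs hE (p i) (fun a => hder a i hi)
        exact ⟨c, fun _ => hc⟩
      · exact ⟨0, fun h => absurd h hi⟩
    choose c hc using hconst
    have hk : ∑ i ∈ S, c i • b i = 0 := by
      apply (algebraMap C L).injective
      rw [map_zero, map_sum, ← hrel]
      refine Finset.sum_congr rfl fun i hi => ?_
      rw [← hc i hi, algebraMap_smul, Algebra.smul_def, Algebra.smul_def, map_mul,
        ← IsScalarTower.algebraMap_apply]
    have h6 := linearIndependent_iff'.1 hb S c hk i₀ hi₀
    have h7 := hc i₀ hi₀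
    rw [h6, map_zero, hp0] at h7
    exact zero_ne_one h7

theorem linInd_right (hE : ClosedIn B E) {s : ι → E} (hs : IsTranscendenceBasis B s)
    (hsL : AlgebraicIndependent C (fun i => algebraMap E L (s i))) {γ : Type*} {e : γ → E}
    (he : LinearIndependent B e) : LinearIndependent C (fun g => algebraMap E L (e g)) := by
  classical
  let bC := Module.Basis.ofVectorSpace B C
  have h1 := linInd_left (C := C) (L := L) hE hs hsL bC.linearIndependent
  rw [linearIndependent_iff'] at he ⊢
  intro S c hc g hg
  set T := S.biUnion (fun g => (bC.repr (c g)).support) with hT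
  have h2 : ∀ g ∈ S, c g = ∑ β ∈ T, bC.repr (c g) β • bC β := by
    intro g hg
    have h := bC.linearCombination_repr (c g)
    rw [Finsupp.linearCombination_apply, Finsupp.sum_of_support_subset (bC.repr (c g)) (s := T)
      (Finset.subset_biUnion_of_mem (fun g => (bC.repr (c g)).support) hg)
      (fun i a => a • bC i) (fun i _ => zero_smul B _)] at h
    exact h.symm
  have h3 : ∑ β ∈ T, (∑ g ∈ S, bC.repr (c g) β • e g) • algebraMap C L (bC β) = 0 := by
    rw [← hc]
    calc ∑ β ∈ T, (∑ g ∈ S, bC.repr (c g) β • e g) • algebraMap C L (bC β)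
        = ∑ β ∈ T, ∑ g ∈ S, (algebraMap E L (bC.repr (c g) β • e g)) *
            algebraMap C L (bC β) := by
          refine Finset.sum_congr rfl fun β _ => ?_
          rw [Algebra.smul_def, map_sum, Finset.sum_mul]
      _ = ∑ g ∈ S, ∑ β ∈ T, (algebraMap E L (bC.repr (c g) β • e g)) *
            algebraMap C L (bC β) := Finset.sum_comm
      _ = ∑ g ∈ S, c g • algebraMap E L (e g) := by
          refine Finset.sum_congr rfl fun g hg => ?_
          have h4 : c g • algebraMap E L (e g) =
              algebraMap C L (∑ β ∈ T, bC.repr (c g) β • bC β) * algebraMap E L (e g) := by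
            rw [← h2 g hg, Algebra.smul_def]
          rw [h4, map_sum, Finset.sum_mul]
          refine Finset.sum_congr rfl fun β _ => ?_
          rw [Algebra.smul_def, Algebra.smul_def, map_mul, map_mul,
            ← IsScalarTower.algebraMap_apply, ← IsScalarTower.algebraMap_apply]
          ring
  have h4 := linearIndependent_iff'.1 h1 T _ h3
  have h5 : ∀ β ∈ T, ∀ g ∈ S, bC.repr (c g) β = 0 := fun β hβ g hg =>
    he S _ (h4 β hβ) g hg
  rw [h2 g hg]
  exact Finset.sum_eq_zero fun β hβ => by rw [h5 β hβ g hg, zero_smul]

end Pf72953.Fib
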