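import Mathlib
import Pool.Agent.Lib.Pf72953u.Inst
import Pool.Agent.Lib.Pf72953f.Lin

/-!
MODULE Pf72953f.Comp: the compositum `L` of two algebraically independent fields `C`, `E` over `B`.

PROOF.  `Comp.symm`: `add_comm`, `Set.union_comm`.
`Comp.tb`: `tb_over` in Pf72953u/Inst.lean with `k := B`, `κ := C`, `Y := E` (the hypothesis `halg` there: every element of `L`
is algebraic over `B[C, E]`, by `h.gen`, e.g. `IntermediateField.isAlgebraic_adjoin_iff` and
every element of the top intermediate field is in the adjoin).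
`Comp.tbSum`: `IsTranscendenceBasis.sumElim_comp` or: algebraic independence by `Comp.tb`
(`AlgebraicIndependent.sumElim_of_tower`) and counting (`isTranscendenceBasis_of_card`), or `sumElim_tb` in Pf72953/Core.lean.
`pmap` is the product map `C ⊗ E → L`, `c ⊗ e ↦ c e`.
`Comp.frac`: the set of all `pmap p / pmap q`, `pmap q ≠ 0`, is a subfield (compare `Chart.baseChange.frac` in
Pf72953u/BaseCh.lean) containing `C` and `E`, so everything by `h.gen` (`IntermediateField.adjoin_induction`).
-/

set_option autoImplicit false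

open scoped TensorProduct

namespace Pf72953.Fib

section

variable (B C E L : Type*) [Field B] [Field C] [Field E] [Field L]
  [Algebra B C] [Algebra B E] [Algebra B L] [Algebra C L] [Algebra E L] [IsScalarTower B C L]
  [IsScalarTower B E L]

/-- the product map -/
noncomputable def pmap : C ⊗[B] E →ₐ[B] L :=
  Algebra.TensorProduct.productMap (IsScalarTower.toAlgHom B C L) (IsScalarTower.toAlgHom B E L)

theorem pmap_tmul (c : C) (e : E) : pmap B C E L (c ⊗ₜ e) = algebraMap C L c * algebraMap E L e := by
  simp [pmap]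

end

variable {B C E L ι ιC : Type*} [Field B] [Field C] [Field E] [Field L]
  [Algebra B C] [Algebra B E] [Algebra B L] [Algebra C L] [Algebra E L] [IsScalarTower B C L]
  [IsScalarTower B E L] [Fintype ι] [Fintype ιC]

omit [IsScalarTower B C L] [IsScalarTower B E L] in
theorem Comp.symm (h : Comp B C E L) : Comp B E C L := by
  refine ⟨?_, ?_⟩
  · rw [add_comm]
    exact h.dim
  · rw [Set.union_comm]
    exact h.gen

namespace CompAux

omit [Fintype ι] [Fintype ιC] in
theorem frac (h : Comp B C E L) (z : L) :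
    ∃ p q : C ⊗[B] E, pmap B C E L q ≠ 0 ∧ z = pmap B C E L p / pmap B C E L q := by
  have hz : z ∈ IntermediateField.adjoin B
      (Set.range (algebraMap C L) ∪ Set.range (algebraMap E L)) := by
    rw [h.gen]
    exact IntermediateField.mem_top
  induction hz using IntermediateField.adjoin_induction with
  | mem x hx =>
    rcases hx with ⟨c, rfl⟩ | ⟨e, rfl⟩
    · refine ⟨c ⊗ₜ 1, 1, ?_, ?_⟩
      · rw [map_one]
        exact one_ne_zero
      · rw [map_one, pmap_tmul, map_one, mul_one, div_one]
    · refine ⟨1 ⊗ₜ e, 1, ?_, ?_⟩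
      · rw [map_one]
        exact one_ne_zero
      · rw [map_one, pmap_tmul, map_one, one_mul, div_one]
  | algebraMap r =>
    refine ⟨algebraMap B (C ⊗[B] E) r, 1, ?_, ?_⟩
    · rw [map_one]
      exact one_ne_zero
    · rw [map_one, AlgHom.commutes, div_one]
  | add x y _ _ hx hy =>
    obtain ⟨p, q, hq, rfl⟩ := hx
    obtain ⟨p', q', hq', rfl⟩ := hy
    refine ⟨p * q' + q * p', q * q', ?_, ?_⟩
    · rw [map_mul]
      exact mul_ne_zero hq hq'
    · rw [map_add, map_mul, map_mul, map_mul, div_add_div _ _ hq hq']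
  | inv x _ hx =>
    obtain ⟨p, q, hq, rfl⟩ := hx
    by_cases hp : pmap B C E L p = 0
    · refine ⟨0, 1, ?_, ?_⟩
      · rw [map_one]
        exact one_ne_zero
      · rw [hp, zero_div, inv_zero, map_zero, zero_div]
    · exact ⟨q, p, hp, by rw [inv_div]⟩
  | mul x y _ _ hx hy =>
    obtain ⟨p, q, hq, rfl⟩ := hx
    obtain ⟨p', q', hq', rfl⟩ := hy
    refine ⟨p * p', q * q', ?_, ?_⟩
    · rw [map_mul]
      exact mul_ne_zero hq hq'
    · rw [map_mul, map_mul, div_mul_div_comm]

omit [Fintype ι] [Fintype ιC] in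
theorem pmap_mem (p : C ⊗[B] E) : pmap B C E L p ∈ Algebra.adjoin B
    (Set.range (algebraMap C L) ∪ Set.range (algebraMap E L)) := by
  induction p using TensorProduct.induction_on with
  | zero =>
    rw [map_zero]
    exact Subalgebra.zero_mem _
  | tmul c e =>
    rw [pmap_tmul]
    exact Subalgebra.mul_mem _ (Algebra.subset_adjoin (Or.inl ⟨c, rfl⟩))
      (Algebra.subset_adjoin (Or.inr ⟨e, rfl⟩))
  | add p q hp hq =>
    rw [map_add]
    exact Subalgebra.add_mem _ hp hq

omit [Fintype ι] [Fintype ιC] in
theorem alg (h : Comp B C E L) (z : L) : IsAlgebraic (Algebra.adjoin B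
    (Set.range (algebraMap C L) ∪ Set.range (algebraMap E L))) z := by
  obtain ⟨p, q, hq, rfl⟩ := frac h z
  have h1 : IsAlgebraic (Algebra.adjoin B
      (Set.range (algebraMap C L) ∪ Set.range (algebraMap E L))) (pmap B C E L p) :=
    isAlgebraic_algebraMap (A := L) (⟨_, pmap_mem p⟩ : Algebra.adjoin B
      (Set.range (algebraMap C L) ∪ Set.range (algebraMap E L)))
  have h2 : IsAlgebraic (Algebra.adjoin B
      (Set.range (algebraMap C L) ∪ Set.range (algebraMap E L))) (pmap B C E L q) :=
    isAlgebraic_algebraMap (A := L) (⟨_, pmap_mem q⟩ : Algebra.adjoin B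
      (Set.range (algebraMap C L) ∪ Set.range (algebraMap E L)))
  rw [div_eq_mul_inv]
  exact h1.mul h2.inv

end CompAux

theorem Comp.tb [Algebra.EssFiniteType B L] (h : Comp B C E L) {s : ι → E}
    (hs : IsTranscendenceBasis B s) : IsTranscendenceBasis C (fun i => algebraMap E L (s i)) := by
  classical
  exact Up.tb_over h.dim (CompAux.alg h) hs

theorem Comp.tbSum [Algebra.EssFiniteType B L] (h : Comp B C E L) {z : ιC → C}
    (hz : IsTranscendenceBasis B z) {s : ι → E} (hs : IsTranscendenceBasis B s) :
    IsTranscendenceBasis B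
      (Sum.elim (fun i => algebraMap C L (z i)) (fun j => algebraMap E L (s j))) := by
  classical
  exact sumElim_tb h.dim (CompAux.alg h) hz hs

theorem Comp.frac (h : Comp B C E L) (z : L) :
    ∃ p q : C ⊗[B] E, pmap B C E L q ≠ 0 ∧ z = pmap B C E L p / pmap B C E L q :=
  CompAux.frac h z

end Pf72953.Fib
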