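import Mathlib
import Pool.Agent.Lib.Pf72953f.Comp

/-!
MODULE Pf72953f.CompL: the product map is injective; algebraic closedness of the base field.

PROOF.  `Comp.inj`: an element of `C ⊗ E` is `∑_a c_a ⊗ e_a` with `e_a` a basis of `E/B`
(`Algebra.TensorProduct.basis`, or `TensorProduct.equivFinsuppOfBasisRight`); its image is zero only if all `c_a` are, by
`linInd_right`.
`Comp.closed`: let `z ∈ L` be algebraic over `B`, `C' := IntermediateField.adjoin C {z}`, algebraic over `C`, so that `s` is
algebraically independent over `C'` (`AlgebraicIndependent.extendScalars` or similar; it is a transcendence basis of `L/C'`).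
Write `z * Q = P` with `P = pmap p = ∑_a c_a e_a`, `Q = pmap q = ∑_a c'_a e_a ≠ 0`, the same finite family `e_a ∈ E` independent over `B`
(a basis of `E/B`).  By `linInd_right` for `C'` (in the place of `C`; `CharZero C'`, scalar towers) the `e_a` are
independent over `C'`, so `∑ (c_a - z c'_a) e_a = 0` gives `c_a = z c'_a` for all `a`; some `c'_a ≠ 0`, so `z = c_a / c'_a ∈ C`,
and `z` is algebraic over `B`, so `z ∈ B` by `hC`.
-/

set_option autoImplicit false

open scoped TensorProduct

namespace Pf72953.Fib

variable {B C E L ι : Type*} [Field B] [Field C] [Field E] [Field L]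
  [Algebra B C] [Algebra B E] [Algebra B L] [Algebra C L] [Algebra E L] [IsScalarTower B C L]
  [IsScalarTower B E L] [Fintype ι] [CharZero B] [CharZero C]

namespace CompLAux

omit [Fintype ι] [CharZero B] [CharZero C] in
/-- the product map in coordinates -/
theorem pmap_repr {I : Type*} (b : Module.Basis I B E) (x : C ⊗[B] E) :
    pmap B C E L x = Finsupp.linearCombination C (fun g => algebraMap E L (b g))
      ((Algebra.TensorProduct.basis C b).repr x) := by
  induction x using TensorProduct.induction_on with
  | zero => simp
  | add x y hx hy => rw [map_add, map_add, map_add, hx, hy]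
  | tmul c e =>
    rw [pmap_tmul, Algebra.TensorProduct.basis_repr_tmul, map_smul, Algebra.smul_def]
    congr 1
    conv_lhs => rw [← b.linearCombination_repr e]
    rw [Finsupp.linearCombination_apply, Finsupp.linearCombination_apply, Finsupp.sum_mapRange_index
      (by intro g; rw [zero_smul]), Finsupp.sum, Finsupp.sum, map_sum]
    refine Finset.sum_congr rfl fun g _ => ?_
    rw [Algebra.smul_def, map_mul, Algebra.smul_def, ← IsScalarTower.algebraMap_apply B E L,
      ← IsScalarTower.algebraMap_apply B C L]

end CompLAux

open CompLAux

theorem Comp.inj [Algebra.EssFiniteType B L] (h : Comp B C E L) (hE : ClosedIn B E) {s : ι → E}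
    (hs : IsTranscendenceBasis B s) : Function.Injective (pmap B C E L) := by
  rw [injective_iff_map_eq_zero]
  intro x hx
  have h1 := linInd_right hE hs (h.tb hs).1 (Module.Basis.ofVectorSpace B E).linearIndependent
  rw [pmap_repr (Module.Basis.ofVectorSpace B E)] at hx
  have h2 := (linearIndependent_iff.1 h1) _ hx
  exact (LinearEquiv.map_eq_zero_iff _).1 h2

theorem Comp.closed [Algebra.EssFiniteType B L] (h : Comp B C E L) (hC : ClosedIn B C)
    (hE : ClosedIn B E) {s : ι → E} (hs : IsTranscendenceBasis B s) : ClosedIn B L := by
  intro z hz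
  obtain ⟨p, q, hq, hzq⟩ := h.frac z
  have hzC : z ∈ algebraicClosure C L := mem_algebraicClosure_iff.2 (hz.tower_top C)
  have hsC := (h.tb hs).1.algebraicClosure
  have : CharZero (algebraicClosure C L) :=
    charZero_of_injective_algebraMap (algebraMap C (algebraicClosure C L)).injective
  have : IsScalarTower B (algebraicClosure C L) L :=
    IsScalarTower.of_algebraMap_eq fun b => rfl
  have h1 := linInd_right (C := algebraicClosure C L) hE hs hsC
    (Module.Basis.ofVectorSpace B E).linearIndependent
  have hP := pmap_repr (L := L) (Module.Basis.ofVectorSpace B E) p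
  have hQ := pmap_repr (L := L) (Module.Basis.ofVectorSpace B E) q
  set cp := (Algebra.TensorProduct.basis C (Module.Basis.ofVectorSpace B E)).repr p with hcp
  set cq := (Algebra.TensorProduct.basis C (Module.Basis.ofVectorSpace B E)).repr q with hcq
  have hlin : ∀ c : _ →₀ C, Finsupp.linearCombination (algebraicClosure C L)
      (fun g => algebraMap E L (Module.Basis.ofVectorSpace B E g))
      (c.mapRange (algebraMap C (algebraicClosure C L)) (map_zero _)) =
      Finsupp.linearCombination C (fun g => algebraMap E L (Module.Basis.ofVectorSpace B E g)) c := by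
    intro c
    rw [Finsupp.linearCombination_apply, Finsupp.linearCombination_apply,
      Finsupp.sum_mapRange_index (by intro g; rw [zero_smul])]
    refine Finset.sum_congr rfl fun g _ => ?_
    dsimp only
    rw [algebraMap_smul]
  have h2 : Finsupp.linearCombination (algebraicClosure C L)
      (fun g => algebraMap E L (Module.Basis.ofVectorSpace B E g))
      (cp.mapRange (algebraMap C (algebraicClosure C L)) (map_zero _) -
        (⟨z, hzC⟩ : algebraicClosure C L) •
          cq.mapRange (algebraMap C (algebraicClosure C L)) (map_zero _)) = 0 := by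
    rw [map_sub, map_smul, hlin, hlin, ← hP, ← hQ]
    change pmap B C E L p - z * pmap B C E L q = 0
    rw [hzq, div_mul_cancel₀ _ hq, sub_self]
  have h3 := (linearIndependent_iff.1 h1) _ h2
  have hq0 : cq ≠ 0 := by
    intro h0
    apply hq
    rw [hQ, h0, map_zero]
  obtain ⟨g, hg⟩ := Finsupp.ne_iff.1 hq0
  rw [Finsupp.zero_apply] at hg
  have h4 := DFunLike.congr_fun h3 g
  rw [Finsupp.sub_apply, Finsupp.smul_apply, Finsupp.mapRange_apply, Finsupp.mapRange_apply,
    Finsupp.zero_apply, sub_eq_zero] at h4
  have h5 : algebraMap C L (cp g) = z * algebraMap C L (cq g) := congrArg Subtype.val h4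
  have h6 : algebraMap C L (cp g / cq g) = z := by
    rw [map_div₀, h5, mul_div_assoc, div_self, mul_one]
    rwa [Ne, map_eq_zero]
  have h7 : IsAlgebraic B (cp g / cq g) := by
    rw [← h6] at hz
    exact (isAlgebraic_algebraMap_iff (algebraMap C L).injective).1 hz
  obtain ⟨b, hb⟩ := hC _ h7
  exact ⟨b, by rw [IsScalarTower.algebraMap_apply B C L, hb, h6]⟩

end Pf72953.Fib
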