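import Mathlib

/-!
MODULE Pf72953f.ExtV: extension of valuations from a domain to its field of fractions.

PROOF.  Mathlib `Valuation.extendToLocalization` / `Valuation.onQuot`..., or directly: `W (φ p / φ q) = W₀ p / W₀ q`
is well defined (choose `p`, `q` for every `z`; if `φ p / φ q = φ p' / φ q'` then `p q' = p' q` by injectivity) and
multiplicative, and `W (z + z') ≤ max (W z) (W z')` by reduction to a common denominator.  (Or: `L` is the fraction field of
`R`, `IsFractionRing R L` with `φ.toAlgebra`, by `hφ`, `hfrac`, and `Valuation.extendToLocalization`.)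

-/

set_option autoImplicit false

namespace Pf72953.Fib

theorem exists_ext {R L Γ : Type*} [CommRing R] [Field L] [LinearOrderedCommGroupWithZero Γ]
    (φ : R →+* L) (hφ : Function.Injective φ)
    (hfrac : ∀ z : L, ∃ p q : R, φ q ≠ 0 ∧ z = φ p / φ q) (W₀ : Valuation R Γ)
    (hW : ∀ p, p ≠ 0 → W₀ p ≠ 0) : ∃ W : Valuation L Γ, ∀ p, W (φ p) = W₀ p := by
  letI : Algebra R L := φ.toAlgebra
  haveI : IsDomain R := hφ.isDomain φ
  have hne : ∀ q : R, φ q ≠ 0 → q ≠ 0 := by
    rintro q hq rfl
    exact hq (map_zero φ)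
  haveI : IsLocalization (nonZeroDivisors R) L := by
    refine ⟨?_, ?_, ?_⟩
    · intro y
      refine IsUnit.mk0 _ ?_
      change φ (y : R) ≠ 0
      rw [map_ne_zero_iff φ hφ]
      exact nonZeroDivisors.coe_ne_zero y
    · intro z
      obtain ⟨p, q, hq, rfl⟩ := hfrac z
      refine ⟨(p, ⟨q, mem_nonZeroDivisors_of_ne_zero (hne q hq)⟩), ?_⟩
      change φ p / φ q * φ q = φ p
      exact div_mul_cancel₀ _ hq
    · intro x y hxy
      exact ⟨1, by rw [hφ hxy]⟩
  have hS : nonZeroDivisors R ≤ W₀.supp.primeCompl := by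
    intro q hq h
    exact hW q (nonZeroDivisors.ne_zero hq) h
  exact ⟨W₀.extendToLocalization hS L, fun p => W₀.extendToLocalization_apply_map_apply hS L p⟩

end Pf72953.Fib
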