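import Mathlib

/-!
MODULE Pf72953f.GaussP: the Gauss valuation on bounded power series.

PROOF.  For `P : R` the set of the values `V (coeff α (Ψ P))` is bounded above in `ℤᵐ⁰` and nonempty, so it has a greatest element
(if all values are `0` it is `0`; otherwise take the logarithms of the nonzero values, integers bounded above:
`Int.exists_greatest_of_bdd` or similar).  Let `W P` be this element.  `W 0 = 0`, `W 1 = 1` (`coeff α 1` is `1` or `0`),
`W (P + Q) ≤ max (W P) (W Q)`: coefficientwise.  `W (P * Q) ≤ W P * W Q`: `coeff_mul` is a finite sum over the antidiagonal.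
`W P * W Q ≤ W (P * Q)`: one may assume that both are nonzero.  Choose an order of `ι` (finite, `Fin n`, or a linear order
by `linearOrderOfSTO`/`LinearOrder` from `Fintype.equivFin`) and consider the lexicographic order on `ι →₀ ℕ`
(`Lex (ι →₀ ℕ)`), a well-founded linear order compatible with the addition (`Finsupp.Lex.wellFoundedLT`,
ordered cancellative; or `MonomialOrder.lex` / `MonomialOrder.degLex`).  Let `α` be the smallest index with
`V (coeff α (Ψ P)) = W P`, `β` the same for `Q`.  In `coeff (α + β) (Ψ P * Ψ Q) = ∑ coeff α' (Ψ P) * coeff β' (Ψ Q)` the term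
`(α, β)` has value `W P * W Q`, and any other term has `α' < α` or `β' < β`, hence a strictly smaller value;
`Valuation.map_add_eq_of_lt_left`, `Valuation.map_sum_lt`.
-/

set_option autoImplicit false

open scoped WithZero

namespace Pf72953.Fib

namespace GaussPAux

theorem exists_max {S : Set ℤᵐ⁰} (hne : S.Nonempty) (hbd : ∃ M : ℤᵐ⁰, ∀ x ∈ S, x ≤ M) :
    ∃ m ∈ S, ∀ x ∈ S, x ≤ m := by
  by_cases h0 : ∃ x ∈ S, x ≠ 0
  · obtain ⟨x, hxS, hx0⟩ := h0
    obtain ⟨M, hM⟩ := hbd
    have hM0 : M ≠ 0 := by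
      rintro rfl
      exact hx0 (le_zero_iff.1 (hM x hxS))
    obtain ⟨n, hn, hmax⟩ := Int.exists_greatest_of_bdd (P := fun n : ℤ => WithZero.exp n ∈ S)
      ⟨WithZero.log M, fun z hz => (WithZero.le_log_iff_exp_le hM0).2 (hM _ hz)⟩
      ⟨WithZero.log x, by
        show WithZero.exp (WithZero.log x) ∈ S
        rw [WithZero.exp_log hx0]
        exact hxS⟩
    refine ⟨WithZero.exp n, hn, fun y hy => ?_⟩
    rcases eq_or_ne y 0 with rfl | hy0
    · exact zero_le
    · have h1 := hmax (WithZero.log y) (by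
        show WithZero.exp (WithZero.log y) ∈ S
        rw [WithZero.exp_log hy0]
        exact hy)
      exact (WithZero.log_le_iff_le_exp hy0).1 h1
  · push Not at h0
    obtain ⟨x, hx⟩ := hne
    exact ⟨x, hx, fun y hy => by rw [h0 y hy]; exact zero_le⟩

end GaussPAux

open GaussPAux

theorem exists_gaussP {R C ι : Type*} [CommRing R] [Field C] [Finite ι] (V : Valuation C ℤᵐ⁰)
    (Ψ : R →+* MvPowerSeries ι C)
    (hbd : ∀ P : R, ∃ M : ℤᵐ⁰, ∀ α, V (MvPowerSeries.coeff α (Ψ P)) ≤ M) :
    ∃ W : Valuation R ℤᵐ⁰, ∀ P, (∀ α, V (MvPowerSeries.coeff α (Ψ P)) ≤ W P) ∧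
      ∃ α, V (MvPowerSeries.coeff α (Ψ P)) = W P := by
  classical
  have hmax : ∀ P : R, ∃ w : ℤᵐ⁰, (∀ α, V (MvPowerSeries.coeff α (Ψ P)) ≤ w) ∧
      ∃ α, V (MvPowerSeries.coeff α (Ψ P)) = w := by
    intro P
    obtain ⟨M, hM⟩ := hbd P
    obtain ⟨m, ⟨α, hα⟩, hm⟩ := exists_max (S := Set.range fun α => V (MvPowerSeries.coeff α (Ψ P)))
      ⟨_, 0, rfl⟩ ⟨M, by rintro _ ⟨α, rfl⟩; exact hM α⟩
    exact ⟨m, fun α => hm _ ⟨α, rfl⟩, α, hα⟩
  choose W hW1 hW2 using hmax
  let _ : LinearOrder ι := linearOrderOfSTO WellOrderingRel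
  let m : MonomialOrder ι := MonomialOrder.lex
  have hmin : ∀ P : R, ∃ α, V (MvPowerSeries.coeff α (Ψ P)) = W P ∧
      ∀ β, m.toSyn β < m.toSyn α → V (MvPowerSeries.coeff β (Ψ P)) < W P := by
    intro P
    obtain ⟨α0, hα0⟩ := hW2 P
    obtain ⟨a, ha, hmina⟩ := WellFounded.has_min (wellFounded_lt (α := m.syn))
      {a : m.syn | V (MvPowerSeries.coeff (m.toSyn.symm a) (Ψ P)) = W P} ⟨m.toSyn α0, by
        show V (MvPowerSeries.coeff (m.toSyn.symm (m.toSyn α0)) (Ψ P)) = W P
        rw [AddEquiv.symm_apply_apply]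
        exact hα0⟩
    refine ⟨m.toSyn.symm a, ha, fun β hβ => ?_⟩
    rw [AddEquiv.apply_symm_apply] at hβ
    refine lt_of_le_of_ne (hW1 P β) (fun h => ?_)
    refine hmina (m.toSyn β) ?_ hβ
    show V (MvPowerSeries.coeff (m.toSyn.symm (m.toSyn β)) (Ψ P)) = W P
    rw [AddEquiv.symm_apply_apply]
    exact h
  have hle : ∀ (P : R) (w : ℤᵐ⁰), (∀ α, V (MvPowerSeries.coeff α (Ψ P)) ≤ w) → W P ≤ w := by
    intro P w h
    obtain ⟨α, hα⟩ := hW2 P
    rw [← hα]
    exact h α
  have hzero : W 0 = 0 := by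
    refine le_antisymm (hle _ _ fun α => ?_) zero_le
    rw [map_zero, map_zero, map_zero]
  have hone : W 1 = 1 := by
    refine le_antisymm (hle _ _ fun α => ?_) ?_
    · rw [map_one, MvPowerSeries.coeff_one]
      split_ifs <;> simp
    · have h1 := hW1 1 0
      rw [map_one, MvPowerSeries.coeff_one, if_pos rfl, map_one] at h1
      exact h1
  have hadd : ∀ P Q, W (P + Q) ≤ max (W P) (W Q) := by
    intro P Q
    refine hle _ _ fun α => ?_
    rw [map_add, map_add]
    exact (V.map_add _ _).trans (max_le_max (hW1 P α) (hW1 Q α))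
  have hmul : ∀ P Q, W (P * Q) = W P * W Q := by
    intro P Q
    refine le_antisymm (hle _ _ fun α => ?_) ?_
    · rw [map_mul, MvPowerSeries.coeff_mul]
      refine V.map_sum_le fun p _ => ?_
      rw [map_mul]
      exact mul_le_mul' (hW1 P _) (hW1 Q _)
    · rcases eq_or_ne (W P) 0 with hP | hP
      · rw [hP, zero_mul]
        exact zero_le
      rcases eq_or_ne (W Q) 0 with hQ | hQ
      · rw [hQ, mul_zero]
        exact zero_le
      obtain ⟨α, hα1, hα2⟩ := hmin P
      obtain ⟨β, hβ1, hβ2⟩ := hmin Q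
      have hPpos : 0 < W P := zero_lt_iff.2 hP
      have hQpos : 0 < W Q := zero_lt_iff.2 hQ
      have h1 : V (MvPowerSeries.coeff (α + β) (Ψ (P * Q))) = W P * W Q := by
        rw [map_mul, MvPowerSeries.coeff_mul]
        have hmem : (α, β) ∈ Finset.HasAntidiagonal.antidiagonal (α + β) :=
          Finset.HasAntidiagonal.mem_antidiagonal.2 rfl
        have hval : V (MvPowerSeries.coeff α (Ψ P) * MvPowerSeries.coeff β (Ψ Q)) = W P * W Q := by
          rw [map_mul, hα1, hβ1]
        rw [V.map_sum_eq_of_lt hmem (fun p hp => ?_)]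
        · exact hval
        · show V (MvPowerSeries.coeff p.1 (Ψ P) * MvPowerSeries.coeff p.2 (Ψ Q)) <
            V (MvPowerSeries.coeff α (Ψ P) * MvPowerSeries.coeff β (Ψ Q))
          rw [hval, map_mul]
          obtain ⟨hp1, hp2⟩ := Finset.mem_sdiff.1 hp
          rw [Finset.HasAntidiagonal.mem_antidiagonal] at hp1
          rw [Finset.mem_singleton] at hp2
          have hsyn : m.toSyn p.1 + m.toSyn p.2 = m.toSyn α + m.toSyn β := by
            rw [← map_add, ← map_add, hp1]
          rcases lt_trichotomy (m.toSyn p.1) (m.toSyn α) with h | h | h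
          · exact (mul_le_mul' le_rfl (hW1 Q _)).trans_lt (mul_lt_mul_of_pos_right (hα2 _ h) hQpos)
          · exfalso
            have h3 : p.1 = α := m.toSyn.injective h
            rw [h3] at hp1
            have h4 : p.2 = β := add_left_cancel hp1
            exact hp2 (Prod.ext h3 h4)
          · have h5 : m.toSyn p.2 < m.toSyn β := by
              by_contra h6
              push Not at h6
              exact absurd hsyn (ne_of_gt (add_lt_add_of_lt_of_le h h6))
            exact (mul_le_mul' (hW1 P _) le_rfl).trans_lt (mul_lt_mul_of_pos_left (hβ2 _ h5) hPpos)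
      rw [← h1]
      exact hW1 _ _
  exact ⟨{ toFun := W
           map_zero' := hzero
           map_one' := hone
           map_mul' := hmul
           map_add_le_max' := hadd }, fun P => ⟨hW1 P, hW2 P⟩⟩

end Pf72953.Fib
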