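import Mathlib
import Pool.Agent.Lib.Pf72953f.Defs

/-!
MODULE Pf72953f.Taylor: the Taylor expansion attached to commuting derivations.

PROOF.  `pd_comm`: the commutator of `pd hs i` and `pd hs j` is a derivation (`⁅D₁, D₂⁆`, Mathlib: `Derivation.commutator`) killing all
`s l`, hence zero (`der_eq_sum` in Pf72953/Coord.lean).
`exists_taylor`: the `d i` are commuting elements of the ring `Module.End B E`, so `A := Algebra.adjoin B {d i}` is a commutative
ring (`Algebra.adjoinCommRingOfComm`), let `φ : MvPolynomial ι B →ₐ A ⊆ End`, `X i ↦ d i`.  Put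
`T y := fun α => (∏ l, (α l)! : B)⁻¹ • φ (monomial α 1) y`.  (Alternative to `adjoin`: choose an order `ι ≃ Fin f` and compose the
iterates `(d l)^[α l]` in this order, using commutation.)  Then `constantCoeff (T y) = y`,
and `coeff α (pderiv i (T y)) = coeff (α + single i 1) (T y) * (α i + 1) = coeff α (T (d i y))` (`MvPowerSeries.coeff_pderiv`,
`monomial (α + single i 1) 1 = monomial α 1 * X i`, `(α i + 1)! = (α i + 1) (α i)!`).  `T` is additive and `B`-linear
coefficientwise, `T 1 = 1` and `T (x y) = T x * T y`: prove `coeff α (T (x y)) = coeff α (T x * T y)` for all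
`x`, `y` by induction on the degree of `α`: for `α = 0` take constant coefficients; for `α = α' + single i 1` multiply by
`α' i + 1 ≠ 0`: both sides are `coeff α'` of the `pderiv i`, which are `T (x * d i y + y * d i x)` and
`T x * T (d i y) + T y * T (d i x)` (`Derivation.leibniz`), and the induction hypothesis applies to the pairs `(x, d i y)`, `(y, d i x)`.
`coeff_taylor_le`: induction on the degree of `α`: `coeff (α + single i 1) (T y) * (α i + 1) = coeff α (T (d i y))`, and
`v (α i + 1) = 1`, `v (d i y) ≤ v y`.
-/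

set_option autoImplicit false

open scoped WithZero

namespace Pf72953.Fib

variable {B E ι : Type*} [Field B] [CharZero B] [Field E] [Algebra B E] [Fintype ι]

theorem pd_comm {s : ι → E} (hs : IsTranscendenceBasis B s) (i j : ι) (y : E) :
    pd hs i (pd hs j y) = pd hs j (pd hs i y) := by
  classical
  have h1 := der_eq_sum hs ⁅pd hs i, pd hs j⁆ y
  have h2 : ∀ l, ⁅pd hs i, pd hs j⁆ (s l) = 0 := by
    intro l
    rw [Derivation.commutator_apply, pd_self, pd_self]
    have h3 : ∀ (D : Derivation B E E) (p : Prop) [Decidable p], D (if p then 1 else 0) = 0 := by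
      intro D p _
      split_ifs <;> simp
    rw [h3, h3, sub_zero]
  rw [Finset.sum_eq_zero (fun l _ => by rw [h2 l, mul_zero]), Derivation.commutator_apply] at h1
  exact sub_eq_zero.1 h1

namespace TaylorAux

open MvPowerSeries

/-- iterated commuting endomorphisms -/
theorem exists_iter {M : Type*} [AddCommGroup M] [Module B M] (d : ι → Module.End B M)
    (hd : ∀ i j, d i * d j = d j * d i) :
    ∃ F : (ι →₀ ℕ) → Module.End B M, F 0 = 1 ∧
      ∀ α i, F (α + Finsupp.single i 1) = F α * d i := by
  classical
  set S : Set (Module.End B M) := Set.range d with hS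
  have hcomm : ∀ a ∈ S, ∀ b ∈ S, a * b = b * a := by
    rintro _ ⟨i, rfl⟩ _ ⟨j, rfl⟩
    exact hd i j
  letI : CommRing (Algebra.adjoin B S) := Algebra.adjoinCommRingOfComm B hcomm
  let φ : MvPolynomial ι B →ₐ[B] Algebra.adjoin B S :=
    MvPolynomial.aeval (fun i => (⟨d i, Algebra.subset_adjoin ⟨i, rfl⟩⟩ : Algebra.adjoin B S))
  refine ⟨fun α => (φ (MvPolynomial.monomial α 1) : Module.End B M), ?_, ?_⟩
  · have h1 : MvPolynomial.monomial (0 : ι →₀ ℕ) (1 : B) = 1 := rfl
    simp only [h1, map_one]
    rfl
  · intro α i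
    have h1 : MvPolynomial.monomial (α + Finsupp.single i 1) (1 : B) =
        MvPolynomial.monomial α 1 * MvPolynomial.X i := by
      rw [MvPolynomial.X, MvPolynomial.monomial_mul, one_mul]
    simp only [h1, map_mul]
    have h2 : φ (MvPolynomial.X i) = (⟨d i, Algebra.subset_adjoin ⟨i, rfl⟩⟩ : Algebra.adjoin B S) :=
      MvPolynomial.aeval_X _ _
    rw [h2]
    rfl

end TaylorAux

open TaylorAux

theorem exists_taylor (d : ι → Derivation B E E) (hd : ∀ i j y, d i (d j y) = d j (d i y)) :
    ∃ T : E →ₐ[B] MvPowerSeries ι E, (∀ y, MvPowerSeries.constantCoeff (T y) = y) ∧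
      ∀ i y, MvPowerSeries.pderiv E i (T y) = T (d i y) := by
  classical
  haveI : CharZero E := charZero_of_injective_algebraMap (algebraMap B E).injective
  obtain ⟨F, hF0, hF⟩ := exists_iter (B := B) (fun i => (d i : E →ₗ[B] E)) (fun i j => by
    ext y
    exact hd i j y)
  have hF1 : ∀ α i y, F (α + Finsupp.single i 1) y = F α (d i y) := by
    intro α i y
    rw [hF]
    rfl
  let c : (ι →₀ ℕ) → E := fun α => (∏ l, ((α l).factorial : E))⁻¹
  have hc0 : c 0 = 1 := by simp [c]
  have hc : ∀ α i, c (α + Finsupp.single i 1) * ((α i : E) + 1) = c α := by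
    intro α i
    have h1 : ∏ l, (((α + Finsupp.single i 1 : ι →₀ ℕ) l).factorial : E) =
        (∏ l, ((α l).factorial : E)) * ((α i : E) + 1) := by
      have h2 : ∀ l, (((α + Finsupp.single i 1 : ι →₀ ℕ) l).factorial : E) =
          ((α l).factorial : E) * (if l = i then ((α i : E) + 1) else 1) := by
        intro l
        by_cases h : l = i
        · subst h
          rw [if_pos rfl, Finsupp.add_apply, Finsupp.single_eq_same, Nat.factorial_succ]
          push_cast
          ring
        · rw [if_neg h, Finsupp.add_apply, Finsupp.single_eq_of_ne h, add_zero, mul_one]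
      rw [Finset.prod_congr rfl (fun l _ => h2 l), Finset.prod_mul_distrib, Finset.prod_ite_eq']
      simp
    have h3 : ((α i : E) + 1) ≠ 0 := by exact_mod_cast Nat.succ_ne_zero (α i)
    simp only [c]
    rw [h1, mul_inv, mul_assoc, inv_mul_cancel₀ h3, mul_one]
  let T0 : E → MvPowerSeries ι E := fun y α => c α * F α y
  have hT0c : ∀ α y, MvPowerSeries.coeff α (T0 y) = c α * F α y := fun α y => rfl
  have hconst : ∀ y, MvPowerSeries.constantCoeff (T0 y) = y := by
    intro y
    rw [← MvPowerSeries.coeff_zero_eq_constantCoeff_apply, hT0c, hc0, hF0, one_mul]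
    rfl
  have hpd : ∀ i y, MvPowerSeries.pderiv E i (T0 y) = T0 (d i y) := by
    intro i y
    ext α
    rw [MvPowerSeries.coeff_pderiv, hT0c, hT0c, hF1, ← hc α i]
    ring
  have hadd : ∀ x y, T0 (x + y) = T0 x + T0 y := by
    intro x y
    ext α
    rw [map_add, hT0c, hT0c, hT0c, map_add, mul_add]
  have hsmul : ∀ (b : B) x, T0 (b • x) = b • T0 x := by
    intro b x
    ext α
    have h1 : MvPowerSeries.coeff α (b • T0 x) = b • MvPowerSeries.coeff α (T0 x) := rfl
    rw [h1, hT0c, hT0c, map_smul, mul_smul_comm]
  have hzero : T0 0 = 0 := by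
    have := hsmul 0 0
    simpa using this
  have hone : T0 1 = 1 := by
    refine MvPowerSeries.pderiv.ext (fun i => ?_) ?_
    · rw [hpd, Derivation.map_one_eq_zero, hzero, Derivation.map_one_eq_zero]
    · rw [hconst, map_one]
  have hmul : ∀ n : ℕ, ∀ α : ι →₀ ℕ, α.degree = n → ∀ x y,
      MvPowerSeries.coeff α (T0 (x * y)) = MvPowerSeries.coeff α (T0 x * T0 y) := by
    intro n
    induction n with
    | zero =>
      intro α hα x y
      have h1 : α = 0 := (Finsupp.degree_eq_zero_iff α).1 hα
      subst h1
      rw [MvPowerSeries.coeff_zero_eq_constantCoeff_apply, MvPowerSeries.coeff_zero_eq_constantCoeff_apply,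
        map_mul, hconst, hconst, hconst]
    | succ n ih =>
      intro α hα x y
      have h1 : α ≠ 0 := by
        rintro rfl
        simp at hα
      obtain ⟨i, hi⟩ := Finsupp.ne_iff.1 h1
      rw [Finsupp.zero_apply] at hi
      obtain ⟨β, rfl⟩ : ∃ β, α = β + Finsupp.single i 1 := by
        refine ⟨α - Finsupp.single i 1, ?_⟩
        refine (tsub_add_cancel_of_le ?_).symm
        rw [Finsupp.single_le_iff]
        omega
      have h2 : β.degree = n := by
        rw [map_add, Finsupp.degree_single] at hα
        omega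
      have h3 : ((β i : E) + 1) ≠ 0 := by exact_mod_cast Nat.succ_ne_zero (β i)
      apply mul_right_cancel₀ h3
      rw [← MvPowerSeries.coeff_pderiv, ← MvPowerSeries.coeff_pderiv, hpd, Derivation.leibniz,
        Derivation.leibniz, hpd, hpd, smul_eq_mul, smul_eq_mul, smul_eq_mul, smul_eq_mul, hadd, map_add,
        map_add, ih β h2, ih β h2]
  refine ⟨AlgHom.ofLinearMap
    { toFun := T0
      map_add' := hadd
      map_smul' := hsmul } hone (fun x y => ?_), hconst, hpd⟩
  ext α
  exact hmul _ α rfl x y

end Pf72953.Fib
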