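import Mathlib
import Pool.Agent.Lib.Pf72953f.Taylor
import Pool.Agent.Lib.Pf72953f.Lin

/-!
MODULE Pf72953f.Psi: the Taylor embedding of `C ⊗_B E` in the power series over `C`, for a field `C` containing `E`.

PROOF.  Let `T` be the Taylor map of `d l := pd hs l` (`pd_comm`, `exists_taylor`), and
`Ψ := Algebra.TensorProduct.lift (Algebra.ofId C _) ((MvPowerSeries.map j) ∘ T) _`, `c ⊗ y ↦ C c * map j (T y)` (the second map is
a `B`-algebra homomorphism).  The two formulas are clear (`pderiv` commutes with `map`: compare coefficients,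
`MvPowerSeries.coeff_pderiv`).  In particular `Ψ (1 ⊗ s l) = C (j (s l)) + X l`, by `MvPowerSeries.pderiv.ext` (`pd_self`,
`MvPowerSeries.pderiv_X`).
Injectivity: `MvPowerSeries ι C` is a domain; let `Ω` be its field of fractions, `Algebra C Ω`, `Algebra E Ω` given by `y ↦ map j (T y)`
(ring homomorphism composed with `algebraMap`), `IsScalarTower B C Ω`, `IsScalarTower B E Ω`.  The elements
`map j (T (s l)) = C (j (s l)) + X l` are algebraically independent over `C` (the images of the variables under the
automorphism `X l ↦ X l + C (j (s l))` of `MvPolynomial ι C`, composed with the injections `MvPolynomial ι C → MvPowerSeries ι C → Ω`).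
So by `linInd_right` (`L := Ω`) the images of `B`-independent elements of `E` are `C`-independent in `Ω`.  Every element of
`C ⊗ E` is `∑_a c_a ⊗ e_a` with `e_a` a basis of `E/B` (`Algebra.TensorProduct.basis`), so `Ψ` is injective.
-/

set_option autoImplicit false

open scoped WithZero TensorProduct

namespace Pf72953.Fib

variable {B C E ι : Type*} [Field B] [CharZero B] [Field C] [CharZero C] [Field E] [Algebra B C]
  [Algebra B E] [Fintype ι]

namespace PsiAux

omit [Field B] [CharZero B] [CharZero C] [Field E] [Algebra B C] [Algebra B E] [Fintype ι] in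
theorem shift_indep (a : ι → C) :
    AlgebraicIndependent C (fun l => (MvPowerSeries.C (a l) + MvPowerSeries.X l :
      MvPowerSeries ι C)) := by
  let f : MvPolynomial ι C →ₐ[C] MvPolynomial ι C :=
    MvPolynomial.aeval fun l => MvPolynomial.C (a l) + MvPolynomial.X l
  let g : MvPolynomial ι C →ₐ[C] MvPolynomial ι C :=
    MvPolynomial.aeval fun l => MvPolynomial.X l - MvPolynomial.C (a l)
  have hgf : g.comp f = AlgHom.id C _ := by
    apply MvPolynomial.algHom_ext
    intro l
    simp [f, g, MvPolynomial.algebraMap_eq]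
  have hf : Function.Injective f := by
    intro x y hxy
    have h1 := congrArg g hxy
    have h2 : ∀ z, g (f z) = z := fun z => by
      have := congrArg (fun φ : MvPolynomial ι C →ₐ[C] MvPolynomial ι C => φ z) hgf
      simpa using this
    rwa [h2, h2] at h1
  have hcomp : MvPolynomial.aeval (fun l => (MvPowerSeries.C (a l) + MvPowerSeries.X l :
      MvPowerSeries ι C)) = (MvPolynomial.coeToMvPowerSeries.algHom C).comp f := by
    apply MvPolynomial.algHom_ext
    intro l
    simp [f]
  unfold AlgebraicIndependent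
  rw [hcomp, AlgHom.coe_comp]
  refine Function.Injective.comp ?_ hf
  intro x y hxy
  have h1 : ((x : MvPowerSeries ι C)) = y := by
    have hx : (MvPolynomial.coeToMvPowerSeries.algHom C x : MvPowerSeries ι C) = x := by simp
    have hy : (MvPolynomial.coeToMvPowerSeries.algHom C y : MvPowerSeries ι C) = y := by simp
    rwa [hx, hy] at hxy
  exact MvPolynomial.coe_injective ι C h1

/-- the second half of `Ψ` -/
noncomputable def gg (j : E →ₐ[B] C) (T : E →ₐ[B] MvPowerSeries ι E) :
    E →ₐ[B] MvPowerSeries ι C where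
  toRingHom := (MvPowerSeries.map (j : E →+* C)).comp (T : E →+* MvPowerSeries ι E)
  commutes' b := by
    change MvPowerSeries.map (j : E →+* C) (T (algebraMap B E b)) = _
    rw [AlgHom.commutes, MvPowerSeries.algebraMap_apply, MvPowerSeries.algebraMap_apply,
      MvPowerSeries.map_C]
    congr 1
    exact j.commutes b

omit [CharZero B] [CharZero C] [Fintype ι] in
theorem gg_apply (j : E →ₐ[B] C) (T : E →ₐ[B] MvPowerSeries ι E) (y : E) :
    gg j T y = MvPowerSeries.map (j : E →+* C) (T y) := rfl

end PsiAux

open PsiAux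

theorem exists_psi (hE : ClosedIn B E) {s : ι → E} (hs : IsTranscendenceBasis B s)
    (j : E →ₐ[B] C) : ∃ Ψ : C ⊗[B] E →ₐ[C] MvPowerSeries ι C, Function.Injective Ψ ∧
      (∀ y, MvPowerSeries.constantCoeff (Ψ (1 ⊗ₜ y)) = j y) ∧
      (∀ l y, MvPowerSeries.pderiv C l (Ψ (1 ⊗ₜ y)) = Ψ (1 ⊗ₜ pd hs l y)) := by
  classical
  obtain ⟨T, hT0, hTd⟩ := exists_taylor (fun l => pd hs l) (fun i j y => pd_comm hs i j y)
  let Ψ : C ⊗[B] E →ₐ[C] MvPowerSeries ι C := Algebra.TensorProduct.lift
    (Algebra.ofId C (MvPowerSeries ι C)) (gg j T) (fun _ _ => Commute.all _ _)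
  have hΨ : ∀ y, Ψ (1 ⊗ₜ y) = gg j T y := by
    intro y
    simp [Ψ]
  have hc : ∀ y, MvPowerSeries.constantCoeff (gg j T y) = j y := by
    intro y
    rw [gg_apply, ← MvPowerSeries.coeff_zero_eq_constantCoeff_apply, MvPowerSeries.coeff_map,
      MvPowerSeries.coeff_zero_eq_constantCoeff_apply, hT0]
    rfl
  have hd : ∀ l y, MvPowerSeries.pderiv C l (gg j T y) = gg j T (pd hs l y) := by
    intro l y
    rw [gg_apply, gg_apply, ← hTd]
    ext n
    rw [MvPowerSeries.coeff_pderiv, MvPowerSeries.coeff_map, MvPowerSeries.coeff_map,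
      MvPowerSeries.coeff_pderiv, map_mul, map_add, map_natCast, map_one]
  refine ⟨Ψ, ?_, fun y => by rw [hΨ, hc], fun l y => by rw [hΨ, hΨ, hd]⟩
  -- the images of the transcendence basis
  have hsl : ∀ l, gg j T (s l) = MvPowerSeries.C (j (s l)) + MvPowerSeries.X l := by
    intro l
    refine MvPowerSeries.pderiv.ext (fun i => ?_) ?_
    · rw [hd, map_add, MvPowerSeries.pderiv_X, MvPowerSeries.pderiv_C, zero_add, pd_self]
      by_cases h : i = l
      · subst h
        simp
      · rw [if_neg h, map_zero]
        simp [h]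
    · rw [hc]
      simp
  let Ω := FractionRing (MvPowerSeries ι C)
  let algE : Algebra E Ω :=
    ((algebraMap (MvPowerSeries ι C) Ω).comp (gg j T : E →+* MvPowerSeries ι C)).toAlgebra
  have hEΩ : ∀ y, algebraMap E Ω y = algebraMap (MvPowerSeries ι C) Ω (gg j T y) := fun y => rfl
  have : IsScalarTower B E Ω := IsScalarTower.of_algebraMap_eq fun b => by
    rw [hEΩ, AlgHom.commutes, ← IsScalarTower.algebraMap_apply]
  have hinj : Function.Injective (algebraMap (MvPowerSeries ι C) Ω) := IsFractionRing.injective _ _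
  have hsL : AlgebraicIndependent C (fun i => algebraMap E Ω (s i)) := by
    have h1 := (shift_indep (C := C) (fun l => j (s l))).map'
      (f := IsScalarTower.toAlgHom C (MvPowerSeries ι C) Ω) hinj
    have h2 : (fun i => algebraMap E Ω (s i)) = (IsScalarTower.toAlgHom C (MvPowerSeries ι C) Ω) ∘
        (fun l => (MvPowerSeries.C (j (s l)) + MvPowerSeries.X l : MvPowerSeries ι C)) := by
      funext i
      rw [hEΩ, hsl]
      rfl
    rw [h2]
    exact h1
  let bE := Module.Basis.ofVectorSpace B E
  have hli := linInd_right (C := C) (L := Ω) hE hs hsL bE.linearIndependent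
  let bT := Algebra.TensorProduct.basis C bE
  let F : C ⊗[B] E →ₗ[C] Ω :=
    (IsScalarTower.toAlgHom C (MvPowerSeries ι C) Ω).toLinearMap ∘ₗ Ψ.toLinearMap
  have hFb : ∀ a, F (bT a) = algebraMap E Ω (bE a) := by
    intro a
    have h1 : bT a = 1 ⊗ₜ bE a := Algebra.TensorProduct.basis_apply bE a
    rw [h1, hEΩ, ← hΨ]
    rfl
  have hF : Function.Injective F := by
    rw [← LinearMap.ker_eq_bot, LinearMap.ker_eq_bot']
    intro x hx
    have h1 : Finsupp.linearCombination C (fun a => algebraMap E Ω (bE a)) (bT.repr x) = 0 := by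
      rw [← hx]
      conv_rhs => rw [← bT.linearCombination_repr x]
      rw [Finsupp.linearCombination_apply, Finsupp.linearCombination_apply, map_finsuppSum]
      refine Finsupp.sum_congr fun a _ => ?_
      rw [map_smul, hFb]
    have h2 := (linearIndependent_iff.1 hli) _ h1
    exact bT.repr.map_eq_zero_iff.1 h2
  intro x y hxy
  apply hF
  change algebraMap (MvPowerSeries ι C) Ω (Ψ x) = algebraMap (MvPowerSeries ι C) Ω (Ψ y)
  rw [hxy]

end Pf72953.Fib
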