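import Mathlib
import Pool.Agent.Lib.Pf72953f.Defs

/-!
MODULE Pf72953f.PsiB: the coefficients of Taylor expansions.

PROOF.  `psi_s`: by `MvPowerSeries.pderiv.ext`, `pd_self`, `MvPowerSeries.pderiv_X`, `Ψ (1 ⊗ 1) = 1`, `Ψ (1 ⊗ 0) = 0`.
`psi_coeff_le`: for `P = 1 ⊗ y` induction on the degree of `α`:
`coeff (α + single l 1) (Ψ (1 ⊗ y)) * (α l + 1) = coeff α (Ψ (1 ⊗ pd hs l y))`, `V (α l + 1) = 1`.
-/

set_option autoImplicit false

open scoped WithZero TensorProduct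

namespace Pf72953.Fib

variable {B C E ι : Type*} [Field B] [CharZero B] [Field C] [CharZero C] [Field E] [Algebra B C]
  [Algebra B E] [Fintype ι]

theorem psi_s {s : ι → E} {hs : IsTranscendenceBasis B s} {j : E →ₐ[B] C}
    {Ψ : C ⊗[B] E →ₐ[C] MvPowerSeries ι C}
    (h1 : ∀ y, MvPowerSeries.constantCoeff (Ψ (1 ⊗ₜ y)) = j y)
    (h2 : ∀ l y, MvPowerSeries.pderiv C l (Ψ (1 ⊗ₜ y)) = Ψ (1 ⊗ₜ pd hs l y)) (l : ι) :
    Ψ (1 ⊗ₜ s l) = MvPowerSeries.C (j (s l)) + MvPowerSeries.X l := by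
  classical
  apply MvPowerSeries.pderiv.ext
  · intro i
    rw [h2, pd_self, map_add, MvPowerSeries.pderiv_C, zero_add]
    by_cases h : l = i
    · subst h
      rw [MvPowerSeries.pderiv_X_self]
      simp [← Algebra.TensorProduct.one_def]
    · rw [MvPowerSeries.pderiv_X_of_ne h]
      have h' : i ≠ l := fun e => h e.symm
      simp [h']
  · rw [h1, map_add, MvPowerSeries.constantCoeff_C, MvPowerSeries.constantCoeff_X, add_zero]

theorem psi_coeff_le {s : ι → E} {hs : IsTranscendenceBasis B s} {j : E →ₐ[B] C}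
    {Ψ : C ⊗[B] E →ₐ[C] MvPowerSeries ι C}
    (h1 : ∀ y, MvPowerSeries.constantCoeff (Ψ (1 ⊗ₜ y)) = j y)
    (h2 : ∀ l y, MvPowerSeries.pderiv C l (Ψ (1 ⊗ₜ y)) = Ψ (1 ⊗ₜ pd hs l y))
    {V : Valuation C ℤᵐ⁰} (hVd : ∀ l y, V (j (pd hs l y)) ≤ V (j y))
    (hnat : ∀ n : ℕ, n ≠ 0 → V (n : C) = 1) (y : E) (α : ι →₀ ℕ) :
    V (MvPowerSeries.coeff α (Ψ (1 ⊗ₜ y))) ≤ V (j y) := by
  classical
  induction hn : α.degree generalizing α y with
  | zero =>
    have h0 : α = 0 := by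
      rwa [Finsupp.degree_eq_zero_iff] at hn
    subst h0
    rw [MvPowerSeries.coeff_zero_eq_constantCoeff, h1]
  | succ n ih =>
    have hne : α ≠ 0 := by
      rintro rfl
      simp at hn
    obtain ⟨l, hl⟩ : ∃ l, α l ≠ 0 := by
      by_contra hc
      push Not at hc
      exact hne (Finsupp.ext hc)
    have hle : Finsupp.single l 1 ≤ α := by
      rw [Finsupp.single_le_iff]
      omega
    obtain ⟨β, hβ⟩ : ∃ β : ι →₀ ℕ, α = β + Finsupp.single l 1 :=
      ⟨α - Finsupp.single l 1, (tsub_add_cancel_of_le hle).symm⟩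
    subst hβ
    have hdeg : β.degree = n := by
      rw [map_add, Finsupp.degree_single] at hn
      omega
    have h3 := MvPowerSeries.coeff_pderiv (R := C) (i := l) (Ψ (1 ⊗ₜ y)) β
    rw [h2] at h3
    have h4 := congrArg V h3
    have h5 : V ((β l : C) + 1) = 1 := by
      have := hnat (β l + 1) (Nat.succ_ne_zero _)
      rwa [Nat.cast_add, Nat.cast_one] at this
    rw [map_mul, h5, mul_one] at h4
    rw [← h4]
    exact (ih (pd hs l y) β hdeg).trans (hVd l y)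

end Pf72953.Fib
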