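import Mathlib
import Pool.Agent.Lib.Pf72953f.Psi
import Pool.Agent.Lib.Pf72953f.GaussP
import Pool.Agent.Lib.Pf72953f.PsiB
import Pool.Agent.Lib.Pf72953f.ExtV
import Pool.Agent.Lib.Pf72953f.CompL

/-!
MODULE Pf72953f.TStep: the valuation on a fibre product restricting to given valuations on the factors.

Here `C` and `E` are algebraically independent subfields of `L`, and `j` is another embedding of `E` in `C`.
PROOF.  Let `Ψ` be as in `exists_psi`.  For `P = ∑_a c_a ⊗ y_a` all coefficients of `Ψ P = ∑_a c_a • Ψ (1 ⊗ y_a)` have value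
`≤ max_a V (c_a) * V (j y_a)` (`psi_coeff_le`; every tensor is such a sum: `TensorProduct.induction_on`).  Let `W₀` be the valuation
of `exists_gaussP`; `W₀ P ≠ 0` for `P ≠ 0` as `Ψ P ≠ 0` has a nonzero coefficient; `W` from `exists_ext` for
`pmap B C E L` (`Comp.inj`, `Comp.frac`).
(1) `W c = V c`: `Ψ (c ⊗ 1) = C c`.
(2) `W y = V (j y)`: the constant coefficient of `Ψ (1 ⊗ y)` is `j y`, the others are not larger.
(3) the constant coefficient of `Ψ (∑ c_a ⊗ y_a)` is `∑ c_a * j y_a`.
(4) `W (pmap p / pmap q) = V c / V c' = V (c / c')`, where `V c`, `V c'` are the values of two coefficients.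
(5) Gauss: let `p : MvPolynomial ι C`, `q := aeval (fun l => C (j (s l)) + X l) p`, so
`p = aeval (fun l => X l - C (j (s l))) q`; since `V (j (s l)) ≤ 1`, every coefficient of `p` is an integral combination of coefficients of
`q` with factors of value `≤ 1`, so `V (coeff β p) ≤ max_α V (coeff α q)` (induction on `q`, or: the set of polynomials with
all coefficients of value `≤ M` is stable under this substitution).  And `Ψ (aeval (1 ⊗ s) p) = q` as a power
series (`psi_s`), so `V (coeff α q) ≤ W (aeval s p)`.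
-/

set_option autoImplicit false

open scoped WithZero TensorProduct

namespace Pf72953.Fib

namespace TStepAux

/-- a product of polynomials with bounded coefficients -/
theorem bd_mul {C ι : Type*} [Field C] {V : Valuation C ℤᵐ⁰} {p q : MvPolynomial ι C}
    {M N : ℤᵐ⁰} (hp : ∀ α, V (MvPolynomial.coeff α p) ≤ M)
    (hq : ∀ α, V (MvPolynomial.coeff α q) ≤ N) (α : ι →₀ ℕ) :
    V (MvPolynomial.coeff α (p * q)) ≤ M * N := by
  classical
  rw [MvPolynomial.coeff_mul]
  refine Valuation.map_sum_le V fun x _ => ?_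
  rw [map_mul]
  exact mul_le_mul' (hp _) (hq _)

/-- powers -/
theorem bd_pow {C ι : Type*} [Field C] {V : Valuation C ℤᵐ⁰} {p : MvPolynomial ι C}
    (hp : ∀ α, V (MvPolynomial.coeff α p) ≤ 1) (n : ℕ) (α : ι →₀ ℕ) :
    V (MvPolynomial.coeff α (p ^ n)) ≤ 1 := by
  classical
  induction n generalizing α with
  | zero =>
    rw [pow_zero, MvPolynomial.coeff_one]
    split_ifs <;> simp
  | succ n ih =>
    rw [pow_succ]
    have := bd_mul ih hp α
    rwa [one_mul] at this

/-- products -/
theorem bd_prod {C ι κ : Type*} [Field C] {V : Valuation C ℤᵐ⁰} (t : Finset κ)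
    (f : κ → MvPolynomial ι C) (hf : ∀ k α, V (MvPolynomial.coeff α (f k)) ≤ 1) (α : ι →₀ ℕ) :
    V (MvPolynomial.coeff α (∏ k ∈ t, f k)) ≤ 1 := by
  classical
  induction t using Finset.induction_on generalizing α with
  | empty =>
    rw [Finset.prod_empty, MvPolynomial.coeff_one]
    split_ifs <;> simp
  | insert k t hk ih =>
    rw [Finset.prod_insert hk]
    have := bd_mul (hf k) ih α
    rwa [one_mul] at this

/-- an integral translation does not enlarge the coefficients -/
theorem bd_aeval {C ι : Type*} [Field C] {V : Valuation C ℤᵐ⁰} {a : ι → C}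
    (ha : ∀ l, V (a l) ≤ 1) {q : MvPolynomial ι C} {M : ℤᵐ⁰}
    (hq : ∀ α, V (MvPolynomial.coeff α q) ≤ M) (α : ι →₀ ℕ) :
    V (MvPolynomial.coeff α (MvPolynomial.aeval
      (fun l => (MvPolynomial.X l - MvPolynomial.C (a l) : MvPolynomial ι C)) q)) ≤ M := by
  classical
  rw [MvPolynomial.aeval_def, MvPolynomial.eval₂_eq, MvPolynomial.coeff_sum]
  refine Valuation.map_sum_le V fun d _ => ?_
  rw [MvPolynomial.algebraMap_eq, MvPolynomial.coeff_C_mul, map_mul]
  have h1 : V (MvPolynomial.coeff α (∏ i ∈ d.support,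
      (MvPolynomial.X i - MvPolynomial.C (a i) : MvPolynomial ι C) ^ d i)) ≤ 1 := by
    refine bd_prod _ _ (fun k β => bd_pow (fun γ => ?_) _ β) α
    rw [MvPolynomial.coeff_sub]
    refine (V.map_sub _ _).trans (max_le ?_ ?_)
    · rw [MvPolynomial.coeff_X]
      split_ifs <;> simp
    · rw [MvPolynomial.coeff_C]
      split_ifs
      · exact ha k
      · simp
  calc V (MvPolynomial.coeff d q) * _ ≤ M * 1 := mul_le_mul' (hq d) h1
    _ = M := mul_one M

/-- the coefficients of a polynomial are bounded by those of a translate -/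
theorem coeff_le {C ι : Type*} [Field C] {V : Valuation C ℤᵐ⁰} {a : ι → C}
    (ha : ∀ l, V (a l) ≤ 1) {p : MvPolynomial ι C} {M : ℤᵐ⁰}
    (hq : ∀ α, V (MvPolynomial.coeff α (MvPolynomial.aeval
      (fun l => (MvPolynomial.C (a l) + MvPolynomial.X l : MvPolynomial ι C)) p)) ≤ M)
    (α : ι →₀ ℕ) : V (MvPolynomial.coeff α p) ≤ M := by
  have h1 := bd_aeval ha hq α
  have h2 : MvPolynomial.aeval
      (fun l => (MvPolynomial.X l - MvPolynomial.C (a l) : MvPolynomial ι C))
      (MvPolynomial.aeval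
      (fun l => (MvPolynomial.C (a l) + MvPolynomial.X l : MvPolynomial ι C)) p) = p := by
    have h3 : (MvPolynomial.aeval
      (fun l => (MvPolynomial.X l - MvPolynomial.C (a l) : MvPolynomial ι C))).comp
      (MvPolynomial.aeval
      (fun l => (MvPolynomial.C (a l) + MvPolynomial.X l : MvPolynomial ι C)))
        = AlgHom.id C (MvPolynomial ι C) := by
      apply MvPolynomial.algHom_ext
      intro l
      simp [← MvPolynomial.algebraMap_eq]
    exact congrArg (fun f => f p) h3
  rwa [h2] at h1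

end TStepAux

open TStepAux in
theorem Comp.exists_step {B C E L ι : Type*} [Field B] [CharZero B] [Field C] [CharZero C]
    [Field E] [Field L] [Algebra B C] [Algebra B E] [Algebra B L] [Algebra C L] [Algebra E L]
    [IsScalarTower B C L] [IsScalarTower B E L] [Fintype ι] [Algebra.EssFiniteType B L]
    (h : Comp B C E L) (hE : ClosedIn B E) {s : ι → E} (hs : IsTranscendenceBasis B s)
    (j : E →ₐ[B] C) {V : Valuation C ℤᵐ⁰} (hVd : ∀ l y, V (j (pd hs l y)) ≤ V (j y))
    (hnat : ∀ n : ℕ, n ≠ 0 → V (n : C) = 1) (hs1 : ∀ l, V (j (s l)) ≤ 1) :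
    ∃ W : Valuation L ℤᵐ⁰, (∀ c, W (algebraMap C L c) = V c) ∧
      (∀ y : E, W (algebraMap E L y) = V (j y)) ∧
      (∀ (n : ℕ) (c : Fin n → C) (y : Fin n → E),
        V (∑ a, c a * j (y a)) ≤ W (∑ a, algebraMap C L (c a) * algebraMap E L (y a))) ∧
      (∀ z : L, ∃ c : C, W z = V c) ∧ Gauss C W (fun l => algebraMap E L (s l)) := by
  classical
  obtain ⟨Ψ, hΨinj, h1, h2⟩ := exists_psi hE hs j
  have hb1 : ∀ (y : E) (α : ι →₀ ℕ), V (MvPowerSeries.coeff α (Ψ (1 ⊗ₜ y))) ≤ V (j y) :=
    fun y α => psi_coeff_le h1 h2 hVd hnat y α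
  have htm : ∀ (c : C) (y : E), Ψ (c ⊗ₜ y) = c • Ψ (1 ⊗ₜ y) := by
    intro c y
    rw [← map_smul, TensorProduct.smul_tmul', smul_eq_mul, mul_one]
  have hbd : ∀ P : C ⊗[B] E, ∃ M : ℤᵐ⁰, ∀ α,
      V (MvPowerSeries.coeff α ((Ψ : C ⊗[B] E →+* MvPowerSeries ι C) P)) ≤ M := by
    intro P
    induction P using TensorProduct.induction_on with
    | zero => exact ⟨0, fun α => by simp⟩
    | tmul c y =>
      refine ⟨V c * V (j y), fun α => ?_⟩
      rw [RingHom.coe_coe, htm, MvPowerSeries.coeff_smul, map_mul]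
      exact mul_le_mul' le_rfl (hb1 y α)
    | add x y hx hy =>
      obtain ⟨M, hM⟩ := hx
      obtain ⟨N, hN⟩ := hy
      refine ⟨max M N, fun α => ?_⟩
      rw [map_add, map_add]
      exact (V.map_add _ _).trans (max_le_max (hM α) (hN α))
  obtain ⟨W0, hW0⟩ := exists_gaussP V (Ψ : C ⊗[B] E →+* MvPowerSeries ι C) hbd
  have hW0le : ∀ P α, V (MvPowerSeries.coeff α (Ψ P)) ≤ W0 P := fun P α => (hW0 P).1 α
  have hW0ex : ∀ P, ∃ α, V (MvPowerSeries.coeff α (Ψ P)) = W0 P := fun P => (hW0 P).2
  have hne : ∀ p, p ≠ 0 → W0 p ≠ 0 := by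
    intro p hp h0
    apply hp
    apply hΨinj
    rw [map_zero]
    ext α
    have := hW0le p α
    rw [h0, le_zero_iff, map_eq_zero] at this
    rw [this, map_zero]
  have hinj : Function.Injective (pmap B C E L) := h.inj hE hs
  obtain ⟨W, hW⟩ := exists_ext (pmap B C E L : C ⊗[B] E →+* L) hinj h.frac W0 hne
  have hW' : ∀ p, W (pmap B C E L p) = W0 p := hW
  have hct : ∀ c : C, pmap B C E L (c ⊗ₜ 1) = algebraMap C L c := by
    intro c
    rw [pmap_tmul, map_one, mul_one]
  have het : ∀ y : E, pmap B C E L (1 ⊗ₜ y) = algebraMap E L y := by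
    intro y
    rw [pmap_tmul, map_one, one_mul]
  have hΨc : ∀ c : C, Ψ (c ⊗ₜ 1) = MvPowerSeries.C c := by
    intro c
    rw [htm, ← Algebra.TensorProduct.one_def, map_one, MvPowerSeries.smul_eq_C_mul, mul_one]
  have hc : ∀ c, W (algebraMap C L c) = V c := by
    intro c
    rw [← hct c, hW']
    apply le_antisymm
    · obtain ⟨α, hα⟩ := hW0ex (c ⊗ₜ 1)
      rw [← hα, hΨc, MvPowerSeries.coeff_C]
      split_ifs
      · exact le_rfl
      · simp
    · have := hW0le (c ⊗ₜ 1) 0
      rw [hΨc, MvPowerSeries.coeff_zero_C] at this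
      exact this
  have hy : ∀ y : E, W (algebraMap E L y) = V (j y) := by
    intro y
    rw [← het y, hW']
    apply le_antisymm
    · obtain ⟨α, hα⟩ := hW0ex (1 ⊗ₜ y)
      rw [← hα]
      exact hb1 y α
    · have := hW0le (1 ⊗ₜ y) 0
      rw [MvPowerSeries.coeff_zero_eq_constantCoeff_apply, h1] at this
      exact this
  refine ⟨W, hc, hy, ?_, ?_, ?_⟩
  · intro n c y
    have e1 : (∑ a, algebraMap C L (c a) * algebraMap E L (y a))
        = pmap B C E L (∑ a, c a ⊗ₜ y a) := by
      rw [map_sum]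
      exact Finset.sum_congr rfl fun a _ => (pmap_tmul B C E L _ _).symm
    rw [e1, hW']
    have := hW0le (∑ a, c a ⊗ₜ y a) 0
    refine le_of_eq_of_le ?_ this
    congr 1
    rw [map_sum, map_sum]
    refine Finset.sum_congr rfl fun a _ => ?_
    rw [htm, MvPowerSeries.coeff_smul, MvPowerSeries.coeff_zero_eq_constantCoeff_apply, h1]
  · intro z
    obtain ⟨p, q, hq, rfl⟩ := h.frac z
    obtain ⟨α, hα⟩ := hW0ex p
    obtain ⟨β, hβ⟩ := hW0ex q
    refine ⟨MvPowerSeries.coeff α (Ψ p) / MvPowerSeries.coeff β (Ψ q), ?_⟩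
    rw [map_div₀, map_div₀, hW', hW', hα, hβ]
  · intro p β
    rw [hc]
    have e1 : MvPolynomial.aeval (fun l => algebraMap E L (s l)) p
        = pmap B C E L (MvPolynomial.aeval (fun l => (1 : C) ⊗ₜ[B] s l) p) := by
      induction p using MvPolynomial.induction_on with
      | C a =>
        rw [MvPolynomial.aeval_C, MvPolynomial.aeval_C, Algebra.TensorProduct.algebraMap_apply,
          Algebra.algebraMap_self, RingHom.id_apply, hct]
      | add p q hp hq => rw [map_add, map_add, map_add, hp, hq]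
      | mul_X p l hp => rw [map_mul, map_mul, map_mul, hp, MvPolynomial.aeval_X,
          MvPolynomial.aeval_X, het]
    rw [e1, hW']
    clear e1
    have e2 : Ψ (MvPolynomial.aeval (fun l => (1 : C) ⊗ₜ[B] s l) p)
        = ((MvPolynomial.aeval (fun l => (MvPolynomial.C (j (s l)) + MvPolynomial.X l :
          MvPolynomial ι C)) p : MvPolynomial ι C) : MvPowerSeries ι C) := by
      induction p using MvPolynomial.induction_on with
      | C a =>
        rw [MvPolynomial.aeval_C, MvPolynomial.aeval_C, AlgHom.commutes,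
          MvPolynomial.algebraMap_eq, MvPolynomial.coe_C, MvPowerSeries.algebraMap_apply,
          Algebra.algebraMap_self, RingHom.id_apply]
      | add p q hp hq => rw [map_add, map_add, map_add, hp, hq, MvPolynomial.coe_add]
      | mul_X p l hp => rw [map_mul, map_mul, map_mul, hp, MvPolynomial.aeval_X,
          MvPolynomial.aeval_X, MvPolynomial.coe_mul, MvPolynomial.coe_add, MvPolynomial.coe_C,
          MvPolynomial.coe_X, psi_s h1 h2]
    refine coeff_le (a := fun l => j (s l)) hs1 (fun α => ?_) β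
    have := hW0le (MvPolynomial.aeval (fun l => (1 : C) ⊗ₜ[B] s l) p) α
    rwa [e2, MvPolynomial.coeff_coe] at this

end Pf72953.Fib
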