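import Mathlib
import Pool.Agent.Lib.Pf72953f.TStep
import Pool.Agent.Lib.Pf72953f.Peel

/-!
MODULE Pf72953f.TTower: the valuation on a fibre power restricting to `v` on all factors.

PROOF.  Induction on `r ≥ 1`.  `r = 1`: `i 0 : E → L` is bijective (`h.gen`), `W := v` transported by its inverse.
Step `r → r + 1`, `r ≥ 1`: `peel` gives `C`, `i'`; `V` on `C` from the induction hypothesis; `j := i' 0`,
`Algebra E L := (i (Fin.last r)).toRingHom.toAlgebra`; `Comp.exists_step` (`V (j y) = v y`, `V (n) = v (n)`) gives `W`.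
(1) `W (i j y) = v y`: for `j = castSucc j'`, `W (i' j' y) = V (i' j' y) = v y`; for the last one by the second property.
(2) `v (∑_a ∏_j y_{aj}) ≤ V (∑_a ∏_{j<r} i'_j(y_{aj}) * i'_0(y_{ar}))` by the induction hypothesis for the family with `y_{a0}`
replaced by `y_{a0} y_{ar}`, and this is `≤ W (...)` by the third property with
`c_a = ∏_{j<r} i'_j(y_{aj})` (`Fin.prod_univ_castSucc`).
(3) `W z = V c = v y`.
(4) Gauss: a polynomial `p` over `B` in `Fin (r+1) × ι` is a polynomial `q` in `ι` over the polynomials in `Fin r × ι`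
(`MvPolynomial.sumAlgEquiv`, `rename`); evaluate its coefficients at `rcoord i' s` to get `q'` over `C`;
`aeval (rcoord i s) p = aeval (i_last s) q'`, `V (coeff β₂ q') ≤ W (...)` (Gauss of the step) and
`v (coeff β₁ (coeff β₂ q)) ≤ V (coeff β₂ q')` (induction hypothesis).
-/

set_option autoImplicit false

open scoped WithZero

namespace Pf72953.Fib

universe u v w

namespace TTowerAux

open MvPolynomial

theorem coeff_sumAlg {R S₁ S₂ : Type*} [CommSemiring R] (p : MvPolynomial (S₁ ⊕ S₂) R)
    (β₂ : S₁ →₀ ℕ) (β₁ : S₂ →₀ ℕ) :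
    coeff β₁ (coeff β₂ (sumAlgEquiv R S₁ S₂ p)) =
      coeff (Finsupp.sumFinsuppAddEquivProdFinsupp.symm (β₂, β₁)) p := by
  simp [sumAlgEquiv, coeff, AddMonoidAlgebra.curryAlgEquiv, AddMonoidAlgebra.curryRingEquiv,
    AddMonoidAlgebra.curryAddEquiv, AddMonoidAlgebra.domCongr]

/-- the splitting of the index set -/
def eqv (r : ℕ) (ι : Type*) : Fin (r + 1) × ι ≃ ι ⊕ (Fin r × ι) where
  toFun x := Fin.lastCases (motive := fun _ => ι ⊕ (Fin r × ι)) (Sum.inl x.2)
    (fun j => Sum.inr (j, x.2)) x.1
  invFun := Sum.elim (fun l => (Fin.last r, l)) (fun x => (x.1.castSucc, x.2))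
  left_inv := by
    rintro ⟨j, l⟩
    refine Fin.lastCases ?_ (fun j => ?_) j
    · simp
    · simp
  right_inv := by
    rintro (l | ⟨j, l⟩)
    · simp
    · simp

@[simp] theorem eqv_last {r : ℕ} {ι : Type*} (l : ι) : eqv r ι (Fin.last r, l) = Sum.inl l := by
  simp [eqv]

@[simp] theorem eqv_cast {r : ℕ} {ι : Type*} (j : Fin r) (l : ι) :
    eqv r ι (j.castSucc, l) = Sum.inr (j, l) := by
  simp [eqv]

end TTowerAux

variable {B : Type u} {E : Type v} {ι : Type*} [Field B] [CharZero B] [Field E] [Algebra B E]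
  [Algebra.EssFiniteType B E] [Fintype ι]

open TTowerAux in
theorem IsFibrePower.exists_val (hE : ClosedIn B E) {s : ι → E} (hs : IsTranscendenceBasis B s)
    {v : Valuation E ℤᵐ⁰} (hvd : ∀ l y, v (pd hs l y) ≤ v y)
    (hnat : ∀ n : ℕ, n ≠ 0 → v (n : E) = 1) (hs1 : ∀ l, v (s l) ≤ 1) (hG : Gauss B v s)
    (r : ℕ) (hr : 1 ≤ r) :
    ∀ {L : Type w} [Field L] [Algebra B L] {i : Fin r → E →ₐ[B] L}, IsFibrePower B E L i →
      ∃ W : Valuation L ℤᵐ⁰, (∀ j y, W (i j y) = v y) ∧
        (∀ (n : ℕ) (y : Fin n → Fin r → E),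
          v (∑ a, ∏ j, y a j) ≤ W (∑ a, ∏ j, i j (y a j))) ∧
        (∀ z : L, ∃ y : E, W z = v y) ∧ Gauss B W (rcoord i s) := by
  induction r, hr using Nat.le_induction with
  | base =>
    intro L _ _ i h
    have hsurj : Function.Surjective (i 0) := by
      intro z
      have h1 : IntermediateField.adjoin B (⋃ j, Set.range (i j)) ≤ (i 0).fieldRange := by
        rw [IntermediateField.adjoin_le_iff]
        rintro z hz
        obtain ⟨j, hj⟩ := Set.mem_iUnion.1 hz
        obtain ⟨y, rfl⟩ := hj
        rw [Fin.eq_zero j]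
        exact ⟨y, rfl⟩
      rw [h.gen] at h1
      obtain ⟨y, hy⟩ := h1 (IntermediateField.mem_top (x := z))
      exact ⟨y, hy⟩
    let e : E ≃ₐ[B] L := AlgEquiv.ofBijective (i 0) ⟨(i 0).injective, hsurj⟩
    have he : ∀ y, e y = i 0 y := fun y => rfl
    let W : Valuation L ℤᵐ⁰ := v.comap (e.symm : L →+* E)
    have hW : ∀ y, W (i 0 y) = v y := by
      intro y
      change v (e.symm (i 0 y)) = v y
      rw [← he, AlgEquiv.symm_apply_apply]
    refine ⟨W, ?_, ?_, ?_, ?_⟩
    · intro j y
      rw [Fin.eq_zero j]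
      exact hW y
    · intro n y
      have h1 : ∑ a, ∏ j, i j (y a j) = i 0 (∑ a, ∏ j, y a j) := by
        rw [map_sum]
        refine Finset.sum_congr rfl fun a _ => ?_
        simp
      rw [h1, hW]
    · intro z
      obtain ⟨y, rfl⟩ := hsurj z
      exact ⟨y, hW y⟩
    · intro p β
      have hinj : Function.Injective (Prod.snd : Fin 1 × ι → ι) := by
        rintro ⟨j, l⟩ ⟨j', l'⟩ h
        rw [Fin.eq_zero j, Fin.eq_zero j']
        exact Prod.ext rfl h
      have h1 : MvPolynomial.aeval (rcoord i s) p =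
          i 0 (MvPolynomial.aeval s (MvPolynomial.rename Prod.snd p)) := by
        rw [MvPolynomial.aeval_rename]
        have h2 : MvPolynomial.aeval (rcoord i s) =
            (i 0).comp (MvPolynomial.aeval (s ∘ (Prod.snd : Fin 1 × ι → ι))) := by
          refine MvPolynomial.algHom_ext fun x => ?_
          rw [AlgHom.comp_apply, MvPolynomial.aeval_X, MvPolynomial.aeval_X]
          change i x.1 (s x.2) = i 0 (s x.2)
          rw [Fin.eq_zero x.1]
        rw [h2]
        rfl
      have h3 := hG (MvPolynomial.rename Prod.snd p) (Finsupp.mapDomain Prod.snd β)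
      rw [MvPolynomial.coeff_rename_mapDomain _ hinj] at h3
      rw [h1, hW, ← (i 0).commutes, hW]
      exact h3
  | succ r hr ih =>
    intro L _ _ i h
    obtain ⟨C, i', hi', hC, hdim, hadj⟩ := h.peel
    obtain ⟨V, hV1, hV2, hV3, hV4⟩ := ih hC
    let j0 : Fin r := ⟨0, by omega⟩
    let _ : Algebra E L := (i (Fin.last r)).toRingHom.toAlgebra
    have hEL : ∀ y, algebraMap E L y = i (Fin.last r) y := fun y => rfl
    have : IsScalarTower B E L :=
      IsScalarTower.of_algebraMap_eq fun b => ((i (Fin.last r)).commutes b).symm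
    have : CharZero C := charZero_of_injective_algebraMap (algebraMap B C).injective
    have : Algebra.EssFiniteType B L := h.essFiniteType
    have hcomp : Comp B C E L := ⟨hdim, hadj⟩
    obtain ⟨W, hW1, hW2, hW3, hW4, hW5⟩ := hcomp.exists_step hE hs (i' j0) (V := V)
      (fun l y => by rw [hV1, hV1]; exact hvd l y)
      (fun n hn => by
        have h1 : ((n : ℕ) : C) = i' j0 (n : E) := by rw [map_natCast]
        rw [h1, hV1]
        exact hnat n hn)
      (fun l => by rw [hV1]; exact hs1 l)
    have hCL : ∀ (j : Fin r) (y : E), algebraMap C L (i' j y) = i j.castSucc y := hi'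
    refine ⟨W, ?_, ?_, ?_, ?_⟩
    · intro j y
      refine Fin.lastCases ?_ (fun j => ?_) j
      · rw [← hEL, hW2, hV1]
      · rw [← hCL, hW1, hV1]
    · intro n y
      have h1 := hV2 n (fun a j => y a j.castSucc * if j = j0 then y a (Fin.last r) else 1)
      have h2 : ∀ a, ∏ j : Fin r, (y a j.castSucc * if j = j0 then y a (Fin.last r) else 1) =
          ∏ j, y a j := by
        intro a
        rw [Finset.prod_mul_distrib, Finset.prod_ite_eq' Finset.univ j0, if_pos (Finset.mem_univ _),
          Fin.prod_univ_castSucc]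
      have h3 : ∀ a, ∏ j : Fin r, i' j (y a j.castSucc * if j = j0 then y a (Fin.last r) else 1) =
          (∏ j : Fin r, i' j (y a j.castSucc)) * i' j0 (y a (Fin.last r)) := by
        intro a
        have h4 : ∀ j : Fin r, i' j (y a j.castSucc * if j = j0 then y a (Fin.last r) else 1) =
            i' j (y a j.castSucc) * if j = j0 then i' j (y a (Fin.last r)) else 1 := by
          intro j
          rw [map_mul, apply_ite (i' j), map_one]
        rw [Finset.prod_congr rfl fun j _ => h4 j, Finset.prod_mul_distrib,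
          Finset.prod_ite_eq' Finset.univ j0, if_pos (Finset.mem_univ _)]
      simp only [h2, h3] at h1
      refine h1.trans ((hW3 n (fun a => ∏ j : Fin r, i' j (y a j.castSucc))
        (fun a => y a (Fin.last r))).trans (le_of_eq ?_))
      congr 1
      refine Finset.sum_congr rfl fun a _ => ?_
      rw [Fin.prod_univ_castSucc, map_prod, hEL]
      exact congrArg (· * i (Fin.last r) (y a (Fin.last r)))
        (Finset.prod_congr rfl fun j _ => hCL j _)
    · intro z
      obtain ⟨c, hc⟩ := hW4 z
      obtain ⟨y, hy⟩ := hV3 c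
      exact ⟨y, hc.trans hy⟩
    · intro p β
      set P := MvPolynomial.rename (eqv r ι) p with hP
      set Q := MvPolynomial.sumAlgEquiv B ι (Fin r × ι) P with hQ
      set f : MvPolynomial (Fin r × ι) B →ₐ[B] C := MvPolynomial.aeval (rcoord i' s) with hf
      set q' : MvPolynomial ι C := MvPolynomial.mapAlgHom f Q with hq'
      obtain ⟨β₂, β₁, hβ⟩ : ∃ (β₂ : ι →₀ ℕ) (β₁ : Fin r × ι →₀ ℕ),
          Finsupp.sumFinsuppAddEquivProdFinsupp.symm (β₂, β₁) =
            Finsupp.mapDomain (eqv r ι) β := by
        refine ⟨(Finsupp.sumFinsuppAddEquivProdFinsupp (Finsupp.mapDomain (eqv r ι) β)).1,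
          (Finsupp.sumFinsuppAddEquivProdFinsupp (Finsupp.mapDomain (eqv r ι) β)).2, ?_⟩
        rw [Prod.mk.eta, AddEquiv.symm_apply_apply]
      have hcoef : MvPolynomial.coeff β₁ (MvPolynomial.coeff β₂ Q) = MvPolynomial.coeff β p := by
        rw [hQ, coeff_sumAlg, hβ, hP, MvPolynomial.coeff_rename_mapDomain _ (eqv r ι).injective]
      have hq2 : MvPolynomial.coeff β₂ q' = f (MvPolynomial.coeff β₂ Q) := by
        rw [hq', MvPolynomial.mapAlgHom_apply]
        exact MvPolynomial.coeff_map _ _ _
      have hae : MvPolynomial.aeval (fun l => algebraMap E L (s l)) q' =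
          MvPolynomial.aeval (rcoord i s) p := by
        have h1 : ((MvPolynomial.aeval (R := C) (fun l => algebraMap E L (s l))).restrictScalars
            B).comp ((MvPolynomial.mapAlgHom f).comp
              ((MvPolynomial.sumAlgEquiv B ι (Fin r × ι)).toAlgHom.comp
                (MvPolynomial.rename (eqv r ι)))) =
            MvPolynomial.aeval (rcoord i s) := by
          refine MvPolynomial.algHom_ext fun x => ?_
          obtain ⟨j, l⟩ := x
          refine Fin.lastCases ?_ (fun j => ?_) j
          · simp [rcoord, hEL]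
          · simp [rcoord, hf]
            exact hCL j (s l)
        exact DFunLike.congr_fun h1 p
      have h1 := hV4 (MvPolynomial.coeff β₂ Q) β₁
      rw [hcoef] at h1
      have h2 := hW5 q' β₂
      rw [hae, hW1, hq2] at h2
      rw [IsScalarTower.algebraMap_apply B C L, hW1]
      exact h1.trans h2

end Pf72953.Fib
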