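import Mathlib
import Pool.Agent.Lib.Pf72953u.Inst
import Pool.Agent.Lib.Pf72953f.Res
import Pool.Agent.Lib.Pf72953f.TTower

/-!
MODULE Pf72953f.EstW: the divisorial valuation `W` of the fibre power attached to a divisorial valuation `v` of `E` which is
not trivial on `B`.

PROOF.  Let `cB, tB, σ` be as in `exists_res`, `W` as in `IsFibrePower.exists_val` for `σ`
(`v n = 1` for `n ≠ 0` since `v` is trivial on `k`).  Write `cB = (tB, xB)` reindexed (`Adapted`), `xB` residually independent for `v` in `B`.
Third property: `(xB, rcoord i σ)` is residually independent over `k` for `W`: for a nonzero polynomial `p(X, Y)` over `k`,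
`p(xB, Y)` is a polynomial over `B` with a coefficient `p_β(xB)` of value `1`, all coefficients have value `≤ 1`, so
`W (p(xB, rcoord i σ)) = 1` by Gauss (`W` and `v` agree on `B`, since `i 0` is a `B`-map; `W (i j (σ l)) = v (σ l) = 1`).  And `coord i cB σ`
is `(tB, (xB, rcoord i σ))` reindexed, `W tB = v tB < 1`.
`W` is divisorial on `L/k`: trivial on `k`, `W tB < 1`, and the residually independent elements `(xB, rcoord i σ)` are
`(dimension k B - 1) + r * dimension B E = dimension k L - 1` in number (`tb_rel`, `IsFibrePower.tb`,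
`card_eq_of_isTranscendenceBasis`), reindex by `Fin`.
Last property: `W z = v y` for some `y`, `v y < 1`, `t` a uniformizer of `v`.
-/

set_option autoImplicit false

open scoped WithZero

namespace Pf72953.Fib

namespace EstWAux

theorem resIndep_comp {k K α β : Type*} [Field k] [Field K] [Algebra k K]
    {w : Valuation K ℤᵐ⁰} {x : β → K} (hx : ResIndep k w x) {e : α → β}
    (he : Function.Injective e) : ResIndep k w (x ∘ e) := by
  intro p hp
  have h := hx (MvPolynomial.rename e p)
    (fun h0 => hp (MvPolynomial.rename_injective e he (by rw [h0, map_zero])))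
  rwa [MvPolynomial.aeval_rename] at h

/-- evaluation in two steps -/
theorem aeval_sum {k B L α β : Type*} [Field k] [Field B] [Field L] [Algebra k B]
    [Algebra k L] [Algebra B L] [IsScalarTower k B L] (x : α → B) (y : β → L)
    (p : MvPolynomial (β ⊕ α) k) :
    MvPolynomial.aeval y (MvPolynomial.map
        (MvPolynomial.aeval x : MvPolynomial α k →ₐ[k] B).toRingHom
        (MvPolynomial.sumAlgEquiv k β α p)) =
      MvPolynomial.aeval (Sum.elim y (fun a => algebraMap B L (x a))) p := by
  induction p using MvPolynomial.induction_on with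
  | C c =>
    rw [MvPolynomial.sumAlgEquiv_C_inl, MvPolynomial.map_C, MvPolynomial.aeval_C,
      MvPolynomial.aeval_C]
    change algebraMap B L (MvPolynomial.aeval x (MvPolynomial.C c)) = _
    rw [MvPolynomial.aeval_C, ← IsScalarTower.algebraMap_apply]
  | add p q hp hq =>
    rw [map_add, map_add, map_add, map_add, hp, hq]
  | mul_X p o hp =>
    rw [map_mul, map_mul, map_mul, map_mul, hp, MvPolynomial.aeval_X]
    congr 1
    rcases o with b | a
    · rw [MvPolynomial.sumAlgEquiv_X_inl, MvPolynomial.map_X, MvPolynomial.aeval_X]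
      rfl
    · rw [MvPolynomial.sumAlgEquiv_X_inr, MvPolynomial.map_C, MvPolynomial.aeval_C]
      change algebraMap B L (MvPolynomial.aeval x (MvPolynomial.X a)) = _
      rw [MvPolynomial.aeval_X]
      rfl

/-- Gauss: residually independent coefficients and a Gauss family -/
theorem resIndep_sum {k B L α β : Type*} [Field k] [Field B] [Field L] [Algebra k B]
    [Algebra k L] [Algebra B L] [IsScalarTower k B L] {W : Valuation L ℤᵐ⁰} {x : α → B}
    (hx : ResIndep k (W.comap (algebraMap B L)) x) {y : β → L} (hy : Gauss B W y)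
    (hy1 : ∀ b, W (y b) ≤ 1) :
    ResIndep k W (Sum.elim y (fun a => algebraMap B L (x a))) := by
  classical
  intro p hp
  have hle : W (MvPolynomial.aeval (Sum.elim y (fun a => algebraMap B L (x a))) p) ≤ 1 := by
    clear hp
    induction p using MvPolynomial.induction_on with
    | C c =>
      rw [MvPolynomial.aeval_C, IsScalarTower.algebraMap_apply k B L]
      exact hx.const_le c
    | add p q hp hq =>
      rw [map_add]
      exact (W.map_add _ _).trans (max_le hp hq)
    | mul_X p o hp =>
      rw [map_mul, map_mul, MvPolynomial.aeval_X]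
      refine mul_le_one' hp ?_
      rcases o with b | a
      · exact hy1 b
      · exact (hx.apply a).le
  refine le_antisymm hle ?_
  set q : MvPolynomial β (MvPolynomial α k) := MvPolynomial.sumAlgEquiv k β α p with hq
  have hq0 : q ≠ 0 := by
    intro h0
    apply hp
    exact (MvPolynomial.sumAlgEquiv k β α).injective (by rw [map_zero]; exact h0)
  obtain ⟨γ, hγ⟩ := MvPolynomial.exists_coeff_ne_zero hq0
  have h1 := hy (MvPolynomial.map
        (MvPolynomial.aeval x : MvPolynomial α k →ₐ[k] B).toRingHom q) γ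
  rw [aeval_sum, MvPolynomial.coeff_map] at h1
  refine le_trans (le_of_eq ?_) h1
  exact (hx _ hγ).symm

/-- `Option α ⊕ β ≃ Option (β ⊕ α)` -/
def optEquiv (α β : Type*) : Option α ⊕ β ≃ Option (β ⊕ α) where
  toFun
    | Sum.inl none => none
    | Sum.inl (some a) => some (Sum.inr a)
    | Sum.inr b => some (Sum.inl b)
  invFun
    | none => Sum.inl none
    | some (Sum.inr a) => Sum.inl (some a)
    | some (Sum.inl b) => Sum.inr b
  left_inv := by rintro ((_ | a) | b) <;> rfl
  right_inv := by rintro (_ | (b | a)) <;> rfl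

theorem adapted_sum {k B L ιB α : Type*} [Field k] [Field B] [Field L] [Algebra k B]
    [Algebra k L] [Algebra B L] [IsScalarTower k B L] [Fintype α] {W : Valuation L ℤᵐ⁰}
    {c : ιB → B} {t : B}
    (hc : Adapted k (W.comap (algebraMap B L)) c t) {y : α → L} (hy : Gauss B W y)
    (hy1 : ∀ b, W (y b) ≤ 1) :
    Adapted k W (Sum.elim (fun a => algebraMap B L (c a)) y) (algebraMap B L t) := by
  classical
  obtain ⟨r, e, x, hx, ht0, ht, rfl⟩ := hc
  let f := Fintype.equivFin (α ⊕ Fin r)
  refine ⟨Fintype.card (α ⊕ Fin r),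
    ((Equiv.sumCongr e (Equiv.refl α)).trans (optEquiv (Fin r) α)).trans (Equiv.optionCongr f),
    (Sum.elim y (fun a => algebraMap B L (x a))) ∘ f.symm,
    resIndep_comp (resIndep_sum hx hy hy1) f.symm.injective, ?_, ht, ?_⟩
  · rwa [Ne, map_eq_zero]
  · funext o
    rcases o with a | b
    · simp only [Sum.elim_inl, Function.comp_apply, Equiv.trans_apply, Equiv.sumCongr_apply,
        Sum.map_inl, Equiv.optionCongr_apply]
      rcases e a with _ | j
      · rfl
      · simp [optEquiv]
    · simp [optEquiv]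

theorem isDivisorial {k L α : Type*} [Field k] [Field L] [Algebra k L] [Fintype α]
    {W : Valuation L ℤᵐ⁰} (hα : Fintype.card α = dimension k L) {c : α → L} {t : L}
    (h : Adapted k W c t) : IsDivisorial k L W := by
  obtain ⟨r, e, x, hx, ht0, ht, rfl⟩ := h
  have h1 : dimension k L = r + 1 := by
    rw [← hα, Fintype.card_congr e, Fintype.card_option, Fintype.card_fin]
  refine ⟨fun c hc => hx.const hc, ⟨t, ht0, ht.ne⟩, x ∘ Fin.cast (by omega), ?_⟩
  exact resIndep_comp hx (Fin.cast_injective _)

end EstWAux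

theorem exists_W {k B E L ιB ι : Type*} [Field k] [CharZero k] [Field B] [CharZero B] [Field E]
    [Field L] [Algebra k B] [Algebra k E] [Algebra k L] [Algebra B E] [Algebra B L]
    [IsScalarTower k B E] [IsScalarTower k B L] [Algebra.EssFiniteType k B]
    [Algebra.EssFiniteType k E] [Fintype ιB] [Fintype ι]
    (hιB : Fintype.card ιB = dimension k B) (hι : Fintype.card ι = dimension B E)
    (hE : ClosedIn B E) {r : ℕ} (hr : 1 ≤ r) {i : Fin r → E →ₐ[B] L}
    (h : IsFibrePower B E L i) {v : Valuation E ℤᵐ⁰} (hv : IsDivisorial k E v)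
    (hnt : ∃ a : B, a ≠ 0 ∧ v (algebraMap B E a) ≠ 1) {t : E} (ht : IsUnif v t) :
    ∃ (cB : ιB → B) (tB : B) (σ : ι → E) (W : Valuation L ℤᵐ⁰),
      IsTranscendenceBasis B σ ∧ Adapted k (v.comap (algebraMap B E)) cB tB ∧
      Adapted k v (Sum.elim (fun a => algebraMap B E (cB a)) σ) (algebraMap B E tB) ∧
      Adapted k W (coord i cB σ) (algebraMap B L tB) ∧ IsDivisorial k L W ∧
      (∀ j y, W (i j y) = v y) ∧
      (∀ (n : ℕ) (y : Fin n → Fin r → E), v (∑ a, ∏ j, y a j) ≤ W (∑ a, ∏ j, i j (y a j))) ∧
      (∀ z : L, W z < 1 → W z ≤ v t) := by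
  classical
  obtain ⟨cB, tB, σ, hσ, hcB, hcE, hσ1, hG, hpd⟩ := exists_res hιB hι hv hnt
  have hfin : Algebra.EssFiniteType B E := Algebra.EssFiniteType.of_comp k B E
  have hnat : ∀ n : ℕ, n ≠ 0 → v (n : E) = 1 := by
    intro n hn
    have h1 := hv.const (n : k) (by exact_mod_cast hn)
    rwa [map_natCast] at h1
  obtain ⟨W, hW1, hW2, hW3, hW4⟩ :=
    IsFibrePower.exists_val hE hσ hpd hnat (fun l => (hσ1 l).le) hG r hr h
  have hWB : W.comap (algebraMap B L) = v.comap (algebraMap B E) := by
    ext b
    rw [Valuation.comap_apply, Valuation.comap_apply, ← hW1 ⟨0, hr⟩, (i ⟨0, hr⟩).commutes]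
  have hy1 : ∀ p : Fin r × ι, W (rcoord i σ p) ≤ 1 := fun p => by
    rw [rcoord, hW1, hσ1]
  have had : Adapted k W (coord i cB σ) (algebraMap B L tB) :=
    EstWAux.adapted_sum (by rw [hWB]; exact hcB) hW4 hy1
  have hcB' : IsTranscendenceBasis k cB := isTranscendenceBasis_of_card hιB hcB.algebraicIndependent
  have hcard := card_eq_of_isTranscendenceBasis (tb_rel hcB' (h.tb hσ))
  refine ⟨cB, tB, σ, W, hσ, hcB, hcE, had, EstWAux.isDivisorial hcard had, hW1, hW2, ?_⟩
  intro z hz
  obtain ⟨y, hy⟩ := hW3 z
  rw [hy] at hz ⊢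
  exact ht.le y hz

end Pf72953.Fib
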