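import Mathlib
import Pool.Agent.Lib.Pf72953f.Defs

/-!
MODULE Pf72953f.JacR: the relative Jacobian on a fibre power.

PROOF.  `pd h (j, l) (i j' y)` is `i j (pd hσ l y)` for `j = j'` and `0` otherwise (`pd_algebraMap`,
`pd_algebraMap_of_notMem` with `Algebra E L := (i j').toRingHom.toAlgebra`, `e := fun l => (j', l)`), so the matrix is block
diagonal: `Matrix.det_blockDiagonal` after reindexing by `Prod.swap` (or `jac_reindex`); `jac_eq_det`, `RingHom.map_det`.
-/

set_option autoImplicit false

namespace Pf72953.Fib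

namespace JacRAux

variable {B E L ι : Type*} [Field B] [CharZero B] [Field E] [Field L] [Algebra B E]
  [Algebra B L] [Fintype ι] {r : ℕ}

theorem pd_same (i : Fin r → E →ₐ[B] L) {σ : ι → E}
    (hσ : IsTranscendenceBasis B σ) (h : IsTranscendenceBasis B (rcoord i σ)) (j : Fin r) (l : ι)
    (y : E) : pd h (j, l) (i j y) = i j (pd hσ l y) := by
  letI : Algebra E L := (i j).toRingHom.toAlgebra
  haveI : IsScalarTower B E L := IsScalarTower.of_algebraMap_eq fun c => ((i j).commutes c).symm
  exact pd_algebraMap hσ h (fun l => (j, l)) (fun a b hab => (Prod.ext_iff.1 hab).2)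
    (fun _ => rfl) l y

theorem pd_diff (i : Fin r → E →ₐ[B] L) {σ : ι → E}
    (hσ : IsTranscendenceBasis B σ) (h : IsTranscendenceBasis B (rcoord i σ)) {j j' : Fin r}
    (hj : j' ≠ j) (l : ι) (y : E) : pd h (j, l) (i j' y) = 0 := by
  letI : Algebra E L := (i j').toRingHom.toAlgebra
  haveI : IsScalarTower B E L := IsScalarTower.of_algebraMap_eq fun c => ((i j').commutes c).symm
  exact pd_algebraMap_of_notMem hσ h (fun l => (j', l)) (fun _ => rfl) (j, l)
    (fun a hab => hj (Prod.ext_iff.1 hab).1) y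

end JacRAux

theorem jac_rcoord {B E L ι : Type*} [Field B] [CharZero B] [Field E] [Field L] [Algebra B E]
    [Algebra B L] [Fintype ι] [DecidableEq ι] {r : ℕ} (i : Fin r → E →ₐ[B] L) {σ : ι → E}
    (hσ : IsTranscendenceBasis B σ) (h : IsTranscendenceBasis B (rcoord i σ)) (s : ι → E) :
    jac h (rcoord i s) = ∏ j, i j (jac hσ s) := by
  have h1 : (Matrix.of fun p q => pd h p (rcoord i s q)) =
      (Matrix.blockDiagonal fun j => (i j).toRingHom.mapMatrix
        (Matrix.of fun l l' => pd hσ l (s l'))).submatrix (Equiv.prodComm (Fin r) ι)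
        (Equiv.prodComm (Fin r) ι) := by
    ext ⟨j, l⟩ ⟨j', l'⟩
    simp only [Matrix.of_apply, Matrix.submatrix_apply, Equiv.prodComm_apply, Prod.swap_prod_mk,
      Matrix.blockDiagonal_apply]
    by_cases hj : j = j'
    · subst hj
      rw [if_pos rfl]
      exact JacRAux.pd_same i hσ h j l (s l')
    · rw [if_neg hj]
      exact JacRAux.pd_diff i hσ h (Ne.symm hj) l (s l')
  rw [jac_eq_det, h1, Matrix.det_submatrix_equiv_self, Matrix.det_blockDiagonal]
  refine Finset.prod_congr rfl fun j _ => ?_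
  rw [jac_eq_det, ← RingHom.map_det]
  rfl

end Pf72953.Fib
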