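import Mathlib
import Pool.Agent.Lib.Pf72953u.Inst
import Pool.Agent.Lib.Pf72953f.JacR
import Pool.Agent.Lib.Pf72953f.EstW

/-!
MODULE Pf72953f.EstA: the order of the restriction to the diagonal of a regular form of the fibre power, at a divisorial
valuation not trivial on `B`.

PROOF.  Let `cB, tB, σ, W` be as in `exists_W`, `f := ∑ ∏ i j (y a j)`, `z := coord i x s`, a transcendence basis of `L/k`
(`tb_rel`, `IsFibrePower.tb`; `Algebra.EssFiniteType k L` by `IsFibrePower.essFiniteType` and `Algebra.EssFiniteType.comp k B L`,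
`Algebra.EssFiniteType B E` by `Algebra.EssFiniteType.of_comp k B E`).
`WReg.log_bound` for `hf` and `W` gives a logarithmic basis `c'` and `t'`, `W t' < 1`, with
`W f * (W (jac c' z) * ∏ W (c')) ^ m ≤ W t' ^ m ≤ v t ^ m`; by `LogBasis.vol_eq` and `Adapted.logBasis` one may replace `c'` by
`coord i cB σ`, for which `∏ W (c) = v tB` (`Adapted.prod`, `W tB = v tB` since `i 0` is a `B`-map) and
`jac (coord i cB σ) (coord i x s) = jac cB x * jac (rcoord i σ) (rcoord i s) = jac cB x * ∏_j i j (jac hσ s)` (`jac_rel`, `jac_rcoord`).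
So, with `J := v (jac cB x)`, `J' := v (jac hσ s)`, `T := v tB`:  `W f * (J * J' ^ r * T) ^ m ≤ v t ^ m`, and
`v (∑ ∏ y) ≤ W f`.  On `E`: `c := Sum.elim cB σ` is a logarithmic basis (`Adapted.logBasis`),
`∏ v (c) = T`, `jac c (Sum.elim x s) = jac cB x * jac hσ s` (`jac_rel`).  On `B`: `∏ v (cB) = T`.  So the claim is
`v (∑ ∏ y) * (J * J' * T) ^ (r * m) ≤ v t ^ m * (J * T) ^ ((r - 1) * m)`, which follows from
`(J * J' * T) ^ (r * m) = (J * J' ^ r * T) ^ m * (J * T) ^ ((r - 1) * m)`, `r ≥ 1`.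
-/

set_option autoImplicit false

open scoped WithZero

namespace Pf72953.Fib

namespace EstAAux

theorem pow_split {M : Type*} [CommMonoid M] (a b c : M) (r m : ℕ) :
    (a * b * c) ^ ((r + 1) * m) = (a * b ^ (r + 1) * c) ^ m * (a * c) ^ (r * m) := by
  rw [pow_mul, pow_mul, ← mul_pow]
  congr 1
  simp only [mul_pow, pow_succ]
  ac_rfl

end EstAAux

open EstAAux

theorem estA {k B E L ιB ι : Type*} [Field k] [CharZero k] [Field B] [CharZero B] [Field E]
    [Field L] [Algebra k B] [Algebra k E] [Algebra k L] [Algebra B E] [Algebra B L]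
    [IsScalarTower k B E] [IsScalarTower k B L] [Algebra.EssFiniteType k B]
    [Algebra.EssFiniteType k E] [Fintype ιB] [DecidableEq ιB] [Fintype ι] [DecidableEq ι]
    (hE : ClosedIn B E) {x : ιB → B} (hx : IsTranscendenceBasis k x) {s : ι → E}
    (hs : IsTranscendenceBasis B s) {r : ℕ} (hr : 1 ≤ r) {i : Fin r → E →ₐ[B] L}
    (h : IsFibrePower B E L i) {m n : ℕ} (y : Fin n → Fin r → E)
    (hf : (∑ a, ∏ j, i j (y a j)) ∈ WReg k (coord i x s) m) {v : Valuation E ℤᵐ⁰}
    (hv : IsDivisorial k E v) (hnt : ∃ a : B, a ≠ 0 ∧ v (algebraMap B E a) ≠ 1) {t : E}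
    (ht : IsUnif v t) :
    ∃ (cB : ιB → B) (hcB : LogBasis k (v.comap (algebraMap B E)) cB) (c : ιB ⊕ ι → E)
      (hc : LogBasis k v c),
      v (∑ a, ∏ j, y a j) * (v (jac hc.tb (Sum.elim (fun a => algebraMap B E (x a)) s)) *
          ∏ a, v (c a)) ^ (r * m) ≤
        v t ^ m * (v (algebraMap B E (jac hcB.tb x)) *
          ∏ a, v (algebraMap B E (cB a))) ^ ((r - 1) * m) := by
  haveI : Algebra.EssFiniteType B E := Algebra.EssFiniteType.of_comp k B E
  haveI : Algebra.EssFiniteType B L := h.essFiniteType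
  haveI : Algebra.EssFiniteType k L := Algebra.EssFiniteType.comp k B L
  have hιB : Fintype.card ιB = dimension k B := card_eq_of_isTranscendenceBasis hx
  have hι : Fintype.card ι = dimension B E := card_eq_of_isTranscendenceBasis hs
  obtain ⟨cB, tB, σ, W, hσ, hAB, hAE, hAW, hWdiv, hWi, hWf, hWt⟩ :=
    exists_W hιB hι hE hr h hv hnt ht
  have hzL : IsTranscendenceBasis k (coord i x s) := tb_rel hx (h.tb hs)
  have hcB : LogBasis k (v.comap (algebraMap B E)) cB := hAB.logBasis hιB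
  have hc : LogBasis k v (Sum.elim (fun a => algebraMap B E (cB a)) σ) :=
    hAE.logBasis (card_eq_of_isTranscendenceBasis (tb_rel hcB.tb hσ))
  have hcL : LogBasis k W (coord i cB σ) :=
    hAW.logBasis (card_eq_of_isTranscendenceBasis (tb_rel hcB.tb (h.tb hσ)))
  obtain ⟨c', hc', t', ht'0, ht'1, hb⟩ := WReg.log_bound hzL hf hWdiv
  rw [hc'.vol_eq hcL] at hb
  have hBL : ∀ b : B, W (algebraMap B L b) = v (algebraMap B E b) := by
    intro b
    rw [← (i ⟨0, hr⟩).commutes b, hWi]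
  have j1 : jac hcL.tb (coord i x s) =
      algebraMap B L (jac hcB.tb x) * jac (h.tb hσ) (rcoord i s) :=
    jac_rel hcB.tb (h.tb hσ) hcL.tb x (rcoord i s)
  rw [j1, jac_rcoord i hσ (h.tb hσ) s, map_mul, hBL, map_prod, hAW.prod, hBL] at hb
  simp only [hWi, Finset.prod_const, Finset.card_univ, Fintype.card_fin] at hb
  refine ⟨cB, hcB, _, hc, ?_⟩
  have j2 : jac hc.tb (Sum.elim (fun a => algebraMap B E (x a)) s) =
      algebraMap B E (jac hcB.tb x) * jac hσ s := jac_rel hcB.tb hσ hc.tb x s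
  have p1 : ∏ a, v (algebraMap B E (cB a)) = v (algebraMap B E tB) := hAB.prod
  rw [j2, hAE.prod, p1, map_mul]
  obtain ⟨r', rfl⟩ : ∃ r', r = r' + 1 := ⟨r - 1, by omega⟩
  rw [Nat.add_sub_cancel, pow_split, ← mul_assoc]
  refine mul_le_mul' ?_ le_rfl
  calc v (∑ a, ∏ j, y a j) * (v (algebraMap B E (jac hcB.tb x)) * v (jac hσ s) ^ (r' + 1) *
        v (algebraMap B E tB)) ^ m
      ≤ W (∑ a, ∏ j, i j (y a j)) * (v (algebraMap B E (jac hcB.tb x)) *
        v (jac hσ s) ^ (r' + 1) * v (algebraMap B E tB)) ^ m := mul_le_mul' (hWf n y) le_rfl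
    _ ≤ W t' ^ m := hb
    _ ≤ v t ^ m := pow_le_pow_left' (hWt t' ht'1) m

end Pf72953.Fib
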