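import Mathlib
import Pool.Agent.Lib.Pf72953f.TTower

/-!
MODULE Pf72953f.Diag: the restriction to the diagonal.

PROOF.  Apply `exists_val` to the trivial valuation of `E` (`v y = 1` for `y ≠ 0`; Gauss holds because `s` is
algebraically independent), to the family `y` followed by `y'` with its `0`-th factors multiplied by `-1` (`Fin.append`,
`Fin.sum_univ_add`, `r ≥ 1`): `W (0) = 0`, so `v (∑ ∏ y - ∑ ∏ y') = 0`.
-/

set_option autoImplicit false

open scoped WithZero

namespace Pf72953.Fib

universe u v w

variable {B : Type u} {E : Type v} {ι : Type*} [Field B] [CharZero B] [Field E] [Algebra B E]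
  [Algebra.EssFiniteType B E] [Fintype ι]

/-- the restriction to the diagonal is well defined -/
theorem IsFibrePower.diag (hE : ClosedIn B E) {s : ι → E} (hs : IsTranscendenceBasis B s)
    {r : ℕ} (hr : 1 ≤ r) {L : Type w} [Field L] [Algebra B L] {i : Fin r → E →ₐ[B] L}
    (h : IsFibrePower B E L i) {n n' : ℕ} (y : Fin n → Fin r → E) (y' : Fin n' → Fin r → E)
    (heq : ∑ a, ∏ j, i j (y a j) = ∑ a, ∏ j, i j (y' a j)) :
    ∑ a, ∏ j, y a j = ∑ a, ∏ j, y' a j := by
  classical
  let v : Valuation E ℤᵐ⁰ := 1
  have hv : ∀ x : E, x ≠ 0 → v x = 1 := fun x hx => Valuation.one_apply_of_ne_zero hx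
  have hCE : CharZero E := charZero_of_injective_algebraMap (algebraMap B E).injective
  obtain ⟨W, -, hW, -, -⟩ := IsFibrePower.exists_val (v := v) hE hs
    (fun l x => by
      by_cases hx : x = 0
      · rw [hx, map_zero]
      · rw [hv x hx]
        exact Valuation.one_apply_le_one _)
    (fun m hm => hv _ (Nat.cast_ne_zero.2 hm))
    (fun l => Valuation.one_apply_le_one _)
    (fun p β => by
      by_cases hp : MvPolynomial.coeff β p = 0
      · rw [hp, map_zero, map_zero]; exact zero_le'
      · have h1 : MvPolynomial.aeval s p ≠ 0 := by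
          intro h0
          apply hp
          have h2 := hs.1 (show MvPolynomial.aeval s p = MvPolynomial.aeval s 0 by
            rw [h0, map_zero])
          rw [h2, MvPolynomial.coeff_zero]
        rw [hv _ h1]
        exact Valuation.one_apply_le_one _) r hr h
  let j0 : Fin r := ⟨0, hr⟩
  let y'' : Fin n' → Fin r → E := fun a => Function.update (y' a) j0 (-(y' a j0))
  have e1 : ∀ a, ∏ j, y'' a j = -∏ j, y' a j := by
    intro a
    rw [← Finset.mul_prod_erase Finset.univ (y'' a) (Finset.mem_univ j0),
      ← Finset.mul_prod_erase Finset.univ (y' a) (Finset.mem_univ j0)]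
    have h1 : y'' a j0 = -(y' a j0) := Function.update_self _ _ _
    have h2 : ∏ j ∈ Finset.univ.erase j0, y'' a j = ∏ j ∈ Finset.univ.erase j0, y' a j := by
      refine Finset.prod_congr rfl fun j hj => ?_
      exact Function.update_of_ne (Finset.ne_of_mem_erase hj) _ _
    rw [h1, h2, neg_mul]
  have e2 : ∀ a, ∏ j, i j (y'' a j) = -∏ j, i j (y' a j) := by
    intro a
    rw [← Finset.mul_prod_erase Finset.univ (fun j => i j (y'' a j)) (Finset.mem_univ j0),
      ← Finset.mul_prod_erase Finset.univ (fun j => i j (y' a j)) (Finset.mem_univ j0)]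
    have h1 : y'' a j0 = -(y' a j0) := Function.update_self _ _ _
    have h2 : ∏ j ∈ Finset.univ.erase j0, i j (y'' a j) =
        ∏ j ∈ Finset.univ.erase j0, i j (y' a j) := by
      refine Finset.prod_congr rfl fun j hj => ?_
      rw [show y'' a j = y' a j from Function.update_of_ne (Finset.ne_of_mem_erase hj) _ _]
    rw [h1, h2, map_neg, neg_mul]
  have h3 := hW (n + n') (Fin.append y y'')
  rw [Fin.sum_univ_add, Fin.sum_univ_add] at h3
  simp only [Fin.append_left, Fin.append_right, e1, e2, Finset.sum_neg_distrib] at h3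
  rw [heq, add_neg_cancel, map_zero, ← sub_eq_add_neg] at h3
  have h4 := (Valuation.zero_iff v).1 (le_antisymm h3 zero_le')
  exact sub_eq_zero.1 h4

end Pf72953.Fib
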