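import Mathlib
import Pool.Agent.Lib.Pf72953f.Peel
import Pool.Agent.Lib.Pf72953f.CompL

/-!
The base field is algebraically closed in the fibre powers.
-/

set_option autoImplicit false
set_option linter.style.haveILetI false

namespace Pf72953.Fib

universe u v w

variable {B : Type u} {E : Type v} [Field B] [Field E] [Algebra B E]
  [Algebra.EssFiniteType B E]

theorem IsFibrePower.closed [CharZero B] (hE : ClosedIn B E) (r : ℕ) :
    ∀ {L : Type w} [Field L] [Algebra B L] {i : Fin r → E →ₐ[B] L}, IsFibrePower B E L i →
      ClosedIn B L := by
  induction r with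
  | zero =>
    intro L _ _ i h z _
    have h1 : z ∈ IntermediateField.adjoin B (⋃ j, Set.range (i j)) := by
      rw [h.gen]; trivial
    rw [Set.iUnion_of_empty, IntermediateField.adjoin_empty] at h1
    exact IntermediateField.mem_bot.mp h1
  | succ r ih =>
    intro L _ _ i h
    obtain ⟨C, i', hi', hC, hdim, hgen⟩ := h.peel
    letI : Algebra E L := (i (Fin.last r)).toRingHom.toAlgebra
    haveI : IsScalarTower B E L :=
      IsScalarTower.of_algebraMap_eq fun b => ((i (Fin.last r)).commutes b).symm
    haveI : CharZero C := charZero_of_injective_algebraMap (algebraMap B C).injective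
    haveI : Algebra.EssFiniteType B L := h.essFiniteType
    have hcomp : Comp B C E L := ⟨hdim, hgen⟩
    obtain ⟨s, hs⟩ := exists_tb B E
    exact hcomp.closed (ih hC) hE hs

end Pf72953.Fib
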