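import Mathlib
import Pool.Agent.Lib.Pf72953f.Lin

/-!
MODULE Pf72953f.Dom: if `B` is algebraically closed in `E` (characteristic zero) then `κ ⊗_B E` is a domain for every
field `κ` over `B`.

PROOF.  Let `κ₁ := FractionRing (MvPolynomial ι κ)` and `Ω := AlgebraicClosure κ₁`, an extension of `κ` and of `B`.  The images
`X_i` of the variables are algebraically independent over `κ` in `Ω`.  The field `E` is algebraic over the subfield `B(s)`; the map
`s_i ↦ X_i` defines an embedding of `B(s)` into `Ω` (`hs.1.aevalEquivField`, `IntermediateField.adjoin B (Set.range s)`,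
`AlgebraicIndependent.aevalEquiv`, or: `Ω` is an algebra over `MvPolynomial ι B`, faithful), which extends to an embedding
`φ : E → Ω` as `Ω` is algebraically closed (`IsAlgClosed.lift`; alternatively use
`Algebra (MvPolynomial ι B) E`, given by `MvPolynomial.aeval s`, which is algebraic and torsion free, and `IsAlgClosed.lift` over the domain
`MvPolynomial ι B`).  `φ` is a `B`-algebra homomorphism with `φ (s_i) = X_i`.  With
`Algebra E Ω := φ.toAlgebra`, `linInd_right` (`C := κ`, `L := Ω`) says that `B`-independent elements `e_a` of `E` have images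
independent over `κ`, so the product map `κ ⊗ E → Ω`, `c ⊗ e ↦ c φ(e)`, is injective (an element of `κ ⊗ E` is
`∑_a c_a ⊗ e_a`, `e_a` a basis of `E/B`: `Algebra.TensorProduct.basis`), and `Ω` is a field, so `κ ⊗ E` is a domain
(`Function.Injective.isDomain`).
-/

set_option autoImplicit false
set_option linter.style.haveILetI false

open scoped TensorProduct

namespace Pf72953.Fib

namespace DomAux

/-- an embedding over `B` with prescribed values on a transcendence basis -/
theorem ext_hom {B E Ω ι : Type*} [Field B] [Field E] [Algebra B E] [Field Ω] [Algebra B Ω]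
    [IsAlgClosed Ω] {s : ι → E} (hs : IsTranscendenceBasis B s) {X : ι → Ω}
    (hX : AlgebraicIndependent B X) : ∃ φ : E →ₐ[B] Ω, ∀ i, φ (s i) = X i := by
  classical
  letI : Algebra (MvPolynomial ι B) E := (MvPolynomial.aeval s).toAlgebra
  letI : Algebra (MvPolynomial ι B) Ω := (MvPolynomial.aeval X).toAlgebra
  have hE : Function.Injective (algebraMap (MvPolynomial ι B) E) := hs.1
  have hΩ : Function.Injective (algebraMap (MvPolynomial ι B) Ω) := hX
  haveI : FaithfulSMul (MvPolynomial ι B) E := (faithfulSMul_iff_algebraMap_injective _ _).2 hE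
  haveI : FaithfulSMul (MvPolynomial ι B) Ω := (faithfulSMul_iff_algebraMap_injective _ _).2 hΩ
  haveI : Module.IsTorsionFree (MvPolynomial ι B) E := inferInstance
  haveI : Module.IsTorsionFree (MvPolynomial ι B) Ω := inferInstance
  haveI : Algebra.IsAlgebraic (MvPolynomial ι B) E := by
    haveI := hs.isAlgebraic
    exact Algebra.IsAlgebraic.of_ringHom_of_comp_eq hs.1.aevalEquiv (RingHom.id E)
      hs.1.aevalEquiv.surjective Function.injective_id (RingHom.ext fun p => rfl)
  let φ : E →ₐ[MvPolynomial ι B] Ω := IsAlgClosed.lift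
  have hφ : ∀ p : MvPolynomial ι B, φ (MvPolynomial.aeval s p) = MvPolynomial.aeval X p :=
    fun p => φ.commutes p
  refine ⟨{ φ.toRingHom with commutes' := fun b => ?_ }, fun i => ?_⟩
  · have h := hφ (MvPolynomial.C b)
    rw [MvPolynomial.aeval_C, MvPolynomial.aeval_C] at h
    exact h
  · have h := hφ (MvPolynomial.X i)
    rw [MvPolynomial.aeval_X, MvPolynomial.aeval_X] at h
    exact h

theorem main {B E Ω κ ι : Type*} [Field B] [CharZero B] [Field E] [Algebra B E] [Fintype ι]
    [Field Ω] [Algebra B Ω] [IsAlgClosed Ω] [Field κ] [Algebra B κ] [Algebra κ Ω]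
    [IsScalarTower B κ Ω] (hE : ClosedIn B E) {s : ι → E} (hs : IsTranscendenceBasis B s)
    {X : ι → Ω} (hX : AlgebraicIndependent κ X) : IsDomain (κ ⊗[B] E) := by
  haveI : CharZero κ := charZero_of_injective_algebraMap (algebraMap B κ).injective
  have hXB : AlgebraicIndependent B X := hX.restrictScalars (algebraMap B κ).injective
  obtain ⟨φ, hφ⟩ := ext_hom hs hXB
  letI : Algebra E Ω := φ.toRingHom.toAlgebra
  haveI : IsScalarTower B E Ω := IsScalarTower.of_algebraMap_eq fun b => (φ.commutes b).symm
  have hsL : AlgebraicIndependent κ (fun i => algebraMap E Ω (s i)) := by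
    have : (fun i => algebraMap E Ω (s i)) = X := funext hφ
    rw [this]
    exact hX
  let e := Module.Basis.ofVectorSpace B E
  have hli : LinearIndependent κ (fun g => algebraMap E Ω (e g)) :=
    linInd_right hE hs hsL e.linearIndependent
  let f : κ ⊗[B] E →ₐ[κ] Ω := Algebra.TensorProduct.lift (Algebra.ofId κ Ω) φ
    (fun _ _ => Commute.all _ _)
  let b := Algebra.TensorProduct.basis κ e
  have key : f.toLinearMap =
      Finsupp.linearCombination κ (fun g => algebraMap E Ω (e g)) ∘ₗ b.repr.toLinearMap := by
    apply b.ext
    intro i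
    have h1 : b.repr (b i) = Finsupp.single i 1 := b.repr_self i
    rw [LinearMap.comp_apply, LinearEquiv.coe_coe, h1, Finsupp.linearCombination_single, one_smul]
    have h2 : b i = 1 ⊗ₜ e i := Algebra.TensorProduct.basis_apply e i
    rw [h2, AlgHom.toLinearMap_apply, Algebra.TensorProduct.lift_tmul, map_one, one_mul]
    rfl
  have hf : Function.Injective f := by
    intro x y hxy
    have h1 : f.toLinearMap x = f.toLinearMap y := hxy
    rw [key, LinearMap.comp_apply, LinearMap.comp_apply] at h1
    exact b.repr.injective (hli h1)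
  exact hf.isDomain f.toRingHom

end DomAux

theorem isDomain_tensor {B E ι : Type*} [Field B] [CharZero B] [Field E] [Algebra B E] [Fintype ι]
    (hE : ClosedIn B E) {s : ι → E} (hs : IsTranscendenceBasis B s) (κ : Type*) [Field κ]
    [Algebra B κ] : IsDomain (κ ⊗[B] E) := by
  have hX : AlgebraicIndependent κ (fun i : ι => algebraMap (MvPolynomial ι κ)
      (AlgebraicClosure (FractionRing (MvPolynomial ι κ))) (MvPolynomial.X i)) := by
    have h1 : AlgebraicIndependent κ (MvPolynomial.X : ι → MvPolynomial ι κ) :=
      MvPolynomial.algebraicIndependent_X ι κ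
    have hinj : Function.Injective (algebraMap (MvPolynomial ι κ)
        (AlgebraicClosure (FractionRing (MvPolynomial ι κ)))) := by
      rw [IsScalarTower.algebraMap_eq (MvPolynomial ι κ) (FractionRing (MvPolynomial ι κ))
        (AlgebraicClosure (FractionRing (MvPolynomial ι κ)))]
      exact (algebraMap (FractionRing (MvPolynomial ι κ)) _).injective.comp
        (IsFractionRing.injective (MvPolynomial ι κ) (FractionRing (MvPolynomial ι κ)))
    exact h1.map' (f := IsScalarTower.toAlgHom κ (MvPolynomial ι κ)
      (AlgebraicClosure (FractionRing (MvPolynomial ι κ))))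
      hinj
  exact DomAux.main hE hs hX

end Pf72953.Fib
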