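import Mathlib
import Pool.Agent.Lib.Pf72953f.Dom

/-!
MODULE Pf72953f.GaussT: the Gauss valuation on `C ⊗_B E` extending a valuation `v` of `C` trivial on `B`.

PROOF.  Let `b` be a basis of `E/B` (`Module.Basis.ofVectorSpace B E`), `bC := Algebra.TensorProduct.basis C b`, the
`C`-basis `1 ⊗ b_i` of `C ⊗ E`.  Put `W P := sup_i v (bC.repr P i)` (a finite sup over the support, `Finset.sup` in
`ℤᵐ⁰` with bottom `0`).  Clear: `W (P + Q) ≤ max`, `W P = 0` iff `P = 0`, `W (c • P) = v c * W P`, `W 1 = 1` and
`W (c ⊗ e) = v c` for `e ≠ 0` (coordinates of `e` are in `B`, of value `1` or `0`), `W P` is a value of `v`.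
`W (P Q) ≤ W P * W Q`: expand, `b_i b_j` has coordinates in `B`.
`W (P Q) ≥ W P * W Q`: one may assume `P, Q ≠ 0` and, dividing by elements of `C`, that `W P = W Q = 1`.  Let `O := v.valuationSubring`,
`κ` its residue field; `B` maps to `O` and `κ`.  The coordinates of `P` are in `O`, one of them is a unit, so the element
`P' := ∑_i residue (p_i) ⊗ b_i` of `κ ⊗ E` is not zero, and `Q'` as well; `κ ⊗ E` is a domain (`isDomain_tensor`), so
`P' Q' ≠ 0`; but `P' Q'` is the reduction of `P Q` (all coordinates of `P Q` are in `O`; use the ring `O ⊗ E` with its maps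
to `C ⊗ E` (injective: basis) and `κ ⊗ E`, or just compare coordinates: both are given by the structure constants of `b`), so
some coordinate of `P Q` has value `1`.
The third property: if `e : Fin n → E` is independent over `B` and `P = ∑_a c_a ⊗ e_a` then every `c_a` is a `B`-linear
combination of the coordinates of `P`: there is a `B`-linear functional `λ` on `E` with `λ(e_a) = 1`, `λ(e_{a'}) = 0` (extend
the independent family to a basis, or `LinearIndependent.repr` and `LinearMap.exists_extend`), and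
`c_a = ∑_i p_i λ(b_i)`, so `v (c_a) ≤ max_i v (p_i)`.
-/

set_option autoImplicit false

open scoped WithZero TensorProduct

namespace Pf72953.Fib

namespace GaussTAux

section

variable {B E I : Type*} [Field B] [Field E] [Algebra B E] (b : Module.Basis I B E)

theorem repr_tmul {R : Type*} [CommRing R] [Algebra B R] (r : R) (e : E) (i : I) :
    (Algebra.TensorProduct.basis R b).repr (r ⊗ₜ[B] e) i = r * algebraMap B R (b.repr e i) := by
  rw [Algebra.TensorProduct.basis_repr_tmul, Finsupp.smul_apply, Finsupp.mapRange_apply,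
    smul_eq_mul]

theorem repr_map {R S : Type*} [CommRing R] [CommRing S] [Algebra B R] [Algebra B S]
    (f : R →ₐ[B] S) (P : R ⊗[B] E) (i : I) :
    (Algebra.TensorProduct.basis S b).repr (Algebra.TensorProduct.map f (AlgHom.id B E) P) i =
      f ((Algebra.TensorProduct.basis R b).repr P i) := by
  induction P using TensorProduct.induction_on with
  | zero => simp
  | tmul r e =>
    rw [Algebra.TensorProduct.map_tmul, repr_tmul, repr_tmul, map_mul, AlgHom.commutes]
    rfl
  | add x y hx hy =>
    rw [map_add, map_add, map_add, Finsupp.add_apply, Finsupp.add_apply, map_add, hx, hy]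

variable {C : Type*} [Field C] [Algebra B C] (v : Valuation C ℤᵐ⁰)

/-- the Gauss norm -/
noncomputable def w (P : C ⊗[B] E) : ℤᵐ⁰ :=
  ((Algebra.TensorProduct.basis C b).repr P).support.sup
    fun i => v ((Algebra.TensorProduct.basis C b).repr P i)

theorem w_le {P : C ⊗[B] E} {γ : ℤᵐ⁰} :
    w b v P ≤ γ ↔ ∀ i, v ((Algebra.TensorProduct.basis C b).repr P i) ≤ γ := by
  rw [w, Finset.sup_le_iff]
  constructor
  · intro h i
    by_cases hi : i ∈ ((Algebra.TensorProduct.basis C b).repr P).support
    · exact h i hi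
    · rw [Finsupp.notMem_support_iff] at hi
      rw [hi, map_zero]
      exact zero_le
  · intro h i _
    exact h i

theorem le_w (P : C ⊗[B] E) (i : I) :
    v ((Algebra.TensorProduct.basis C b).repr P i) ≤ w b v P := (w_le b v).1 le_rfl i

theorem exists_eq {P : C ⊗[B] E} (hP : P ≠ 0) :
    ∃ i, (Algebra.TensorProduct.basis C b).repr P i ≠ 0 ∧
      w b v P = v ((Algebra.TensorProduct.basis C b).repr P i) := by
  have h1 : ((Algebra.TensorProduct.basis C b).repr P).support.Nonempty := by
    rw [Finsupp.support_nonempty_iff]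
    intro h
    exact hP ((Algebra.TensorProduct.basis C b).repr.map_eq_zero_iff.1 h)
  obtain ⟨i, hi, h⟩ := Finset.exists_mem_eq_sup _ h1
    (fun i => v ((Algebra.TensorProduct.basis C b).repr P i))
  exact ⟨i, Finsupp.mem_support_iff.1 hi, h⟩

theorem w_zero : w b v (0 : C ⊗[B] E) = 0 := by
  apply le_antisymm _ zero_le
  rw [w_le]
  intro i
  simp

theorem w_ne_zero {P : C ⊗[B] E} (hP : P ≠ 0) : w b v P ≠ 0 := by
  obtain ⟨i, hi, h⟩ := exists_eq b v hP
  rw [h]
  exact (Valuation.ne_zero_iff v).2 hi

theorem w_smul (c : C) (P : C ⊗[B] E) : w b v (c • P) = v c * w b v P := by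
  by_cases hP : P = 0
  · rw [hP, smul_zero, w_zero, mul_zero]
  · apply le_antisymm
    · rw [w_le]
      intro i
      rw [map_smul, Finsupp.smul_apply, smul_eq_mul, map_mul]
      exact mul_le_mul_right (le_w b v P i) _
    · obtain ⟨i, hi, h⟩ := exists_eq b v hP
      rw [h, ← map_mul]
      have := le_w b v (c • P) i
      rwa [map_smul, Finsupp.smul_apply, smul_eq_mul] at this

theorem w_add (P Q : C ⊗[B] E) : w b v (P + Q) ≤ max (w b v P) (w b v Q) := by
  rw [w_le]
  intro i
  rw [map_add, Finsupp.add_apply]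
  refine (v.map_add _ _).trans (max_le_max (le_w b v P i) (le_w b v Q i))

theorem w_tmul (hv : ∀ x : B, x ≠ 0 → v (algebraMap B C x) = 1) (c : C) {e : E} (he : e ≠ 0) :
    w b v (c ⊗ₜ[B] e) = v c := by
  apply le_antisymm
  · rw [w_le]
    intro i
    rw [repr_tmul, map_mul]
    by_cases h0 : b.repr e i = 0
    · rw [h0, map_zero, map_zero, mul_zero]
      exact zero_le
    · rw [hv _ h0, mul_one]
  · obtain ⟨i, hi⟩ : ∃ i, b.repr e i ≠ 0 := by
      by_contra hc
      push Not at hc
      exact he (b.repr.map_eq_zero_iff.1 (Finsupp.ext hc))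
    have := le_w b v (c ⊗ₜ[B] e) i
    rwa [repr_tmul, map_mul, hv _ hi, mul_one] at this

theorem w_indep (hv : ∀ x : B, x ≠ 0 → v (algebraMap B C x) = 1) {n : ℕ} {e : Fin n → E}
    (he : LinearIndependent B e) (c : Fin n → C) (a : Fin n) :
    v (c a) ≤ w b v (∑ a, c a ⊗ₜ[B] e a) := by
  obtain ⟨g, hg⟩ := LinearMap.exists_extend he.repr
  have hge : ∀ a', g (e a') = Finsupp.single a' 1 := by
    intro a'
    have h1 : e a' ∈ Submodule.span B (Set.range e) := Submodule.subset_span ⟨a', rfl⟩
    have h2 := LinearMap.congr_fun hg ⟨e a', h1⟩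
    rw [LinearMap.comp_apply, Submodule.subtype_apply] at h2
    rw [h2]
    exact he.repr_eq_single a' _ rfl
  set l : E →ₗ[B] B := (Finsupp.lapply a).comp g with hl
  set L : C ⊗[B] E →ₗ[C] C :=
    (TensorProduct.AlgebraTensorModule.rid B C C).toLinearMap.comp (l.baseChange C) with hL
  have hLt : ∀ (x : C) (y : E), L (x ⊗ₜ y) = algebraMap B C (l y) * x := by
    intro x y
    rw [hL, LinearMap.comp_apply, LinearMap.baseChange_tmul]
    simp [Algebra.smul_def]
  have h1 : L (∑ a, c a ⊗ₜ[B] e a) = c a := by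
    rw [map_sum, Finset.sum_eq_single a]
    · rw [hLt, hl, LinearMap.comp_apply, hge, Finsupp.lapply_apply, Finsupp.single_eq_same,
        map_one, one_mul]
    · intro a' _ ha'
      rw [hLt, hl, LinearMap.comp_apply, hge, Finsupp.lapply_apply,
        Finsupp.single_eq_of_ne (Ne.symm ha'), map_zero, zero_mul]
    · simp
  set P := ∑ a, c a ⊗ₜ[B] e a with hP
  have h2 : L P = ((Algebra.TensorProduct.basis C b).repr P).sum fun i x =>
      x * algebraMap B C (l (b i)) := by
    conv_lhs => rw [← (Algebra.TensorProduct.basis C b).linearCombination_repr P]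
    rw [Finsupp.linearCombination_apply, Finsupp.sum, map_sum, Finsupp.sum]
    refine Finset.sum_congr rfl fun i _ => ?_
    rw [map_smul, Algebra.TensorProduct.basis_apply, hLt, mul_one, smul_eq_mul]
  rw [← h1, h2, Finsupp.sum]
  refine v.map_sum_le fun i _ => ?_
  rw [map_mul]
  by_cases h0 : l (b i) = 0
  · rw [h0, map_zero, map_zero, mul_zero]
    exact zero_le
  · rw [hv _ h0, mul_one]
    exact le_w b v P i

/-- the structure map `B → O` -/
noncomputable def toO (hv : ∀ x : B, x ≠ 0 → v (algebraMap B C x) = 1) :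
    B →+* v.valuationSubring :=
  (algebraMap B C).codRestrict v.valuationSubring fun x => by
    rw [Valuation.mem_valuationSubring_iff]
    by_cases h : x = 0
    · rw [h, map_zero, map_zero]; exact zero_le_one
    · rw [hv x h]

theorem isUnit_iff (x : v.valuationSubring) : IsUnit x ↔ v (x : C) = 1 := by
  constructor
  · rintro ⟨u, rfl⟩
    have h1 : v ((u : v.valuationSubring) : C) ≤ 1 :=
      (v.mem_valuationSubring_iff _).1 (u : v.valuationSubring).2
    have h2 : v (((u⁻¹ : v.valuationSubringˣ) : v.valuationSubring) : C) ≤ 1 :=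
      (v.mem_valuationSubring_iff _).1 ((u⁻¹ : v.valuationSubringˣ) : v.valuationSubring).2
    have h3 : ((u : v.valuationSubring) : C) *
        (((u⁻¹ : v.valuationSubringˣ) : v.valuationSubring) : C) = 1 := by
      have := u.mul_inv
      exact_mod_cast congrArg (Subtype.val) this
    have h4 := congrArg v h3
    rw [map_mul, map_one] at h4
    apply le_antisymm h1
    rw [← h4]
    exact mul_le_of_le_one_right' h2
  · intro h
    have h0 : (x : C) ≠ 0 := by
      intro h0
      rw [h0, map_zero] at h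
      exact zero_ne_one h
    have h1 : (x : C)⁻¹ ∈ v.valuationSubring := by
      rw [Valuation.mem_valuationSubring_iff, map_inv₀, h, inv_one]
    exact IsUnit.of_mul_eq_one ⟨(x : C)⁻¹, h1⟩ (Subtype.ext (mul_inv_cancel₀ h0))

end

theorem w_mul_aux {B C E I ι O κ : Type*} [Field B] [CharZero B] [Field C] [Field E] [Algebra B C]
    [Algebra B E] [Fintype ι] (hE : ClosedIn B E) {s : ι → E} (hs : IsTranscendenceBasis B s)
    {v : Valuation C ℤᵐ⁰} [CommRing O] [Field κ] [Algebra B O] [Algebra B κ]
    (f : O →ₐ[B] C) (g : O →ₐ[B] κ) (hf : ∀ x : C, v x ≤ 1 → ∃ y, f y = x)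
    (hf' : ∀ y, v (f y) ≤ 1) (hg : ∀ y, v (f y) = 1 ↔ g y ≠ 0)
    (b : Module.Basis I B E) {P Q : C ⊗[B] E} (hP : w b v P = 1) (hQ : w b v Q = 1) :
    w b v (P * Q) = 1 := by
  have : IsDomain (κ ⊗[B] E) := isDomain_tensor hE hs κ
  -- lifting
  have lift : ∀ P : C ⊗[B] E, w b v P ≤ 1 →
      ∃ P' : O ⊗[B] E, Algebra.TensorProduct.map f (AlgHom.id B E) P' = P := by
    intro P hP
    have h1 := (w_le b v).1 hP
    choose y hy using fun i => hf _ (h1 i)
    refine ⟨∑ i ∈ ((Algebra.TensorProduct.basis C b).repr P).support, y i ⊗ₜ b i, ?_⟩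
    rw [map_sum]
    conv_rhs => rw [← (Algebra.TensorProduct.basis C b).linearCombination_repr P]
    rw [Finsupp.linearCombination_apply, Finsupp.sum]
    refine Finset.sum_congr rfl fun i _ => ?_
    rw [Algebra.TensorProduct.map_tmul, Algebra.TensorProduct.basis_repr_symm_apply', hy]
    rfl
  have bound : ∀ P' : O ⊗[B] E,
      w b v (Algebra.TensorProduct.map f (AlgHom.id B E) P') ≤ 1 := by
    intro P'
    rw [w_le]
    intro i
    rw [repr_map]
    exact hf' _
  have red : ∀ P' : O ⊗[B] E, w b v (Algebra.TensorProduct.map f (AlgHom.id B E) P') = 1 ↔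
      Algebra.TensorProduct.map g (AlgHom.id B E) P' ≠ 0 := by
    intro P'
    constructor
    · intro h h0
      have hne : Algebra.TensorProduct.map f (AlgHom.id B E) P' ≠ 0 := by
        intro h1
        rw [h1, w_zero] at h
        exact zero_ne_one h
      obtain ⟨i, _, hi⟩ := exists_eq b v hne
      rw [h, repr_map] at hi
      have h2 := (hg _).1 hi.symm
      have h3 := repr_map b g P' i
      rw [h0, map_zero, Finsupp.zero_apply] at h3
      exact h2 h3.symm
    · intro h
      apply le_antisymm (bound P')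
      obtain ⟨i, hi⟩ : ∃ i, (Algebra.TensorProduct.basis κ b).repr
          (Algebra.TensorProduct.map g (AlgHom.id B E) P') i ≠ 0 := by
        by_contra hc
        push Not at hc
        exact h ((Algebra.TensorProduct.basis κ b).repr.map_eq_zero_iff.1 (Finsupp.ext hc))
      rw [repr_map] at hi
      have h2 := (hg _).2 hi
      have h3 := le_w b v (Algebra.TensorProduct.map f (AlgHom.id B E) P') i
      rw [repr_map] at h3
      rw [← h2]
      exact h3
  obtain ⟨P', rfl⟩ := lift P hP.le
  obtain ⟨Q', rfl⟩ := lift Q hQ.le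
  rw [← map_mul, red, map_mul]
  exact mul_ne_zero ((red P').1 hP) ((red Q').1 hQ)

theorem w_mul_one {B C E I ι : Type*} [Field B] [CharZero B] [Field C] [Field E] [Algebra B C]
    [Algebra B E] [Fintype ι] (hE : ClosedIn B E) {s : ι → E} (hs : IsTranscendenceBasis B s)
    {v : Valuation C ℤᵐ⁰} (hv : ∀ b : B, b ≠ 0 → v (algebraMap B C b) = 1)
    (b : Module.Basis I B E) {P Q : C ⊗[B] E} (hP : w b v P = 1) (hQ : w b v Q = 1) :
    w b v (P * Q) = 1 := by
  let _ : Algebra B v.valuationSubring := (toO v hv).toAlgebra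
  let f : v.valuationSubring →ₐ[B] C :=
    { toRingHom := v.valuationSubring.subtype
      commutes' := fun x => rfl }
  let g : v.valuationSubring →ₐ[B] IsLocalRing.ResidueField v.valuationSubring :=
    { toRingHom := IsLocalRing.residue v.valuationSubring
      commutes' := fun x => rfl }
  refine w_mul_aux hE hs f g ?_ ?_ ?_ b hP hQ
  · intro x hx
    exact ⟨⟨x, (v.mem_valuationSubring_iff _).2 hx⟩, rfl⟩
  · intro y
    exact (v.mem_valuationSubring_iff _).1 y.2
  · intro y
    exact (isUnit_iff v y).symm.trans (IsLocalRing.residue_ne_zero_iff_isUnit y).symm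

end GaussTAux

open GaussTAux in
theorem exists_gaussT {B C E ι : Type*} [Field B] [CharZero B] [Field C] [Field E] [Algebra B C]
    [Algebra B E] [Fintype ι] (hE : ClosedIn B E) {s : ι → E} (hs : IsTranscendenceBasis B s)
    {v : Valuation C ℤᵐ⁰} (hv : ∀ b : B, b ≠ 0 → v (algebraMap B C b) = 1) :
    ∃ W : Valuation (C ⊗[B] E) ℤᵐ⁰,
      (∀ (c : C) (e : E), e ≠ 0 → W (c ⊗ₜ e) = v c) ∧
      (∀ (n : ℕ) (e : Fin n → E), LinearIndependent B e → ∀ (c : Fin n → C) (a : Fin n),
        v (c a) ≤ W (∑ a, c a ⊗ₜ[B] e a)) ∧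
      (∀ P, P ≠ 0 → W P ≠ 0) ∧ (∀ P, ∃ c : C, W P = v c) := by
  classical
  set b := Module.Basis.ofVectorSpace B E with hb
  have hmul : ∀ P Q : C ⊗[B] E, w b v (P * Q) = w b v P * w b v Q := by
    intro P Q
    by_cases hP : P = 0
    · rw [hP, zero_mul, w_zero, zero_mul]
    by_cases hQ : Q = 0
    · rw [hQ, mul_zero, w_zero, mul_zero]
    obtain ⟨i, hi, hPi⟩ := exists_eq b v hP
    obtain ⟨j, hj, hQj⟩ := exists_eq b v hQ
    set c := (Algebra.TensorProduct.basis C b).repr P i with hc
    set d := (Algebra.TensorProduct.basis C b).repr Q j with hd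
    have hvc : v c ≠ 0 := (Valuation.ne_zero_iff v).2 hi
    have hvd : v d ≠ 0 := (Valuation.ne_zero_iff v).2 hj
    have h1 : w b v (c⁻¹ • P) = 1 := by
      rw [w_smul, hPi, map_inv₀, inv_mul_cancel₀ hvc]
    have h2 : w b v (d⁻¹ • Q) = 1 := by
      rw [w_smul, hQj, map_inv₀, inv_mul_cancel₀ hvd]
    have h3 := w_mul_one hE hs hv b h1 h2
    rw [smul_mul_smul_comm, w_smul, map_mul, map_inv₀, map_inv₀, ← mul_inv] at h3
    rw [hPi, hQj]
    exact (inv_mul_eq_one₀ (mul_ne_zero hvc hvd)).1 h3 |>.symm
  refine ⟨{ toFun := w b v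
            map_zero' := w_zero b v
            map_one' := ?_
            map_mul' := hmul
            map_add_le_max' := w_add b v }, ?_, ?_, ?_, ?_⟩
  · have := w_tmul b v hv 1 (one_ne_zero : (1 : E) ≠ 0)
    rw [map_one] at this
    exact this
  · intro c e he
    exact w_tmul b v hv c he
  · intro n e he c a
    exact w_indep b v hv he c a
  · intro P hP
    exact w_ne_zero b v hP
  · intro P
    by_cases hP : P = 0
    · exact ⟨0, by rw [hP, map_zero, map_zero]⟩
    · obtain ⟨i, hi, h⟩ := exists_eq b v hP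
      exact ⟨_, h⟩

end Pf72953.Fib
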