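import Mathlib
import Pool.Agent.Lib.Pf72953f.GaussT
import Pool.Agent.Lib.Pf72953f.ExtV
import Pool.Agent.Lib.Pf72953f.CompL

/-!
MODULE Pf72953f.GaussL: the Gauss valuation on a compositum.

PROOF.  apply `exists_ext` to `pmap B C E L` (injective by `Comp.inj`, fractions by `Comp.frac`) and to the
valuation of `exists_gaussT`; `pmap (c ⊗ 1) = c`, `pmap (1 ⊗ e) = e`.  For the last property: `z = pmap p / pmap q`,
`W z = v c / v c' = v (c / c')`.
-/

set_option autoImplicit false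

open scoped WithZero TensorProduct

namespace Pf72953.Fib

variable {B C E L ι : Type*} [Field B] [CharZero B] [Field C] [CharZero C] [Field E] [Field L]
  [Algebra B C] [Algebra B E] [Algebra B L] [Algebra C L] [Algebra E L] [IsScalarTower B C L]
  [IsScalarTower B E L] [Fintype ι] [Algebra.EssFiniteType B L]

theorem Comp.exists_gauss (h : Comp B C E L) (hE : ClosedIn B E) {s : ι → E}
    (hs : IsTranscendenceBasis B s) {v : Valuation C ℤᵐ⁰}
    (hv : ∀ b : B, b ≠ 0 → v (algebraMap B C b) = 1) :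
    ∃ W : Valuation L ℤᵐ⁰, (∀ c, W (algebraMap C L c) = v c) ∧
      (∀ e : E, e ≠ 0 → W (algebraMap E L e) = 1) ∧
      (∀ (n : ℕ) (e : Fin n → E), LinearIndependent B e → ∀ (c : Fin n → C) (a : Fin n),
        v (c a) ≤ W (∑ a, algebraMap C L (c a) * algebraMap E L (e a))) ∧
      (∀ z : L, ∃ c : C, W z = v c) := by
  obtain ⟨W₀, h1, h2, h3, h4⟩ := exists_gaussT (C := C) hE hs hv
  obtain ⟨W, hW⟩ := exists_ext ((pmap B C E L : C ⊗[B] E →ₐ[B] L) : C ⊗[B] E →+* L)
    (h.inj hE hs) h.frac W₀ h3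
  have hW' : ∀ p : C ⊗[B] E, W (pmap B C E L p) = W₀ p := hW
  have ht : ∀ (c : C) (e : E), W (algebraMap C L c * algebraMap E L e) = W₀ (c ⊗ₜ e) := by
    intro c e
    rw [← pmap_tmul B C E L, hW']
  refine ⟨W, fun c => ?_, fun e he => ?_, fun n e he c a => ?_, fun z => ?_⟩
  · have h5 := ht c 1
    rw [map_one, mul_one, h1 c 1 one_ne_zero] at h5
    exact h5
  · have h5 := ht 1 e
    rw [map_one, one_mul, h1 1 e he, map_one] at h5
    exact h5
  · have h5 : W (∑ a, algebraMap C L (c a) * algebraMap E L (e a)) =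
        W₀ (∑ a, c a ⊗ₜ[B] e a) := by
      rw [← hW', map_sum (pmap B C E L)]
      simp only [pmap_tmul]
    rw [h5]
    exact h2 n e he c a
  · obtain ⟨p, q, hq, rfl⟩ := h.frac z
    obtain ⟨c, hc⟩ := h4 p
    obtain ⟨c', hc'⟩ := h4 q
    refine ⟨c / c', ?_⟩
    rw [map_div₀, map_div₀, hW', hW', hc, hc']

end Pf72953.Fib
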