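import Mathlib
import Pool.Agent.Lib.Pf72953f.GaussL

/-!
MODULE Pf72953f.Coefs: the coefficients of a regular form on a compositum are regular.

PROOF.  let `v` be divisorial on `C/B` and `c₀` a regular basis of `v`.  Take an adapted system `(c₁, t)`
(`IsDivisorial.exists_adapted`, index type `ιC`, `card_eq_of_isTranscendenceBasis`), `t` a uniformizer, and `W` from
`Comp.exists_gauss` (`v` is trivial on `B`).  Write `c₁ = (t, x)` reindexed, `x` residually independent.
CLAIM: `(x, s)` is residually independent over `B` for `W` (in `L`): a nonzero polynomial `p(X, S)` over `B` is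
`∑_β p_β(X) S^β`, `p(x, s) = ∑_β p_β(x) s^β`; the monomials `s^β` are `B`-independent in `E` (`hs.1`), some `p_β ≠ 0` has
`v (p_β(x)) = 1`, so `W (p(x,s)) ≥ 1` by the third property, and `≤ 1` as all terms have value `≤ 1`.
So `Sum.elim c₁ s` (mapped to `L`) is adapted for `W` with `W t = v t < 1`, and `t` is a uniformizer of `W` by the last
property; so it is a regular basis (`Adapted.regBasis`, with `Comp.tbSum` and `card_eq_of_isTranscendenceBasis` for the
cardinality) and `W` is divisorial over `B` (`const`, `nontrivial`: `t`; `resid`: reindex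
`(x, s)`, `dimension B L - 1` elements; cf. `IsDivisorial.of_comap`).  Then `hf W _ _` gives
`W f * W (jac (c₁ ⊕ s) (z ⊕ s)) ^ m ≤ 1`, and `jac (c₁ ⊕ s) (z ⊕ s) = jac c₁ z * jac s s = jac c₁ z` (`jac_sum`, `jac_self`), so
`v (c a) * v (jac c₁ z) ^ m ≤ 1`.  Finally `jac c₀ z = jac c₀ c₁ * jac c₁ z` (`jac_chain`) and `v (jac c₀ c₁) ≤ 1`
(`RegBasis.jac_le`, `Adapted.le_one`).
-/

set_option autoImplicit false

open scoped WithZero TensorProduct

namespace Pf72953.Fib

namespace CoefsAux

/-- `Option α ⊕ β ≃ Option (α ⊕ β)` -/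
def optSum (α β : Type*) : Option α ⊕ β ≃ Option (α ⊕ β) where
  toFun := Sum.elim (fun o => o.elim none fun a => some (Sum.inl a)) (fun b => some (Sum.inr b))
  invFun o := o.elim (Sum.inl none) (Sum.elim (fun a => Sum.inl (some a)) (fun b => Sum.inr b))
  left_inv := by rintro ((_ | a) | b) <;> rfl
  right_inv := by rintro (_ | (a | b)) <;> rfl

theorem resIndep_reindex {k K ι κ : Type*} [Field k] [Field K] [Algebra k K]
    {w : Valuation K ℤᵐ⁰} {x : ι → K} (hx : ResIndep k w x) (e : κ ≃ ι) :
    ResIndep k w (x ∘ e) := by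
  intro p hp
  have h1 : MvPolynomial.aeval (x ∘ e) p = MvPolynomial.aeval x (MvPolynomial.rename e p) := by
    rw [MvPolynomial.aeval_rename]
  rw [h1]
  refine hx _ fun h0 => hp ?_
  apply MvPolynomial.rename_injective e e.injective
  rw [h0, map_zero]

section

variable {B C E L ι : Type*} [Field B] [Field C] [Field E] [Field L]
  [Algebra B C] [Algebra B E] [Algebra B L] [Algebra C L] [Algebra E L] [IsScalarTower B C L]
  [IsScalarTower B E L] [Fintype ι]

omit [Algebra B L] [Algebra C L] [Algebra E L] [IsScalarTower B C L] [IsScalarTower B E L]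
  [Field C] [Field L] [Algebra B C] in
theorem linInd_monomial {s : ι → E} (hs : AlgebraicIndependent B s) :
    LinearIndependent B (fun d : ι →₀ ℕ => ∏ i, s i ^ d i) := by
  have h1 := (MvPolynomial.basisMonomials ι B).linearIndependent
  have h2 := h1.map' (MvPolynomial.aeval s : MvPolynomial ι B →ₐ[B] E).toLinearMap
    (LinearMap.ker_eq_bot.2 hs)
  have e : (fun d : ι →₀ ℕ => ∏ i, s i ^ d i) =
      (MvPolynomial.aeval s : MvPolynomial ι B →ₐ[B] E).toLinearMap ∘
        (MvPolynomial.basisMonomials ι B) := by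
    funext d
    simp only [Function.comp_apply, MvPolynomial.coe_basisMonomials, AlgHom.toLinearMap_apply,
      MvPolynomial.aeval_monomial, map_one, one_mul]
    rw [Finsupp.prod_fintype]
    intro i
    exact pow_zero _
  rw [e]
  exact h2

omit [Algebra B E] [IsScalarTower B E L] in
theorem aeval_sum_eq {r : ℕ} (x : Fin r → C) (s : ι → E) (p : MvPolynomial (Fin r ⊕ ι) B) :
    MvPolynomial.aeval (Sum.elim (fun i => algebraMap C L (x i))
      (fun j => algebraMap E L (s j))) p =
    ∑ d ∈ (MvPolynomial.sumAlgEquiv B ι (Fin r) (MvPolynomial.rename Sum.swap p)).support,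
      algebraMap C L (MvPolynomial.aeval x
        ((MvPolynomial.sumAlgEquiv B ι (Fin r) (MvPolynomial.rename Sum.swap p)).coeff d)) *
        algebraMap E L (∏ i, s i ^ d i) := by
  have h1 : (MvPolynomial.aeval (Sum.elim (fun i => algebraMap C L (x i))
      (fun j => algebraMap E L (s j))) : MvPolynomial (Fin r ⊕ ι) B →ₐ[B] L).toRingHom =
      (MvPolynomial.eval₂Hom (MvPolynomial.aeval (fun i => algebraMap C L (x i)) :
        MvPolynomial (Fin r) B →ₐ[B] L).toRingHom (fun j => algebraMap E L (s j))).comp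
        ((MvPolynomial.sumAlgEquiv B ι (Fin r)).toAlgHom.toRingHom.comp
          (MvPolynomial.rename Sum.swap : MvPolynomial (Fin r ⊕ ι) B →ₐ[B]
            MvPolynomial (ι ⊕ Fin r) B).toRingHom) := by
    refine MvPolynomial.ringHom_ext (fun b => ?_) (fun i => ?_)
    · simp
    · rcases i with i | j
      · simp
      · simp
  have h2 := congrArg (fun f => f p) h1
  simp only [RingHom.comp_apply] at h2
  refine h2.trans ?_
  refine (MvPolynomial.eval₂_eq' _ _ _).trans ?_
  refine Finset.sum_congr rfl fun d _ => ?_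
  congr 1
  · exact MvPolynomial.aeval_algebraMap_apply _ x _
  · rw [map_prod]
    simp only [map_pow]

omit [IsScalarTower B E L] in
theorem resIndep_sum {s : ι → E} (hs : IsTranscendenceBasis B s) {v : Valuation C ℤᵐ⁰}
    {W : Valuation L ℤᵐ⁰} (hWC : ∀ c, W (algebraMap C L c) = v c)
    (hWE : ∀ e : E, e ≠ 0 → W (algebraMap E L e) = 1)
    (hWlow : ∀ (n : ℕ) (e : Fin n → E), LinearIndependent B e → ∀ (c : Fin n → C) (a : Fin n),
        v (c a) ≤ W (∑ a, algebraMap C L (c a) * algebraMap E L (e a)))
    {r : ℕ} {x : Fin r → C} (hx : ResIndep B v x) :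
    ResIndep B W (Sum.elim (fun i => algebraMap C L (x i)) (fun j => algebraMap E L (s j))) := by
  intro p hp
  rw [aeval_sum_eq x s p]
  set P := MvPolynomial.sumAlgEquiv B ι (Fin r) (MvPolynomial.rename Sum.swap p) with hP
  have hP0 : P ≠ 0 := by
    intro h0
    rw [hP, EmbeddingLike.map_eq_zero_iff] at h0
    exact hp (MvPolynomial.rename_injective _ Sum.swap_leftInverse.injective
      (h0.trans (map_zero _).symm))
  refine le_antisymm ?_ ?_
  · refine Valuation.map_sum_le _ fun d _ => ?_
    rw [map_mul, hWC]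
    refine mul_le_one' (hx.aeval_le _) ?_
    by_cases h0 : (∏ i, s i ^ d i) = 0
    · rw [h0, map_zero, map_zero]
      exact zero_le_one
    · exact (hWE _ h0).le
  · let f : Fin P.support.card ≃ P.support := P.support.equivFin.symm
    have hsum : ∑ d ∈ P.support, algebraMap C L (MvPolynomial.aeval x (P.coeff d)) *
        algebraMap E L (∏ i, s i ^ d i) = ∑ a : Fin P.support.card,
        algebraMap C L (MvPolynomial.aeval x (P.coeff (f a : ι →₀ ℕ))) *
          algebraMap E L (∏ i, s i ^ (f a : ι →₀ ℕ) i) := by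
      rw [← Finset.sum_coe_sort]
      exact (Equiv.sum_comp f (fun d : P.support =>
        algebraMap C L (MvPolynomial.aeval x (P.coeff (d : ι →₀ ℕ))) *
          algebraMap E L (∏ i, s i ^ (d : ι →₀ ℕ) i))).symm
    rw [hsum]
    have hli : LinearIndependent B (fun a : Fin P.support.card =>
        ∏ i, s i ^ (f a : ι →₀ ℕ) i) :=
      (linInd_monomial hs.1).comp (fun a => (f a : ι →₀ ℕ))
        (Subtype.val_injective.comp f.injective)
    obtain ⟨d, hd⟩ := MvPolynomial.support_nonempty.2 hP0
    have h1 := hWlow _ _ hli (fun a => MvPolynomial.aeval x (P.coeff (f a : ι →₀ ℕ)))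
      (f.symm ⟨d, hd⟩)
    refine le_trans ?_ h1
    simp only [Equiv.apply_symm_apply]
    exact (hx _ (MvPolynomial.mem_support_iff.1 hd)).ge

end

end CoefsAux

variable {B C E L ι ιC : Type*} [Field B] [CharZero B] [Field C] [CharZero C] [Field E] [Field L]
  [Algebra B C] [Algebra B E] [Algebra B L] [Algebra C L] [Algebra E L] [IsScalarTower B C L]
  [IsScalarTower B E L] [Fintype ι] [DecidableEq ι] [Fintype ιC] [DecidableEq ιC]
  [Algebra.EssFiniteType B L]

theorem Comp.mem_WReg_left [Algebra.EssFiniteType B C] (h : Comp B C E L) (hE : ClosedIn B E)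
    {z : ιC → C} (hz : IsTranscendenceBasis B z) {s : ι → E} (hs : IsTranscendenceBasis B s)
    {m n : ℕ} {e : Fin n → E} (he : LinearIndependent B e) {c : Fin n → C}
    (hf : (∑ a, algebraMap C L (c a) * algebraMap E L (e a)) ∈ WReg B
      (Sum.elim (fun i => algebraMap C L (z i)) (fun j => algebraMap E L (s j))) m)
    (a : Fin n) : c a ∈ WReg B z m := by
  intro v hv c₀ hc₀
  have hcard : Fintype.card ιC = dimension B C := card_eq_of_isTranscendenceBasis hz
  obtain ⟨c₁, t, ht, hc₁⟩ := hv.exists_adapted (ι := ιC) hcard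
  have hc₁r : RegBasis B v c₁ := hc₁.regBasis hcard ht
  obtain ⟨W, hWC, hWE, hWlow, hWval⟩ := h.exists_gauss hE hs (v := v) hv.const
  have hcardL : Fintype.card (ιC ⊕ ι) = dimension B L :=
    card_eq_of_isTranscendenceBasis (h.tbSum hz hs)
  have hu : IsUnif W (algebraMap C L t) := by
    refine ⟨by simpa using ht.ne_zero, by rw [hWC]; exact ht.lt_one, fun a ha => ?_⟩
    obtain ⟨b, hb⟩ := hWval a
    rw [hb] at ha ⊢
    rw [hWC]
    exact ht.le b ha
  have hle1 := hc₁.le_one
  obtain ⟨r, e', x, hx, ht0, ht1, hcx⟩ := hc₁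
  have hres := CoefsAux.resIndep_sum hs hWC hWE hWlow hx
  have hr : Fintype.card ιC = r + 1 := by
    rw [Fintype.card_congr e', Fintype.card_option, Fintype.card_fin]
  have hcard2 : Fintype.card (Fin r ⊕ ι) = dimension B L - 1 := by
    rw [← hcardL, Fintype.card_sum, Fintype.card_sum, hr, Fintype.card_fin]
    omega
  have hadapt : Adapted B W (Sum.elim (fun i => algebraMap C L (c₁ i))
      (fun j => algebraMap E L (s j))) (algebraMap C L t) := by
    let f : Fin r ⊕ ι ≃ Fin (dimension B L - 1) := Fintype.equivFinOfCardEq hcard2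
    let E1 : ιC ⊕ ι ≃ Option (Fin r ⊕ ι) :=
      (Equiv.sumCongr e' (Equiv.refl ι)).trans (CoefsAux.optSum (Fin r) ι)
    refine ⟨dimension B L - 1, E1.trans (Equiv.optionCongr f),
      (Sum.elim (fun i => algebraMap C L (x i)) (fun j => algebraMap E L (s j))) ∘ f.symm,
      CoefsAux.resIndep_reindex hres f.symm, by simpa using ht0, by rw [hWC]; exact ht1, ?_⟩
    funext i
    rcases i with i | j
    · have h1 : c₁ i = (fun o : Option (Fin r) => o.elim t x) (e' i) := by rw [hcx]; rfl
      simp only [Sum.elim_inl, Function.comp_apply, E1, Equiv.trans_apply, Equiv.sumCongr_apply,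
        Sum.map_inl]
      rw [h1]
      cases h2 : e' i with
      | none => simp [CoefsAux.optSum]
      | some k => simp [CoefsAux.optSum]
    · simp [E1, CoefsAux.optSum]
  have hreg : RegBasis B W (Sum.elim (fun i => algebraMap C L (c₁ i))
      (fun j => algebraMap E L (s j))) := hadapt.regBasis hcardL hu
  have hdiv : IsDivisorial B L W := by
    refine ⟨fun b hb => ?_, ⟨algebraMap C L t, hu.ne_zero, hu.lt_one.ne⟩, ?_⟩
    · rw [IsScalarTower.algebraMap_apply B C L, hWC]
      exact hv.const b hb
    · let f : Fin r ⊕ ι ≃ Fin (dimension B L - 1) := Fintype.equivFinOfCardEq hcard2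
      exact ⟨_, CoefsAux.resIndep_reindex hres f.symm⟩
  have h1 := hf W hdiv _ hreg
  rw [jac_sum hc₁r.tb hs hreg.tb z s, jac_self, map_one, mul_one, hWC] at h1
  have h2 := hWlow n e he c a
  have h3 : v (c a) * v (jac hc₁r.tb z) ^ m ≤ 1 := (mul_le_mul' h2 le_rfl).trans h1
  have h4 := hc₀.jac_le c₁ hle1
  rw [jac_chain hc₁r.tb hc₀.tb z, map_mul]
  refine le_trans (mul_le_mul' le_rfl (pow_le_pow_left' ?_ m)) h3
  exact mul_le_of_le_one_left' h4

end Pf72953.Fib
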