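import Mathlib
import Pool.Agent.Lib.Pf72953u.Chart
import Pool.Agent.Lib.Pf72953f.Defs

/-!
MODULE Pf72953f.ExChart: existence of a smooth chart.

PROOF.  Let `G` be a finite set of generators of the field `E` over `B` (`IntermediateField.fg_top B E`, from
`Algebra.EssFiniteType B E`), `A₀ := Algebra.adjoin B (G ∪ range s)`.  Every element of `E` is a quotient of elements of `A₀`
(`IntermediateField.mem_adjoin_iff_div`, or similar).  The finitely many elements `pd hs a y`, `y ∈ G`, `a : ι`, have a common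
denominator `q ∈ A₀`, `q ≠ 0`: `q * pd hs a y ∈ A₀`.  Let `A := Algebra.adjoin B (G ∪ range s ∪ {q⁻¹})`.  `fg`: clear; `frac`:
`A₀ ≤ A`; `mem`: clear; `der`: by `Algebra.adjoin_induction` it suffices to look at the generators: `pd hs a y = (q * pd hs a y) * q⁻¹`,
`pd hs a (s j) ∈ {0, 1}` (`pd_self`), and first `pd hs a f ∈ A` for `f ∈ A₀` (induction), then
`pd hs a q⁻¹ = - (pd hs a q) * q⁻¹ * q⁻¹` (`Derivation.leibniz_inv`), with `q ∈ A₀`.

-/

set_option autoImplicit false

namespace Pf72953.Fib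

namespace ExChartAux

theorem der_mem {B E : Type*} [Field B] [Field E] [Algebra B E] (D : Derivation B E E) (S : Set E)
    (A : Subalgebra B E) (hS : S ⊆ A) (hD : ∀ x ∈ S, D x ∈ A) :
    ∀ f ∈ Algebra.adjoin B S, D f ∈ A := by
  have hle : Algebra.adjoin B S ≤ A := Algebra.adjoin_le hS
  intro f hf
  induction hf using Algebra.adjoin_induction with
  | mem x hx => exact hD x hx
  | algebraMap c =>
    rw [Derivation.map_algebraMap]
    exact A.zero_mem
  | add x y _ _ h1 h2 =>
    rw [map_add]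
    exact A.add_mem h1 h2
  | mul x y hx hy h1 h2 =>
    rw [Derivation.leibniz, smul_eq_mul, smul_eq_mul]
    exact A.add_mem (A.mul_mem (hle hx) h2) (A.mul_mem (hle hy) h1)

theorem frac {B E : Type*} [Field B] [Field E] [Algebra B E] [Algebra.EssFiniteType B E] :
    ∃ G : Finset E, ∀ f : E, ∃ g ∈ Algebra.adjoin B (G : Set E),
      ∃ h ∈ Algebra.adjoin B (G : Set E), h ≠ 0 ∧ f = g / h := by
  obtain ⟨G, hG⟩ := (inferInstance : Algebra.EssFiniteType B E).cond
  refine ⟨G, fun f => ?_⟩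
  obtain ⟨⟨g, h⟩, hgh⟩ := IsLocalization.surj (M := (IsUnit.submonoid E).comap
    (algebraMap (Algebra.adjoin B (G : Set E)) E)) f
  have hh : IsUnit (algebraMap (Algebra.adjoin B (G : Set E)) E h) := h.2
  refine ⟨(g : E), g.2, ((h : Algebra.adjoin B (G : Set E)) : E), h.1.2, hh.ne_zero, ?_⟩
  exact (eq_div_iff hh.ne_zero).2 hgh

end ExChartAux

theorem exists_chart {B E ι : Type*} [Field B] [CharZero B] [Field E] [Algebra B E]
    [Algebra.EssFiniteType B E] [Fintype ι] {s : ι → E} (hs : IsTranscendenceBasis B s) :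
    ∃ A : Subalgebra B E, Up.Chart hs A := by
  classical
  obtain ⟨G, hG⟩ := ExChartAux.frac (B := B) (E := E)
  choose num hnum den hden hne hfrac using hG
  set A₀ := Algebra.adjoin B (G : Set E) with hA₀
  set q : E := ∏ y ∈ G, ∏ a, den (pd hs a y) with hq
  have hqA : q ∈ A₀ := Subalgebra.prod_mem _ fun y _ => Subalgebra.prod_mem _ fun a _ => hden _
  have hq0 : q ≠ 0 := Finset.prod_ne_zero_iff.2 fun y _ => Finset.prod_ne_zero_iff.2 fun a _ => hne _
  have hqd : ∀ y ∈ G, ∀ a, q * pd hs a y ∈ A₀ := by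
    intro y hy a
    have h1 : q = den (pd hs a y) * ((∏ b ∈ Finset.univ.erase a, den (pd hs b y)) *
        ∏ z ∈ G.erase y, ∏ b, den (pd hs b z)) := by
      rw [hq, ← Finset.mul_prod_erase G _ hy, ← Finset.mul_prod_erase Finset.univ
        (fun b => den (pd hs b y)) (Finset.mem_univ a)]
      ring
    have h2 : q * pd hs a y = num (pd hs a y) * ((∏ b ∈ Finset.univ.erase a, den (pd hs b y)) *
        ∏ z ∈ G.erase y, ∏ b, den (pd hs b z)) := by
      have h3 := hfrac (pd hs a y)
      rw [eq_div_iff (hne _)] at h3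
      rw [h1]
      linear_combination ((∏ b ∈ Finset.univ.erase a, den (pd hs b y)) *
        ∏ z ∈ G.erase y, ∏ b, den (pd hs b z)) * h3
    rw [h2]
    exact A₀.mul_mem (hnum _) (A₀.mul_mem (Subalgebra.prod_mem _ fun b _ => hden _)
      (Subalgebra.prod_mem _ fun z _ => Subalgebra.prod_mem _ fun b _ => hden _))
  set S : Set E := (G : Set E) ∪ Set.range s ∪ {q⁻¹} with hS
  set A := Algebra.adjoin B S with hA
  have hSA : S ⊆ A := Algebra.subset_adjoin
  have hle : A₀ ≤ A := Algebra.adjoin_mono fun x hx => Or.inl (Or.inl hx)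
  have hqi : q⁻¹ ∈ A := hSA (Or.inr rfl)
  have hGd : ∀ a, ∀ y ∈ (G : Set E), pd hs a y ∈ A := by
    intro a y hy
    have h1 : pd hs a y = (q * pd hs a y) * q⁻¹ := by
      field_simp
    rw [h1]
    exact A.mul_mem (hle (hqd y hy a)) hqi
  have hA₀d : ∀ a, ∀ f ∈ A₀, pd hs a f ∈ A := fun a =>
    ExChartAux.der_mem (pd hs a) (G : Set E) A (fun x hx => hSA (Or.inl (Or.inl hx))) (hGd a)
  refine ⟨A, ⟨?_, ?_, ?_, ?_⟩⟩
  · exact Subalgebra.fg_def.2
      ⟨S, (G.finite_toSet.union (Set.finite_range s)).union (Set.finite_singleton _), rfl⟩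
  · intro f
    exact ⟨num f, hle (hnum f), den f, hle (hden f), hne f, hfrac f⟩
  · intro i
    exact hSA (Or.inl (Or.inr ⟨i, rfl⟩))
  · intro a
    refine ExChartAux.der_mem (pd hs a) S A hSA ?_
    rintro x ((hx | ⟨j, rfl⟩) | hx)
    · exact hGd a x hx
    · rw [pd_self]
      split_ifs
      · exact A.one_mem
      · exact A.zero_mem
    · rw [Set.mem_singleton_iff] at hx
      subst hx
      rw [Derivation.leibniz_inv, smul_eq_mul]
      exact A.mul_mem (A.neg_mem (A.pow_mem hqi 2)) (hA₀d a q hqA)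

end Pf72953.Fib
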