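import Mathlib

/-!
MODULE Pf72953f.Rank: tensors as sums of independent families.

PROOF.  Every tensor is `∑_{a : Fin n} c_a ⊗ e_a`; take `n` minimal (`Nat.find`).  If the `c_a` were dependent, one of
them would be a combination of the others, and the sum could be written with `n - 1` terms; the same for the `e_a`.
-/

set_option autoImplicit false

open scoped TensorProduct

namespace Pf72953.Fib

namespace RankAux

variable {B C E : Type*} [Field B] [Field C] [Field E] [Algebra B C] [Algebra B E]

theorem drop_left {n : ℕ} {c : Fin (n + 1) → C} {e : Fin (n + 1) → E}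
    (h : ¬ LinearIndependent B c) : ∃ (c' : Fin n → C) (e' : Fin n → E),
      ∑ a, c a ⊗ₜ[B] e a = ∑ a, c' a ⊗ₜ[B] e' a := by
  rw [Fintype.not_linearIndependent_iff] at h
  obtain ⟨g, hg, i, hi⟩ := h
  -- `c i` is a combination of the others
  have h1 : c i = ∑ a : Fin n, (-(g i)⁻¹ * g (i.succAbove a)) • c (i.succAbove a) := by
    rw [Fin.sum_univ_succAbove _ i] at hg
    have h2 : g i • c i = -∑ a : Fin n, g (i.succAbove a) • c (i.succAbove a) :=
      eq_neg_of_add_eq_zero_left hg
    calc c i = (g i)⁻¹ • (g i • c i) := by rw [smul_smul, inv_mul_cancel₀ hi, one_smul]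
      _ = _ := by
          rw [h2, smul_neg, Finset.smul_sum, ← Finset.sum_neg_distrib]
          refine Finset.sum_congr rfl fun a _ => ?_
          rw [smul_smul, ← neg_smul, neg_mul]
  refine ⟨fun a => c (i.succAbove a),
    fun a => e (i.succAbove a) + (-(g i)⁻¹ * g (i.succAbove a)) • e i, ?_⟩
  rw [Fin.sum_univ_succAbove _ i]
  conv_lhs => rw [h1]
  rw [TensorProduct.sum_tmul, ← Finset.sum_add_distrib]
  refine Finset.sum_congr rfl fun a _ => ?_
  rw [TensorProduct.tmul_add, TensorProduct.smul_tmul, add_comm]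

end RankAux

open RankAux

theorem exists_rank {B C E : Type*} [Field B] [Field C] [Field E] [Algebra B C] [Algebra B E]
    (t : C ⊗[B] E) : ∃ (n : ℕ) (c : Fin n → C) (e : Fin n → E), LinearIndependent B c ∧
      LinearIndependent B e ∧ t = ∑ a, c a ⊗ₜ[B] e a := by
  classical
  have h0 : ∃ n : ℕ, ∃ (c : Fin n → C) (e : Fin n → E), t = ∑ a, c a ⊗ₜ[B] e a := by
    induction t using TensorProduct.induction_on with
    | zero => exact ⟨0, fun a => a.elim0, fun a => a.elim0, by simp⟩
    | tmul x y => exact ⟨1, fun _ => x, fun _ => y, by simp⟩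
    | add x y hx hy =>
      obtain ⟨n, c, e, rfl⟩ := hx
      obtain ⟨m, c', e', rfl⟩ := hy
      refine ⟨n + m, Fin.append c c', Fin.append e e', ?_⟩
      rw [Fin.sum_univ_add]
      simp only [Fin.append_left, Fin.append_right]
  obtain ⟨c, e, ht⟩ := Nat.find_spec h0
  have hmin : ∀ m < Nat.find h0, ¬ ∃ (c : Fin m → C) (e : Fin m → E), t = ∑ a, c a ⊗ₜ[B] e a :=
    fun m hm => Nat.find_min h0 hm
  generalize Nat.find h0 = n at c e ht hmin
  refine ⟨n, c, e, ?_, ?_, ht⟩
  · by_contra hc
    cases n with
    | zero => exact hc (linearIndependent_empty_type)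
    | succ n =>
      obtain ⟨c', e', h'⟩ := drop_left (e := e) hc
      exact hmin n (Nat.lt_succ_self n) ⟨c', e', ht.trans h'⟩
  · by_contra hc
    cases n with
    | zero => exact hc (linearIndependent_empty_type)
    | succ n =>
      obtain ⟨e', c', h'⟩ := drop_left (e := c) hc
      refine hmin n (Nat.lt_succ_self n) ⟨c', e', ?_⟩
      have h2 := congrArg (TensorProduct.comm B E C) h'
      rw [map_sum, map_sum] at h2
      simp only [TensorProduct.comm_tmul] at h2
      exact ht.trans h2

end Pf72953.Fib
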