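import Mathlib
import Pool.Agent.Lib.Pf72953u.BaseCh
import Pool.Agent.Lib.Pf72953u.Normal
import Pool.Agent.Lib.Pf72953f.ExChart
import Pool.Agent.Lib.Pf72953f.Rank
import Pool.Agent.Lib.Pf72953f.Coefs
import Pool.Agent.Lib.Pf72953f.RelW

/-!
MODULE Pf72953f.Kun: Kuenneth formula for pluricanonical forms on the compositum of two algebraically independent
fields.

PROOF.  (1) `f ∈ WReg C (fun j => algebraMap E L (s j)) m` by `WReg_rel` (`k := B`, `B := C`, `x := z`) and `Comp.tb`.
(2) Let `A` be a chart of `E/B` with coordinates `s` (`exists_chart`); `Up.Chart.baseChange` (`k := B`, `κ := C`, `Y := E`, `K := L`)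
gives the chart `Up.bc C L A` of `L/C` with coordinates `s`; `hgen`: every element of `L` lies in
`IntermediateField.adjoin C (Set.range (algebraMap E L))` because of `h.gen` (`IntermediateField.adjoin_induction`, or by `Comp.frac`).
(3) `f ∈ Up.bc C L A`: otherwise `Up.Chart.hartogs` gives a divisorial `v` on `L/C` for which `s` is a regular basis and `1 < v f`; but
(1) applied to `v` and the basis `s` gives `v f * v (jac s s) ^ m ≤ 1`, `jac s s = 1` (`jac_self`).
(4) By `Up.mem_bc` (with a basis of `C/B`) `f` is in the range of `pmap B C E L`; `exists_rank` gives `f = ∑_a c_a e_a` with both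
families independent over `B` (`pmap_tmul`).
(5) `c_a ∈ WReg B z m` by `Comp.mem_WReg_left h hE`, and `e_a ∈ WReg B s m` by `Comp.mem_WReg_left h.symm hC` with the roles of `C` and
`E` exchanged (`WReg.reindex` with `Equiv.sumComm` for the coordinates, `mul_comm` in the sum).
-/

set_option autoImplicit false

open scoped WithZero TensorProduct

namespace Pf72953.Fib

namespace KunAux

theorem gen {B C E L : Type*} [Field B] [Field C] [Field E] [Field L] [Algebra B C] [Algebra B E]
    [Algebra B L] [Algebra C L] [Algebra E L] [IsScalarTower B C L] [IsScalarTower B E L]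
    (h : Comp B C E L) (z : L) : z ∈ IntermediateField.adjoin C (Set.range (algebraMap E L)) := by
  have key : ∀ p : C ⊗[B] E,
      pmap B C E L p ∈ IntermediateField.adjoin C (Set.range (algebraMap E L)) := by
    intro p
    induction p using TensorProduct.induction_on with
    | zero =>
      rw [map_zero]
      exact zero_mem _
    | tmul c e =>
      rw [pmap_tmul]
      exact mul_mem (IntermediateField.algebraMap_mem _ c)
        (IntermediateField.subset_adjoin _ _ ⟨e, rfl⟩)
    | add p q hp hq =>
      rw [map_add]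
      exact add_mem hp hq
  obtain ⟨p, q, -, rfl⟩ := h.frac z
  exact div_mem (key p) (key q)

end KunAux

theorem Comp.kunneth {B C E L ι ιC : Type*} [Field B] [CharZero B] [Field C] [CharZero C]
    [Field E] [CharZero E] [Field L] [Algebra B C] [Algebra B E] [Algebra B L] [Algebra C L]
    [Algebra E L] [IsScalarTower B C L] [IsScalarTower B E L] [Fintype ι] [DecidableEq ι]
    [Fintype ιC] [DecidableEq ιC] [Algebra.EssFiniteType B C] [Algebra.EssFiniteType B E]
    [Algebra.EssFiniteType B L] (h : Comp B C E L) (hC : ClosedIn B C) (hE : ClosedIn B E)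
    {z : ιC → C} (hz : IsTranscendenceBasis B z) {s : ι → E} (hs : IsTranscendenceBasis B s)
    {m : ℕ} {f : L} (hf : f ∈ WReg B
      (Sum.elim (fun i => algebraMap C L (z i)) (fun j => algebraMap E L (s j))) m) :
    ∃ (n : ℕ) (c : Fin n → C) (e : Fin n → E), (∀ a, c a ∈ WReg B z m) ∧
      (∀ a, e a ∈ WReg B s m) ∧ f = ∑ a, algebraMap C L (c a) * algebraMap E L (e a) := by
  have htb : IsTranscendenceBasis C (fun i => algebraMap E L (s i)) := h.tb hs
  have hf1 : f ∈ WReg C (fun i => algebraMap E L (s i)) m := WReg_rel hz htb hf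
  obtain ⟨A, hA⟩ := exists_chart hs
  have hch : Up.Chart htb (Up.bc C L A) := hA.baseChange htb (KunAux.gen h)
  have hf2 : f ∈ Up.bc C L A := by
    by_contra hcon
    obtain ⟨v, hv, hreg, -, hlt⟩ := hch.hartogs hcon
    have h1 := hf1 v hv _ hreg
    rw [jac_self, map_one, one_pow, mul_one] at h1
    exact absurd h1 (not_le.2 hlt)
  obtain ⟨p, -, hp⟩ := Up.mem_bc (Module.Basis.ofVectorSpace B C) hf2
  obtain ⟨n, c, e, hc, he, ht⟩ := exists_rank
    (∑ g ∈ p.support, (Module.Basis.ofVectorSpace B C g) ⊗ₜ[B] p g)
  have hfe : f = ∑ a, algebraMap C L (c a) * algebraMap E L (e a) := by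
    have h1 := congrArg (pmap B C E L) ht
    rw [map_sum, map_sum] at h1
    simp only [pmap_tmul] at h1
    rw [← h1, hp, Finsupp.sum]
  have hf3 := hf
  rw [hfe] at hf3
  refine ⟨n, c, e, fun a => h.mem_WReg_left hE hz hs he hf3 a, fun a => ?_, hfe⟩
  have hf4 := WReg.reindex hf3 (Equiv.sumComm ι ιC)
  have e1 : (Sum.elim (fun i => algebraMap C L (z i)) (fun j => algebraMap E L (s j))) ∘
      (Equiv.sumComm ι ιC) =
      Sum.elim (fun j => algebraMap E L (s j)) (fun i => algebraMap C L (z i)) := by
    funext i
    rcases i with i | i <;> rfl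
  have e2 : (∑ a, algebraMap C L (c a) * algebraMap E L (e a)) =
      ∑ a, algebraMap E L (e a) * algebraMap C L (c a) :=
    Finset.sum_congr rfl fun _ _ => mul_comm _ _
  rw [e1, e2] at hf4
  exact h.symm.mem_WReg_left hC hs hz hc hf4 a

end Pf72953.Fib
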