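import Mathlib
import Pool.Agent.Lib.Pf72953f.Kun
import Pool.Agent.Lib.Pf72953f.ClosedR

/-!
MODULE Pf72953f.KunR: Kuenneth formula for fibre powers.

PROOF.  Induction on `r`.  `r = 0`: `L` is the image of `B` (`h.gen`: the adjoin of the empty set is `⊥`), `f = algebraMap B L b`, `n = 1`.
Step: `peel` gives `C`, `i'`; `Algebra E L := (i (Fin.last r)).toRingHom.toAlgebra`, `Comp B C E L`;
`C` is closed over `B` (`IsFibrePower.closed`), `z := rcoord i' s` is a transcendence basis of `C/B` (`IsFibrePower.tb`),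
`CharZero` instances by `charZero_of_injective_algebraMap`.  The coordinates `rcoord i s` on `L` are
`Sum.elim (algebraMap C L ∘ z) (algebraMap E L ∘ s)` reindexed by `Fin (r+1) × ι ≃ (Fin r × ι) ⊕ ι` (`WReg.reindex`).
`Comp.kunneth` gives `f = ∑_a c_a e_a`, the induction hypothesis gives `c_a = ∑_b (c_{ab} ∏_j i'_j (g_{abj}))`; the double
sum is reindexed by `Fin n` (`finSigmaFinEquiv`, or prove the statement for finite sums over an arbitrary
finite type first; the set of sums of this form is closed under addition: `Fin.append`), with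
`g_{ab} (Fin.last r) = e_a` (`Fin.snoc`, `Fin.prod_univ_castSucc`).
-/

set_option autoImplicit false

open scoped WithZero

namespace Pf72953.Fib

universe u v w

namespace KunRAux

/-- splitting off the last factor -/
def eqv (r : ℕ) (ι : Type*) : (Fin r × ι) ⊕ ι ≃ Fin (r + 1) × ι where
  toFun := Sum.elim (fun p => (p.1.castSucc, p.2)) (fun j => (Fin.last r, j))
  invFun := fun p => Fin.lastCases (motive := fun _ => (Fin r × ι) ⊕ ι) (Sum.inr p.2)
    (fun j => Sum.inl (j, p.2)) p.1
  left_inv := by
    rintro (⟨a, b⟩ | b)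
    · show Fin.lastCases (motive := fun _ => (Fin r × ι) ⊕ ι) (Sum.inr b)
        (fun j => Sum.inl (j, b)) a.castSucc = _
      rw [Fin.lastCases_castSucc]
    · show Fin.lastCases (motive := fun _ => (Fin r × ι) ⊕ ι) (Sum.inr b)
        (fun j => Sum.inl (j, b)) (Fin.last r) = _
      rw [Fin.lastCases_last]
  right_inv := by
    rintro ⟨a, b⟩
    refine Fin.lastCases ?_ (fun j => ?_) a
    · show Sum.elim (fun p : Fin r × ι => (p.1.castSucc, p.2)) (fun j => (Fin.last r, j))
        (Fin.lastCases (motive := fun _ => (Fin r × ι) ⊕ ι) (Sum.inr b)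
        (fun j => Sum.inl (j, b)) (Fin.last r)) = _
      rw [Fin.lastCases_last]
      rfl
    · show Sum.elim (fun p : Fin r × ι => (p.1.castSucc, p.2)) (fun j => (Fin.last r, j))
        (Fin.lastCases (motive := fun _ => (Fin r × ι) ⊕ ι) (Sum.inr b)
        (fun j => Sum.inl (j, b)) j.castSucc) = _
      rw [Fin.lastCases_castSucc]
      rfl

theorem of_fintype {B : Type u} {E : Type v} {L : Type w} [Field B] [Field E] [Field L]
    [Algebra B E] [Algebra B L] {r : ℕ} {i : Fin r → E →ₐ[B] L} {S : Set E} {A : Type*}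
    [Fintype A] (c : A → B) (g : A → Fin r → E) (hg : ∀ a j, g a j ∈ S) :
    ∃ (n : ℕ) (c' : Fin n → B) (g' : Fin n → Fin r → E), (∀ a j, g' a j ∈ S) ∧
      ∑ a, algebraMap B L (c a) * ∏ j, i j (g a j) =
        ∑ a, algebraMap B L (c' a) * ∏ j, i j (g' a j) := by
  refine ⟨Fintype.card A, fun a => c ((Fintype.equivFin A).symm a),
    fun a => g ((Fintype.equivFin A).symm a), fun a j => hg _ j, ?_⟩
  exact (Equiv.sum_comp (Fintype.equivFin A).symm
    fun a => algebraMap B L (c a) * ∏ j, i j (g a j)).symm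

end KunRAux

open KunRAux in
theorem IsFibrePower.kunneth {B : Type u} {E : Type v} {ι : Type*} [Field B] [CharZero B]
    [Field E] [Algebra B E] [Algebra.EssFiniteType B E] [Fintype ι] [DecidableEq ι]
    (hE : ClosedIn B E) {s : ι → E} (hs : IsTranscendenceBasis B s) (m : ℕ) (r : ℕ) :
    ∀ {L : Type w} [Field L] [Algebra B L] {i : Fin r → E →ₐ[B] L}, IsFibrePower B E L i →
      ∀ f ∈ WReg B (rcoord i s) m, ∃ (n : ℕ) (c : Fin n → B) (g : Fin n → Fin r → E),
        (∀ a j, g a j ∈ WReg B s m) ∧ f = ∑ a, algebraMap B L (c a) * ∏ j, i j (g a j) := by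
  induction r with
  | zero =>
    intro L _ _ i h f _
    have h1 : f ∈ IntermediateField.adjoin B (⋃ j, Set.range (i j)) := by
      rw [h.gen]; trivial
    rw [Set.iUnion_of_empty, IntermediateField.adjoin_empty] at h1
    obtain ⟨b, hb⟩ := IntermediateField.mem_bot.mp h1
    refine ⟨1, fun _ => b, fun _ j => j.elim0, fun _ j => j.elim0, ?_⟩
    rw [Fin.sum_univ_one, Fin.prod_univ_zero, mul_one, hb]
  | succ r ih =>
    intro L _ _ i h f hf
    obtain ⟨C, i', hi', hC, hdim, hgen⟩ := h.peel
    letI : Algebra E L := (i (Fin.last r)).toRingHom.toAlgebra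
    haveI : IsScalarTower B E L :=
      IsScalarTower.of_algebraMap_eq fun b => ((i (Fin.last r)).commutes b).symm
    haveI : CharZero C := charZero_of_injective_algebraMap (algebraMap B C).injective
    haveI : CharZero E := charZero_of_injective_algebraMap (algebraMap B E).injective
    haveI : Algebra.EssFiniteType B L := h.essFiniteType
    haveI : Algebra.EssFiniteType B C := hC.essFiniteType
    have hcomp : Comp B C E L := ⟨hdim, hgen⟩
    have hz : IsTranscendenceBasis B (rcoord i' s) := hC.tb hs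
    have hf1 := WReg.reindex hf (eqv r ι)
    have hcoord : rcoord i s ∘ eqv r ι =
        Sum.elim (fun p => algebraMap C L (rcoord i' s p)) (fun j => algebraMap E L (s j)) := by
      funext p
      rcases p with ⟨a, b⟩ | b
      · exact (hi' a (s b)).symm
      · rfl
    rw [hcoord] at hf1
    obtain ⟨n, c, e, hc, he, hfe⟩ := hcomp.kunneth (hC.closed hE) hE hz hs hf1
    choose N c' g hg hcg using fun a => ih hC (c a) (hc a)
    have hmem : ∀ (p : Σ a : Fin n, Fin (N a)) (j : Fin (r + 1)),
        (Fin.snoc (α := fun _ => E) (g p.1 p.2) (e p.1) : Fin (r + 1) → E) j ∈ WReg B s m := by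
      intro p j
      refine Fin.lastCases ?_ (fun j => ?_) j
      · rw [Fin.snoc_last]
        exact he p.1
      · rw [Fin.snoc_castSucc]
        exact hg p.1 p.2 j
    obtain ⟨n', c'', g'', hg'', hsum⟩ := of_fintype (i := i) (S := WReg B s m)
      (fun p : Σ a : Fin n, Fin (N a) => c' p.1 p.2)
      (fun p => Fin.snoc (α := fun _ => E) (g p.1 p.2) (e p.1)) hmem
    refine ⟨n', c'', g'', hg'', ?_⟩
    rw [← hsum, hfe, Fintype.sum_sigma]
    refine Finset.sum_congr rfl fun a _ => ?_
    rw [hcg a, map_sum, Finset.sum_mul]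
    refine Finset.sum_congr rfl fun b _ => ?_
    rw [Fin.prod_univ_castSucc, Fin.snoc_last, map_mul, map_prod, mul_assoc,
      ← IsScalarTower.algebraMap_apply B C L]
    congr 2
    refine Finset.prod_congr rfl fun j _ => ?_
    rw [Fin.snoc_castSucc]
    exact hi' j _

end Pf72953.Fib
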