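import Mathlib
import Pool.Agent.Lib.Pf72953f.Rel

/-!
MODULE Pf72953f.Over: a divisorial valuation of `E/k` trivial on `B` is a divisorial valuation of `E/B`.

PROOF.  A transcendence basis `x` of `B/k` is residually independent over
`k` for `v` (its polynomial values are nonzero elements of `B`).  Extend it by `IsDivisorial.exists_extend` (Pf72953/Orb.lean) by
`y : Fin (dimension B E - 1) → E` with `(x, y)` residually independent over `k` (`dimension k E = dimension k B + dimension B E`,
from `tb_rel` and `card_eq_of_isTranscendenceBasis`; `dimension B E ≥ 1` because otherwise `E` would be algebraic over `B` and `v`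
would be trivial, `val_eq_one_of_isIntegral`).  Then `y` is residually independent over `B`: the residues of `(x, y)` are
algebraically independent over `k` (`resIndep_iff`, with `Algebra k v.valuationSubring`), `B` embeds in the residue field `κ` of
`v` and is algebraic over `k(x)`, so the residues of `y` are algebraically independent over `B` (Mathlib: algebraic independence of a
`Sum.elim` family and towers, `AlgebraicIndependent.extendScalars` for algebraic extensions).
-/

set_option autoImplicit false

open scoped WithZero

namespace Pf72953.Fib

variable {k B E : Type*} [Field k] [Field B] [Field E] [Algebra k B] [Algebra k E] [Algebra B E]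
  [IsScalarTower k B E] [Algebra.EssFiniteType k B] [Algebra.EssFiniteType k E]

theorem IsDivisorial_over {v : Valuation E ℤᵐ⁰} (hv : IsDivisorial k E v)
    (htriv : ∀ b : B, b ≠ 0 → v (algebraMap B E b) = 1) : IsDivisorial B E v := by
  classical
  have hB : ∀ b : B, algebraMap B E b ∈ v.valuationSubring := by
    intro b
    rcases eq_or_ne b 0 with rfl | hb
    · simp
    · exact (htriv b hb).le
  have hk : ∀ c : k, algebraMap k E c ∈ v.valuationSubring := by
    intro c
    rw [IsScalarTower.algebraMap_apply k B E]
    exact hB _
  letI algB : Algebra B v.valuationSubring :=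
    ((algebraMap B E).codRestrict v.valuationSubring hB).toAlgebra
  letI algk : Algebra k v.valuationSubring :=
    ((algebraMap k E).codRestrict v.valuationSubring hk).toAlgebra
  have t1 : IsScalarTower B v.valuationSubring E := IsScalarTower.of_algebraMap_eq fun _ => rfl
  have t2 : IsScalarTower k v.valuationSubring E := IsScalarTower.of_algebraMap_eq fun _ => rfl
  have t3 : IsScalarTower k B v.valuationSubring := IsScalarTower.of_algebraMap_eq fun c =>
    Subtype.ext (by
      change algebraMap k E c = algebraMap B E (algebraMap k B c)
      rw [← IsScalarTower.algebraMap_apply k B E])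
  have t4 : IsScalarTower k B (IsLocalRing.ResidueField v.valuationSubring) :=
    IsScalarTower.of_algebraMap_eq fun c => by
      rw [IsScalarTower.algebraMap_apply k v.valuationSubring
        (IsLocalRing.ResidueField v.valuationSubring),
        IsScalarTower.algebraMap_apply k B v.valuationSubring]
      rfl
  obtain ⟨x, hx⟩ := hv.resid
  have hx' : ResIndep k v x := hx
  have hmem : ∀ i, x i ∈ v.valuationSubring := fun i => (hx'.apply i).le
  have hx'' := (resIndep_iff v (fun i => (⟨x i, hmem i⟩ : v.valuationSubring))).mp hx'
  have hL := natCast_le_trdeg_of_le_dimension hx''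
  have hsum := lift_trdeg_add_eq k B E
  have hsum' := lift_trdeg_add_eq k B (IsLocalRing.ResidueField v.valuationSubring)
  have hfin : Algebra.trdeg k E < Cardinal.aleph0 := trdeg_lt_aleph0 k E
  obtain ⟨n, hn⟩ := Cardinal.lt_aleph0.mp hfin
  have hn' : dimension k E = n := by rw [dimension, hn, Cardinal.toNat_natCast]
  rw [hn, Cardinal.lift_natCast] at hsum
  have hfin2 := hsum.trans_lt (Cardinal.natCast_lt_aleph0 (n := n))
  rw [Cardinal.add_lt_aleph0_iff, Cardinal.lift_lt_aleph0, Cardinal.lift_lt_aleph0] at hfin2
  obtain ⟨f, hf⟩ := Cardinal.lt_aleph0.mp hfin2.1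
  obtain ⟨d, hd⟩ := Cardinal.lt_aleph0.mp hfin2.2
  have hd' : dimension B E = d := by rw [dimension, hd, Cardinal.toNat_natCast]
  rw [hf, hd, Cardinal.lift_natCast, Cardinal.lift_natCast] at hsum
  have hfd : f + d = n := by exact_mod_cast hsum
  have hgoal : ((dimension B E - 1 : ℕ) : Cardinal) ≤
      Algebra.trdeg B (IsLocalRing.ResidueField v.valuationSubring) := by
    by_contra hlt
    rw [not_le] at hlt
    obtain ⟨q, hq⟩ := Cardinal.lt_aleph0.mp (hlt.trans Cardinal.natCast_lt_aleph0)
    rw [hq] at hlt hsum'
    rw [hf, Cardinal.lift_natCast, Cardinal.lift_natCast] at hsum'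
    have hlt' : q < dimension B E - 1 := by exact_mod_cast hlt
    have h5 : ((f + q : ℕ) : Cardinal) =
        Cardinal.lift (Algebra.trdeg k (IsLocalRing.ResidueField v.valuationSubring)) := by
      rw [← hsum']
      push_cast
      rfl
    have h6 : Algebra.trdeg k (IsLocalRing.ResidueField v.valuationSubring) =
        ((f + q : ℕ) : Cardinal) := by
      have h7 := h5.symm
      rw [Cardinal.lift_eq_nat_iff] at h7
      exact h7
    rw [h6] at hL
    have h8 : dimension k E - 1 ≤ f + q := by exact_mod_cast hL
    omega
  obtain ⟨y, hy⟩ := exists_algebraicIndependent_of_le_trdeg hgoal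
  choose z hz using fun i => IsLocalRing.residue_surjective (y i)
  have hz' : (fun i => IsLocalRing.residue v.valuationSubring (z i)) = y := funext hz
  exact ⟨htriv, hv.nontrivial, fun i => (z i : E),
    (resIndep_iff v z).mpr (by rw [hz']; exact hy)⟩

end Pf72953.Fib
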