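import Mathlib
import Pool.Agent.Lib.Pf72953f.Over
import Pool.Agent.Lib.Pf72953f.RelW
import Pool.Agent.Lib.Pf72953f.Diag
import Pool.Agent.Lib.Pf72953f.KunR

/-!
MODULE Pf72953f.EstB: the order of the restriction to the diagonal of a regular form of the fibre power, at a divisorial
valuation trivial on `B`.

PROOF.  `f := ∑ ∏ i j (y a j)` lies in `WReg B (rcoord i s) m` by `WReg_rel` (`coord i x s` is
`Sum.elim (algebraMap ∘ x) (rcoord i s)`, `Algebra.EssFiniteType k L`, `IsFibrePower.tb`).  By `IsFibrePower.kunneth`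
`f = ∑_a c_a ∏_j i_j (g_{aj})` with `g_{aj} ∈ WReg B s m`; absorb `c_a` in `g_{a0}` (`r ≥ 1`) and apply `IsFibrePower.diag`:
`∑ ∏ y = ∑_a c_a ∏_j g_{aj}`.  `v` is divisorial over `B` (`IsDivisorial_over`); let `(c₁, t)` be an adapted system over `B`, `t` a
uniformizer (`IsDivisorial.exists_adapted`), a regular basis (`Adapted.regBasis`; `Algebra.EssFiniteType B E` by
`Algebra.EssFiniteType.of_comp k B E`).  Then `v (g_{aj}) * v (jac_B c₁ s) ^ m ≤ 1`, so (`v (c_a) ≤ 1`)
`v (c_a ∏_j g_{aj}) * v (jac_B c₁ s) ^ (r * m) ≤ 1` and the same for the sum.  `Sum.elim x c₁` is adapted over `k` (`Adapted_rel`) and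
`jac_k (Sum.elim x c₁) (Sum.elim x s) = jac_B c₁ s` (`jac_rel`, `jac_self`).  Finally
`jac c z = jac c (Sum.elim x c₁) * jac (Sum.elim x c₁) z` (`jac_chain`) and `v (jac c (Sum.elim x c₁)) ≤ 1`
(`RegBasis.jac_le`, `Adapted.le_one`).
-/

set_option autoImplicit false

open scoped WithZero

namespace Pf72953.Fib

namespace EstBAux

theorem prod_ite {R : Type*} [CommMonoid R] {r : ℕ} (f : Fin r → R) (j₀ : Fin r) (c : R) :
    c * ∏ j, f j = ∏ j, if j = j₀ then c * f j else f j := by
  rw [← Finset.mul_prod_erase Finset.univ f (Finset.mem_univ j₀),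
    ← Finset.mul_prod_erase Finset.univ (fun j => if j = j₀ then c * f j else f j)
      (Finset.mem_univ j₀), if_pos rfl, mul_assoc]
  congr 2
  refine Finset.prod_congr rfl fun j hj => ?_
  rw [if_neg (Finset.ne_of_mem_erase hj)]

end EstBAux

theorem estB {k B E L ιB ι : Type*} [Field k] [CharZero k] [Field B] [CharZero B] [Field E]
    [Field L] [Algebra k B] [Algebra k E] [Algebra k L] [Algebra B E] [Algebra B L]
    [IsScalarTower k B E] [IsScalarTower k B L] [Algebra.EssFiniteType k B]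
    [Algebra.EssFiniteType k E] [Fintype ιB] [DecidableEq ιB] [Fintype ι] [DecidableEq ι]
    (hE : ClosedIn B E) {x : ιB → B} (hx : IsTranscendenceBasis k x) {s : ι → E}
    (hs : IsTranscendenceBasis B s) {r : ℕ} (hr : 1 ≤ r) {i : Fin r → E →ₐ[B] L}
    (h : IsFibrePower B E L i) {m n : ℕ} (y : Fin n → Fin r → E)
    (hf : (∑ a, ∏ j, i j (y a j)) ∈ WReg k (coord i x s) m) {v : Valuation E ℤᵐ⁰}
    (hv : IsDivisorial k E v) (htriv : ∀ b : B, b ≠ 0 → v (algebraMap B E b) = 1)
    {c : ιB ⊕ ι → E} (hc : RegBasis k v c) :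
    v (∑ a, ∏ j, y a j) *
      v (jac hc.tb (Sum.elim (fun a => algebraMap B E (x a)) s)) ^ (r * m) ≤ 1 := by
  classical
  have : Algebra.EssFiniteType B E := Algebra.EssFiniteType.of_comp k B E
  have : Algebra.EssFiniteType B L := h.essFiniteType
  have : Algebra.EssFiniteType k L := Algebra.EssFiniteType.comp k B L
  -- the form over `B`
  have hf' : (∑ a, ∏ j, i j (y a j)) ∈ WReg B (rcoord i s) m := WReg_rel hx (h.tb hs) hf
  obtain ⟨n', b, g, hg, hfe⟩ := IsFibrePower.kunneth hE hs m r h _ hf'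
  have hsum : ∑ a, ∏ j, y a j = ∑ a, algebraMap B E (b a) * ∏ j, g a j := by
    have h1 := h.diag hE hs hr y
      (fun a j => if j = ⟨0, hr⟩ then algebraMap B E (b a) * g a j else g a j) (by
        rw [hfe]
        refine Finset.sum_congr rfl fun a _ => ?_
        rw [EstBAux.prod_ite (fun j => i j (g a j)) ⟨0, hr⟩ (algebraMap B L (b a))]
        refine Finset.prod_congr rfl fun j _ => ?_
        split_ifs
        · rw [map_mul, AlgHom.commutes]
        · rfl)
    rw [h1]
    refine Finset.sum_congr rfl fun a _ => ?_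
    rw [EstBAux.prod_ite (fun j => g a j) ⟨0, hr⟩ (algebraMap B E (b a))]
  -- an adapted system over `B`
  have hvB : IsDivisorial B E v := IsDivisorial_over hv htriv
  have hι : Fintype.card ι = dimension B E := card_eq_of_isTranscendenceBasis hs
  obtain ⟨c₁, t, ht, hc₁⟩ := hvB.exists_adapted hι
  have reg1 : RegBasis B v c₁ := hc₁.regBasis hι ht
  have hA : Adapted k v (Sum.elim (fun a => algebraMap B E (x a)) c₁) t := Adapted_rel hx.1 hc₁
  have hιk : Fintype.card (ιB ⊕ ι) = dimension k E :=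
    card_eq_of_isTranscendenceBasis (tb_rel hx hs)
  have regk : RegBasis k v (Sum.elim (fun a => algebraMap B E (x a)) c₁) := hA.regBasis hιk ht
  have hj1 : jac regk.tb (Sum.elim (fun a => algebraMap B E (x a)) s) = jac reg1.tb s := by
    rw [jac_rel hx reg1.tb regk.tb x s, jac_self, map_one, one_mul]
  have hj2 : v (jac hc.tb (Sum.elim (fun a => algebraMap B E (x a)) s)) ≤ v (jac reg1.tb s) := by
    rw [jac_chain regk.tb hc.tb, hj1, map_mul]
    exact mul_le_of_le_one_left' (hc.jac_le _ hA.le_one)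
  refine (mul_le_mul' le_rfl (pow_le_pow_left' hj2 (r * m))).trans ?_
  rw [hsum, ← map_pow, ← map_mul, Finset.sum_mul]
  refine Valuation.map_sum_le _ fun a _ => ?_
  have h2 : algebraMap B E (b a) * (∏ j, g a j) * jac reg1.tb s ^ (r * m) =
      algebraMap B E (b a) * ∏ j, (g a j * jac reg1.tb s ^ m) := by
    rw [Finset.prod_mul_distrib, Finset.prod_const, Finset.card_univ, Fintype.card_fin, ← pow_mul,
      mul_comm m r, mul_assoc]
  rw [h2, map_mul, map_prod]
  refine mul_le_one' ?_ (Finset.prod_le_one' fun j _ => ?_)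
  · rcases eq_or_ne (b a) 0 with h3 | h3
    · rw [h3, map_zero, map_zero]
      exact zero_le_one
    · exact (htriv _ h3).le
  · rw [map_mul, map_pow]
    exact hg a j v hvB c₁ reg1

end Pf72953.Fib
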