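import Mathlib
import Pool.Agent.Lib.Pf72953f.EstA
import Pool.Agent.Lib.Pf72953f.EstB

/-!
MODULE Pf72953f.Key: the product of the restriction to the diagonal of a regular form of the fibre power and of a power
of a regular form of the (orbifold) base is regular.

PROOF.  Let `v` be divisorial on `E/k`, `c` a regular basis, `ρ := ∑ ∏ y`, `M := r * m₁ * m₂`, `z := Sum.elim x s`.
(a) `v` trivial on `B`: `v (hB) ≤ 1` and `v ρ * v (jac c z) ^ (r * m₁) ≤ 1` (`estB`); take the `m₂`-th power.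
(b) `v` not trivial on `B`: let `t` be a uniformizer (`exists_unif`), `cB, c'` as in `estA`; `hh` gives a logarithmic basis `cB'` with
`v hB * (v (jac cB' x) * ∏ v cB') ^ m₂ ≤ v t ^ m₂`; by `LogBasis.vol_eq` the bracket is
`Q := v (jac cB x) * ∏ v cB` (values of `B` in `E`).  With `P := v (jac c' z) * ∏ v c'`: `v ρ * P ^ (r * m₁) ≤ v t ^ m₁ * Q ^ ((r-1) * m₁)`,
`v hB * Q ^ m₂ ≤ v t ^ m₂`.  So `v ρ ^ m₂ * v hB ^ (m₁ * (r-1)) * P ^ M ≤ v t ^ (m₁ * m₂) * (v hB * Q ^ m₂) ^ (m₁ * (r-1)) ≤ v t ^ M`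
(`r ≥ 1`).  Now let `(c₁, t₁)` be an adapted system with a uniformizer `t₁` (`IsDivisorial.exists_adapted`), so that `v t₁ = v t`,
`P = v (jac c₁ z) * v t₁` (`LogBasis.vol_eq`, `Adapted.logBasis`, `Adapted.prod`), and after division by `v t ^ M ≠ 0`:
`v (ρ ^ m₂ * hB ^ ..) * v (jac c₁ z) ^ M ≤ 1`; finally `jac c z = jac c c₁ * jac c₁ z` with
`v (jac c c₁) ≤ 1` (`RegBasis.jac_le`, `Adapted.le_one`).  Compare the end of `main_estimate` in Pf72953/Estimate.lean.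
-/

set_option autoImplicit false

open scoped WithZero

namespace Pf72953.Fib

namespace KeyAux

theorem alg1 {G : Type*} [CommMonoid G] (ρ h J t : G) (r m₁ m₂ n : ℕ) :
    (ρ ^ m₂ * h ^ n * J ^ (r * m₁ * m₂)) * t ^ (r * m₁ * m₂) =
      (ρ * (J * t) ^ (r * m₁)) ^ m₂ * h ^ n := by
  rw [mul_pow ρ, ← pow_mul, mul_pow J t]
  simp only [mul_comm, mul_left_comm, mul_assoc]

theorem alg2 {G : Type*} [CommMonoid G] (Q h t : G) (q m₁ m₂ : ℕ) :
    (t ^ m₁ * Q ^ (q * m₁)) ^ m₂ * h ^ (m₁ * q) =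
      t ^ (m₁ * m₂) * (h * Q ^ m₂) ^ (m₁ * q) := by
  have e : q * m₁ * m₂ = m₂ * (m₁ * q) := by ring
  rw [mul_pow, ← pow_mul, ← pow_mul, mul_pow h, ← pow_mul, e]
  simp only [mul_comm, mul_left_comm, mul_assoc]

theorem alg3 {G : Type*} [CommMonoid G] (ρ h J : G) (r m₁ m₂ n : ℕ) :
    ρ ^ m₂ * h ^ n * J ^ (r * m₁ * m₂) = (ρ * J ^ (r * m₁)) ^ m₂ * h ^ n := by
  rw [mul_pow ρ, ← pow_mul]
  simp only [mul_comm, mul_left_comm, mul_assoc]

end KeyAux

open KeyAux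

theorem key {k B E L ιB ι : Type*} [Field k] [CharZero k] [Field B] [CharZero B] [Field E]
    [Field L] [Algebra k B] [Algebra k E] [Algebra k L] [Algebra B E] [Algebra B L]
    [IsScalarTower k B E] [IsScalarTower k B L] [Algebra.EssFiniteType k B]
    [Algebra.EssFiniteType k E] [Fintype ιB] [DecidableEq ιB] [Fintype ι] [DecidableEq ι]
    (hE : ClosedIn B E) {x : ιB → B} (hx : IsTranscendenceBasis k x) {s : ι → E}
    (hs : IsTranscendenceBasis B s) {r : ℕ} (hr : 1 ≤ r) {i : Fin r → E →ₐ[B] L}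
    (h : IsFibrePower B E L i) {m₁ m₂ n : ℕ} (y : Fin n → Fin r → E)
    (hf : (∑ a, ∏ j, i j (y a j)) ∈ WReg k (coord i x s) m₁) {hB : B}
    (hh : hB ∈ WOrb k E x m₂) :
    (∑ a, ∏ j, y a j) ^ m₂ * algebraMap B E hB ^ (m₁ * (r - 1)) ∈
      WReg k (Sum.elim (fun a => algebraMap B E (x a)) s) (r * m₁ * m₂) := by
  intro v hv c hc
  have hι := card_eq_of_isTranscendenceBasis hc.tb
  set z : ιB ⊕ ι → E := Sum.elim (fun a => algebraMap B E (x a)) s with hz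
  set ρ : E := ∑ a, ∏ j, y a j with hρ
  rw [map_mul, map_pow, map_pow]
  have e : r * m₁ * m₂ = m₁ * m₂ + m₂ * (m₁ * (r - 1)) := by
    obtain ⟨q, hq⟩ : ∃ q, r = q + 1 := ⟨r - 1, by omega⟩
    rw [hq, Nat.add_sub_cancel]
    ring
  by_cases hnt : ∃ a : B, a ≠ 0 ∧ v (algebraMap B E a) ≠ 1
  · obtain ⟨t, ht⟩ := exists_unif v hv.nontrivial
    obtain ⟨cB, hcB, c', hc', h1⟩ := estA hE hx hs hr h y hf hv hnt ht
    obtain ⟨cB', hcB', h2⟩ := hh v hv hnt t ht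
    have h3 := hcB.vol_eq hcB' x
    simp only [Valuation.comap_apply] at h3
    rw [← h3] at h2
    obtain ⟨c₁, t₁, ht₁, hc₁⟩ := hv.exists_adapted hι
    have hL := hc₁.logBasis hι
    have h4 := hc'.vol_eq hL z
    rw [hc₁.prod] at h4
    rw [h4] at h1
    have htt : v t₁ = v t := le_antisymm (ht.le _ ht₁.lt_one) (ht₁.le _ ht.lt_one)
    rw [htt] at h1
    set Q := v (algebraMap B E (jac hcB.tb x)) * ∏ i, v (algebraMap B E (cB i)) with hQ
    set J₁ := v (jac hL.tb z) with hJ₁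
    have h5 : (v ρ ^ m₂ * v (algebraMap B E hB) ^ (m₁ * (r - 1)) * J₁ ^ (r * m₁ * m₂)) *
        v t ^ (r * m₁ * m₂) ≤ v t ^ (r * m₁ * m₂) := by
      calc (v ρ ^ m₂ * v (algebraMap B E hB) ^ (m₁ * (r - 1)) * J₁ ^ (r * m₁ * m₂)) *
            v t ^ (r * m₁ * m₂)
          = (v ρ * (J₁ * v t) ^ (r * m₁)) ^ m₂ * v (algebraMap B E hB) ^ (m₁ * (r - 1)) :=
            alg1 _ _ _ _ _ _ _ _
        _ ≤ (v t ^ m₁ * Q ^ ((r - 1) * m₁)) ^ m₂ * v (algebraMap B E hB) ^ (m₁ * (r - 1)) :=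
            mul_le_mul' (pow_le_pow_left' h1 m₂) le_rfl
        _ = v t ^ (m₁ * m₂) * (v (algebraMap B E hB) * Q ^ m₂) ^ (m₁ * (r - 1)) :=
            alg2 _ _ _ _ _ _
        _ ≤ v t ^ (m₁ * m₂) * (v t ^ m₂) ^ (m₁ * (r - 1)) :=
            mul_le_mul' le_rfl (pow_le_pow_left' h2 _)
        _ = v t ^ (r * m₁ * m₂) := by rw [← pow_mul, ← pow_add, e]
    have hpos : 0 < v t ^ (r * m₁ * m₂) := by
      refine pow_pos (zero_lt_iff.mpr ?_) _
      rw [Valuation.ne_zero_iff]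
      exact ht.ne_zero
    have h6 : v ρ ^ m₂ * v (algebraMap B E hB) ^ (m₁ * (r - 1)) * J₁ ^ (r * m₁ * m₂) ≤ 1 :=
      le_of_mul_le_mul_right (h5.trans_eq (one_mul _).symm) hpos
    have h7 : v (jac hc.tb z) ≤ J₁ := by
      rw [jac_chain hL.tb hc.tb z, map_mul]
      calc v (jac hc.tb c₁) * v (jac hL.tb z) ≤ 1 * v (jac hL.tb z) :=
            mul_le_mul' (hc.jac_le c₁ hc₁.le_one) le_rfl
        _ = J₁ := one_mul _
    exact (mul_le_mul' le_rfl (pow_le_pow_left' h7 _)).trans h6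
  · have htriv : ∀ b : B, b ≠ 0 → v (algebraMap B E b) = 1 := by
      intro b hb
      by_contra h1
      exact hnt ⟨b, hb, h1⟩
    have h1 := estB hE hx hs hr h y hf hv htriv hc
    have h2 : v (algebraMap B E hB) ≤ 1 := by
      rcases eq_or_ne hB 0 with h0 | h0
      · rw [h0, map_zero, map_zero]
        exact zero_le_one
      · exact (htriv _ h0).le
    rw [alg3]
    exact mul_le_one' (pow_le_one' h1 _) (pow_le_one' h2 _)

end Pf72953.Fib
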