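import Mathlib
import Pool.Agent.Lib.Pf72953f.KunR
import Pool.Agent.Lib.Pf72953f.RelW

/-!
MODULE Pf72953f.ProdForm: regular forms on fibre powers when the fibre has Kodaira dimension at most zero.

PROOF of `WOrb_change`: `jac c x' = jac c x * jac hx x'` (`jac_chain`) for every logarithmic basis `c`.
PROOF of `prod_form`.  `f ∈ WReg B (rcoord i s) m` by `WReg_rel` (`coord i x s = Sum.elim (algebraMap ∘ x) (rcoord i s)`,
`IsFibrePower.tb`, `Algebra.EssFiniteType k L` by `IsFibrePower.essFiniteType` and `Algebra.EssFiniteType.comp`).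
If `WReg B s m` contains only `0`, take `g = 0`: by `IsFibrePower.kunneth` every `f` is `0` (`r ≥ 1`).  Otherwise let `g ≠ 0` be in
`WReg B s m`.  Every `g' ∈ WReg B s m` is `λ g` with `λ ∈ B`: if `g' / g` were transcendental over `B` then
`KodairaGE.of_coord` (reindex `s` by `Fin (dimension B E)`, `WReg.reindex`) with the family `![g' / g]` would give
`KodairaGE B E 1`; so `g' / g` is algebraic over `B`, and in `B` by `hE`.  Then in the Kuenneth formula `∏_j i_j (g_{aj}) = (∏_j λ_{aj}) ∏_j i_j g`.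
-/

set_option autoImplicit false

open scoped WithZero

namespace Pf72953.Fib

theorem WOrb_change {k B E ι : Type*} [Field k] [CharZero k] [Field B] [Field E] [Algebra k B]
    [Algebra k E] [Algebra B E] [Fintype ι] [DecidableEq ι] {x x' : ι → B}
    (hx : IsTranscendenceBasis k x) (hx' : IsTranscendenceBasis k x') {m : ℕ} {h : B}
    (hh : h ∈ WOrb k E x' m) : h * jac hx x' ^ m ∈ WOrb k E x m := by
  intro v hv hnt t ht
  obtain ⟨c, hc, hb⟩ := hh v hv hnt t ht
  refine ⟨c, hc, ?_⟩
  rw [jac_chain hx hc.tb x'] at hb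
  refine le_trans (le_of_eq ?_) hb
  have key : ∀ a b c d : ℤᵐ⁰, a * b * (c * d) = a * (c * b * d) := fun a b c d => by
    rw [mul_assoc a, mul_assoc c, mul_left_comm b c d]
  simp only [map_mul, map_pow, mul_pow]
  exact key _ _ _ _

/-- two regular forms on a fibre of Kodaira dimension at most zero are proportional -/
theorem ProdForm.prop {B E ι : Type*} [Field B] [CharZero B] [Field E] [Algebra B E]
    [Algebra.EssFiniteType B E] [Fintype ι] [DecidableEq ι] (hE : ClosedIn B E) {s : ι → E}
    (hs : IsTranscendenceBasis B s) (hF : ¬ KodairaGE B E 1) {m : ℕ} (hm : 1 ≤ m) {g g' : E}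
    (hg0 : g ≠ 0) (hg : g ∈ WReg B s m) (hg' : g' ∈ WReg B s m) :
    ∃ b : B, g' = algebraMap B E b * g := by
  classical
  by_cases halg : IsAlgebraic B (g' / g)
  · obtain ⟨b, hb⟩ := hE _ halg
    exact ⟨b, by rw [hb, div_mul_cancel₀ _ hg0]⟩
  · exfalso
    apply hF
    have hcard : Fintype.card ι = dimension B E := card_eq_of_isTranscendenceBasis hs
    let e : Fin (dimension B E) ≃ ι := (Fintype.equivFinOfCardEq hcard).symm
    have hz : IsTranscendenceBasis B (s ∘ e) := (isTranscendenceBasis_equiv e).mpr hs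
    refine KodairaGE.of_coord (c := 1) hz hm (WReg.reindex hg e) hg0 (f := fun _ => g' / g) ?_ ?_
    · rw [algebraicIndependent_unique_type_iff]
      exact halg
    · intro _
      rw [div_mul_cancel₀ _ hg0]
      exact WReg.reindex hg' e

theorem prod_form {k B E L ιB ι : Type*} [Field k] [CharZero k] [Field B] [CharZero B] [Field E]
    [Field L] [Algebra k B] [Algebra k E] [Algebra k L] [Algebra B E] [Algebra B L]
    [IsScalarTower k B E] [IsScalarTower k B L] [Algebra.EssFiniteType k B]
    [Algebra.EssFiniteType k E] [Fintype ιB] [DecidableEq ιB] [Fintype ι] [DecidableEq ι]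
    (hE : ClosedIn B E) {x : ιB → B} (hx : IsTranscendenceBasis k x) {s : ι → E}
    (hs : IsTranscendenceBasis B s) {r : ℕ} (hr : 1 ≤ r) {i : Fin r → E →ₐ[B] L}
    (h : IsFibrePower B E L i) (hF : ¬ KodairaGE B E 1) {m : ℕ} (hm : 1 ≤ m) :
    ∃ g : E, ∀ f ∈ WReg k (coord i x s) m, ∃ b : B, f = algebraMap B L b * ∏ j, i j g := by
  classical
  have : Algebra.EssFiniteType B E := Algebra.EssFiniteType.of_comp k B E
  have : Algebra.EssFiniteType B L := h.essFiniteType
  have : Algebra.EssFiniteType k L := Algebra.EssFiniteType.comp k B L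
  have hσ : IsTranscendenceBasis B (rcoord i s) := h.tb hs
  have hrel : ∀ f ∈ WReg k (coord i x s) m, f ∈ WReg B (rcoord i s) m := fun f hf =>
    WReg_rel hx hσ hf
  by_cases hzero : ∀ g ∈ WReg B s m, g = 0
  · refine ⟨0, fun f hf => ⟨0, ?_⟩⟩
    obtain ⟨n, c, g, hg, hfg⟩ := h.kunneth hE hs m r f (hrel f hf)
    rw [hfg, map_zero, zero_mul]
    refine Finset.sum_eq_zero fun a _ => ?_
    have : ∏ j, i j (g a j) = 0 :=
      Finset.prod_eq_zero (Finset.mem_univ (⟨0, hr⟩ : Fin r)) (by rw [hzero _ (hg a _), map_zero])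
    rw [this, mul_zero]
  · push Not at hzero
    obtain ⟨g, hgm, hg0⟩ := hzero
    refine ⟨g, fun f hf => ?_⟩
    obtain ⟨n, c, G, hG, hfG⟩ := h.kunneth hE hs m r f (hrel f hf)
    choose lam hlam using fun a j => ProdForm.prop hE hs hF hm hg0 hgm (hG a j)
    refine ⟨∑ a, c a * ∏ j, lam a j, ?_⟩
    rw [hfG, map_sum, Finset.sum_mul]
    refine Finset.sum_congr rfl fun a _ => ?_
    have h1 : ∏ j, i j (G a j) = algebraMap B L (∏ j, lam a j) * ∏ j, i j g := by
      rw [map_prod, ← Finset.prod_mul_distrib]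
      refine Finset.prod_congr rfl fun j _ => ?_
      rw [hlam a j, map_mul, AlgHom.commutes]
    rw [h1, map_mul, mul_assoc]

end Pf72953.Fib
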