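import Mathlib
import Pool.Agent.Lib.Pf72953f.Defs

/-!
MODULE Pf72953f.ExPow: existence of fibre powers.

PROOF.  Let `s : Fin (dimension B E) → E` be a transcendence basis of `E/B` (`exists_tb` in Pf72953/Core.lean),
`K₁ := FractionRing (MvPolynomial (Fin r × Fin (dimension B E)) B)` and `Ω := AlgebraicClosure K₁`, a field over `B`, in which the images
`X_p` of the variables are algebraically independent over `B`.  For every `j : Fin r` there is a `B`-embedding
`φ j : E → Ω` with `φ j (s l) = X_(j, l)`: `E` is algebraic over the subfield `B(s)`, which embeds into `Ω` by `s l ↦ X_(j,l)` (the family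
`l ↦ X_(j,l)` is algebraically independent), and `Ω` is algebraically closed (`IsAlgClosed.lift`; for instance use `MvPolynomial.aeval s` to
make `E` an algebraic, torsion free algebra over the domain `MvPolynomial (Fin (dimension B E)) B`, and `Ω` an algebra over it by
`MvPolynomial.aeval (fun l => X_(j,l))`, and `IsAlgClosed.lift` over this domain; or
`IntermediateField.exists_algHom_of_splits`...).
Let `L := IntermediateField.adjoin B (⋃ j, Set.range (φ j))`, a subfield of `Ω` (in `Type u`), and `i j` the map `φ j` with values in `L`.
`gen`: as for `IntermediateField.adjoin` in general (the subfield of `L` generated by the images is everything; use `IntermediateField.map`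
along `L.val` or `adjoin_induction`).
`dim`: the family `rcoord i s` is algebraically independent over `B` (its image in `Ω` is the family of the `X_p`) and `L` is algebraic over
`B (rcoord i s)` (every `i j y` is, as `y` is algebraic over `B(s)`; cf. `isAlgebraic_transport` in Pf72953/Core.lean), so it is a
transcendence basis with `r * dimension B E` elements (`card_eq_of_isTranscendenceBasis`).
-/

set_option autoImplicit false
set_option linter.style.haveILetI false

namespace Pf72953.Fib

universe u

namespace ExPowAux

/-- an embedding of an extension into an algebraically closed field with given algebraically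
independent images of a transcendence basis -/
theorem exists_embed {B E Ω ι : Type*} [Field B] [Field E] [Algebra B E] [Field Ω]
    [Algebra B Ω] [IsAlgClosed Ω] {s : ι → E} (hs : IsTranscendenceBasis B s) {x : ι → Ω}
    (hx : AlgebraicIndependent B x) : ∃ φ : E →ₐ[B] Ω, ∀ l, φ (s l) = x l := by
  let f : Algebra.adjoin B (Set.range s) →ₐ[B] Ω :=
    (MvPolynomial.aeval x).comp hs.1.aevalEquiv.symm.toAlgHom
  have hf : Function.Injective f := by
    intro a b hab
    exact hs.1.aevalEquiv.symm.injective (hx hab)
  letI : Algebra (Algebra.adjoin B (Set.range s)) Ω := f.toRingHom.toAlgebra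
  haveI : IsScalarTower B (Algebra.adjoin B (Set.range s)) Ω :=
    IsScalarTower.of_algebraMap_eq fun b => (f.commutes b).symm
  haveI : FaithfulSMul (Algebra.adjoin B (Set.range s)) Ω :=
    (faithfulSMul_iff_algebraMap_injective _ _).2 hf
  haveI : Algebra.IsAlgebraic (Algebra.adjoin B (Set.range s)) E := hs.isAlgebraic
  refine ⟨(IsAlgClosed.lift (R := Algebra.adjoin B (Set.range s)) (S := E)
    (M := Ω)).restrictScalars B, fun l => ?_⟩
  have h1 : s l = algebraMap (Algebra.adjoin B (Set.range s)) E
      ⟨s l, Algebra.subset_adjoin ⟨l, rfl⟩⟩ := rfl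
  rw [AlgHom.restrictScalars_apply, h1, AlgHom.commutes]
  change f _ = _
  have h2 : hs.1.aevalEquiv (MvPolynomial.X l) =
      (⟨s l, Algebra.subset_adjoin ⟨l, rfl⟩⟩ : Algebra.adjoin B (Set.range s)) := by
    apply Subtype.ext
    have := hs.1.algebraMap_aevalEquiv (MvPolynomial.X l)
    rw [MvPolynomial.aeval_X] at this
    exact this
  rw [← h2]
  change MvPolynomial.aeval x (hs.1.aevalEquiv.symm (hs.1.aevalEquiv (MvPolynomial.X l))) = _
  rw [AlgEquiv.symm_apply_apply, MvPolynomial.aeval_X]

/-- an algebraically closed field with an algebraically independent family -/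
theorem exists_big (B : Type u) (ι : Type) [Field B] :
    ∃ (Ω : Type u) (_ : Field Ω) (_ : Algebra B Ω) (_ : IsAlgClosed Ω) (x : ι → Ω),
      AlgebraicIndependent B x := by
  refine ⟨AlgebraicClosure (FractionRing (MvPolynomial ι B)), inferInstance, inferInstance,
    inferInstance, fun i => algebraMap (FractionRing (MvPolynomial ι B)) _
      (algebraMap (MvPolynomial ι B) _ (MvPolynomial.X i)), ?_⟩
  have h1 : AlgebraicIndependent B (MvPolynomial.X : ι → MvPolynomial ι B) :=
    MvPolynomial.algebraicIndependent_X ι B
  have h2 := h1.map' (f := IsScalarTower.toAlgHom B (MvPolynomial ι B)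
    (FractionRing (MvPolynomial ι B))) (IsFractionRing.injective _ _)
  have h3 : Function.Injective (IsScalarTower.toAlgHom B (FractionRing (MvPolynomial ι B))
      (AlgebraicClosure (FractionRing (MvPolynomial ι B)))) :=
    (algebraMap (FractionRing (MvPolynomial ι B))
      (AlgebraicClosure (FractionRing (MvPolynomial ι B)))).injective
  exact h2.map' (f := IsScalarTower.toAlgHom B (FractionRing (MvPolynomial ι B))
    (AlgebraicClosure (FractionRing (MvPolynomial ι B)))) h3

/-- transport of algebraicity along an embedding -/
theorem alg_transport {B E L ι : Type*} [Field B] [Field E] [Field L] [Algebra B E]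
    [Algebra B L] {s : ι → E} (hs : IsTranscendenceBasis B s) (t : Set L) (φ : E →ₐ[B] L)
    (ht : ∀ l, φ (s l) ∈ t) (y : E) : IsAlgebraic (Algebra.adjoin B t) (φ y) := by
  letI : Algebra E L := φ.toRingHom.toAlgebra
  haveI : IsScalarTower B E L := IsScalarTower.of_algebraMap_eq fun b => (φ.commutes b).symm
  exact isAlgebraic_transport hs t ht y

end ExPowAux

open ExPowAux in
theorem exists_fibrePower {B E : Type u} [Field B] [CharZero B] [Field E] [Algebra B E]
    [Algebra.EssFiniteType B E] (r : ℕ) :
    ∃ (L : Type u) (_ : Field L) (_ : Algebra B L) (i : Fin r → E →ₐ[B] L),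
      IsFibrePower B E L i := by
  obtain ⟨s, hs⟩ := exists_tb B E
  obtain ⟨Ω, _, _, _, x, hx⟩ := exists_big B (Fin r × Fin (dimension B E))
  have h1 : ∀ j : Fin r, ∃ φ : E →ₐ[B] Ω, ∀ l, φ (s l) = x (j, l) := fun j =>
    exists_embed hs (hx.comp (fun l => (j, l)) (fun l l' h => (Prod.mk.inj h).2))
  choose φ hφ using h1
  let L : IntermediateField B Ω := IntermediateField.adjoin B (⋃ j, Set.range (φ j))
  have hmem : ∀ j y, φ j y ∈ L := fun j y =>
    IntermediateField.subset_adjoin _ _ (Set.mem_iUnion.2 ⟨j, ⟨y, rfl⟩⟩)
  let i : Fin r → E →ₐ[B] L := fun j => (φ j).codRestrict L.toSubalgebra (hmem j)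
  have hi : ∀ j y, ((i j y : L) : Ω) = φ j y := fun j y => rfl
  have hgen : IntermediateField.adjoin B (⋃ j, Set.range (i j)) = ⊤ := by
    apply IntermediateField.lift_injective L
    rw [IntermediateField.lift_top, IntermediateField.lift_adjoin, Set.image_iUnion]
    congr 1
    apply Set.iUnion_congr
    intro j
    rw [← Set.range_comp]
    rfl
  have hrc : AlgebraicIndependent B (rcoord i s) := by
    apply AlgebraicIndependent.of_comp L.val
    have e : (L.val : L → Ω) ∘ rcoord i s = x := by
      funext p
      exact hφ p.1 p.2
    rw [e]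
    exact hx
  have halg : ∀ a : L, IsAlgebraic (Algebra.adjoin B (Set.range (rcoord i s))) a := by
    intro a
    have ha : a ∈ IntermediateField.adjoin B (⋃ j, Set.range (i j)) := by
      rw [hgen]
      trivial
    induction ha using IntermediateField.adjoin_induction with
    | mem x hx =>
      obtain ⟨j, y, rfl⟩ := Set.mem_iUnion.1 hx
      exact alg_transport hs (Set.range (rcoord i s)) (i j)
        (fun l => Set.mem_range_self ((j, l) : Fin r × Fin (dimension B E))) y
    | algebraMap b =>
      rw [IsScalarTower.algebraMap_apply B (Algebra.adjoin B (Set.range (rcoord i s))) L]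
      exact isAlgebraic_algebraMap _
    | add x y _ _ hx hy => exact hx.add hy
    | inv x _ hx => exact hx.inv
    | mul x y _ _ hx hy => exact hx.mul hy
  have htb : IsTranscendenceBasis B (rcoord i s) :=
    hrc.isTranscendenceBasis_iff_isAlgebraic.2 (Algebra.IsAlgebraic.mk halg)
  refine ⟨L, inferInstance, inferInstance, i, hgen, ?_⟩
  have := card_eq_of_isTranscendenceBasis htb
  rw [← this]
  simp

end Pf72953.Fib
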