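import Mathlib
import Pool.Agent.Lib.Pf72953.Estimate
import Pool.Agent.Lib.Pf72953f.Comp
import Pool.Agent.Lib.Pf72953f.Peel

/-!
MODULE Pf72953f.ProdReg: products of regular forms are regular.

PROOF of `Comp.mul_mem_WReg`.  Let `w` be divisorial on `L/B`, `c₀` a regular basis.  If `w` is not trivial on `C` its restriction is divisorial on
`C/B` (`IsDivisorial.restrict`) and `WReg.reg_bound` gives a regular basis `cC` with `w c * w (jac cC z) ^ m ≤ 1`; if `w` is trivial on
`C` take `cC := z` (`RegBasis.of_trivial`, `jac_self`).  The same for `E`.  `RegBasis.prod_le` (Pf72953/Bases.lean, with `c₀` as the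
basis of `L`, the transcendence basis `Sum.elim cC cE` by `Comp.tbSum`) gives
`w (jac c₀ (z ⊕ s)) ≤ w (jac cC z) * w (jac cE s)`.  Multiply.  Compare the last part of `main_estimate` in
Pf72953/Estimate.lean.
PROOF of `IsFibrePower.prod_mem`: induction on `r` with `peel` (`Algebra E L := (i (Fin.last r)).toRingHom.toAlgebra`,
`z := rcoord i' s`, `Fin.prod_univ_castSucc`, `WReg.reindex` along `Fin (r+1) × ι ≃ (Fin r × ι) ⊕ ι`).  `r = 0`: `L` is the image of `B`,
a divisorial valuation of `L/B` does not exist (trivial on `B` but nontrivial).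
-/

set_option autoImplicit false

open scoped WithZero

namespace Pf72953.Fib

universe u v w

namespace ProdRegAux

theorem bound {B C L ιC : Type*} [Field B] [CharZero B] [Field C] [Field L] [Algebra B C]
    [Algebra B L] [Algebra C L] [IsScalarTower B C L] [Fintype ιC] [DecidableEq ιC]
    [Algebra.EssFiniteType B C] [Algebra.EssFiniteType B L] {z : ιC → C}
    (hz : IsTranscendenceBasis B z) {m : ℕ} {c : C} (hc : c ∈ WReg B z m)
    {w : Valuation L ℤᵐ⁰} (hw : IsDivisorial B L w) :
    ∃ (cC : ιC → C) (hcC : RegBasis B (w.comap (algebraMap C L)) cC),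
      w (algebraMap C L c) * w (algebraMap C L (jac hcC.tb z)) ^ m ≤ 1 := by
  by_cases hnt : ∃ a : C, a ≠ 0 ∧ w (algebraMap C L a) ≠ 1
  · exact WReg.reg_bound hz hc (hw.restrict hnt)
  · push Not at hnt
    have hone : ∀ a : C, w (algebraMap C L a) ≤ 1 := by
      intro a
      rcases eq_or_ne a 0 with rfl | ha
      · simp
      · exact (hnt a ha).le
    exact ⟨z, RegBasis.of_trivial hnt hz, mul_le_one' (hone _) (pow_le_one' (hone _) m)⟩

/-- the index map -/
def fi (r : ℕ) (ι : Type*) : (Fin r × ι) ⊕ ι → Fin (r + 1) × ι :=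
  Sum.elim (fun p => (p.1.castSucc, p.2)) (fun j => (Fin.last r, j))

theorem fi_bij (r : ℕ) (ι : Type*) : Function.Bijective (fi r ι) := by
  constructor
  · rintro (⟨a, b⟩ | b) (⟨a', b'⟩ | b') h
    · simp only [fi, Sum.elim_inl, Prod.mk.injEq, Fin.castSucc_inj] at h
      rw [h.1, h.2]
    · simp only [fi, Sum.elim_inl, Sum.elim_inr, Prod.mk.injEq] at h
      exact absurd h.1 (Fin.castSucc_lt_last a).ne
    · simp only [fi, Sum.elim_inl, Sum.elim_inr, Prod.mk.injEq] at h
      exact absurd h.1.symm (Fin.castSucc_lt_last a').ne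
    · simp only [fi, Sum.elim_inr, Prod.mk.injEq] at h
      rw [h.2]
  · rintro ⟨k, j⟩
    induction k using Fin.lastCases with
    | last => exact ⟨Sum.inr j, rfl⟩
    | cast k => exact ⟨Sum.inl (k, j), rfl⟩

end ProdRegAux

theorem Comp.mul_mem_WReg {B C E L ι ιC : Type*} [Field B] [CharZero B] [Field C]
    [Field E] [Field L] [Algebra B C] [Algebra B E] [Algebra B L] [Algebra C L]
    [Algebra E L] [IsScalarTower B C L] [IsScalarTower B E L] [Fintype ι] [DecidableEq ι]
    [Fintype ιC] [DecidableEq ιC] [Algebra.EssFiniteType B C] [Algebra.EssFiniteType B E]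
    [Algebra.EssFiniteType B L] (h : Comp B C E L)
    {z : ιC → C} (hz : IsTranscendenceBasis B z) {s : ι → E} (hs : IsTranscendenceBasis B s)
    {m : ℕ} {c : C} (hc : c ∈ WReg B z m) {e : E} (he : e ∈ WReg B s m) :
    algebraMap C L c * algebraMap E L e ∈ WReg B
      (Sum.elim (fun i => algebraMap C L (z i)) (fun j => algebraMap E L (s j))) m := by
  intro w hw c₀ hc₀
  obtain ⟨cC, hcC, hbC⟩ := ProdRegAux.bound hz hc hw
  obtain ⟨cE, hcE, hbE⟩ := ProdRegAux.bound hs he hw
  have hprod := RegBasis.prod_le hcC hcE hc₀ (h.tbSum hcC.tb hcE.tb) z s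
  calc w (algebraMap C L c * algebraMap E L e) *
      w (jac hc₀.tb (Sum.elim (fun i => algebraMap C L (z i)) (fun j => algebraMap E L (s j)))) ^ m
      ≤ w (algebraMap C L c * algebraMap E L e) *
        (w (algebraMap C L (jac hcC.tb z)) * w (algebraMap E L (jac hcE.tb s))) ^ m := by
        gcongr
    _ = (w (algebraMap C L c) * w (algebraMap C L (jac hcC.tb z)) ^ m) *
        (w (algebraMap E L e) * w (algebraMap E L (jac hcE.tb s)) ^ m) := by
        rw [map_mul, mul_pow, mul_mul_mul_comm]
    _ ≤ 1 := mul_le_one' hbC hbE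

open ProdRegAux in
theorem IsFibrePower.prod_mem {B : Type u} {E : Type v} {ι : Type*} [Field B] [CharZero B]
    [Field E] [Algebra B E] [Algebra.EssFiniteType B E] [Fintype ι] [DecidableEq ι]
    {s : ι → E} (hs : IsTranscendenceBasis B s) (m : ℕ) (r : ℕ) :
    ∀ {L : Type w} [Field L] [Algebra B L] {i : Fin r → E →ₐ[B] L}, IsFibrePower B E L i →
      ∀ g : Fin r → E, (∀ j, g j ∈ WReg B s m) → ∏ j, i j (g j) ∈ WReg B (rcoord i s) m := by
  induction r with
  | zero =>
    intro L _ _ i hL g hg w hw c hc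
    exfalso
    obtain ⟨a, ha0, ha⟩ := hw.nontrivial
    have h1 := hL.gen
    have h2 : (⋃ j, Set.range (i j)) = (∅ : Set L) := by
      simp
    rw [h2, IntermediateField.adjoin_empty] at h1
    have h3 : a ∈ (⊥ : IntermediateField B L) := h1 ▸ IntermediateField.mem_top
    obtain ⟨b, rfl⟩ := IntermediateField.mem_bot.1 h3
    refine ha (hw.const b ?_)
    rintro rfl
    exact ha0 (map_zero _)
  | succ r ih =>
    intro L _ _ i hL g hg
    obtain ⟨C, i', hi', hC, hdim, hgen⟩ := hL.peel
    let _ : Algebra E L := (i (Fin.last r)).toRingHom.toAlgebra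
    have : IsScalarTower B E L := IsScalarTower.of_algebraMap_eq fun b =>
      ((i (Fin.last r)).commutes b).symm
    have : Algebra.EssFiniteType B C := hC.essFiniteType
    have : Algebra.EssFiniteType B L := hL.essFiniteType
    have hcomp : Comp B C E L := ⟨hdim, hgen⟩
    have hz : IsTranscendenceBasis B (rcoord i' s) := hC.tb hs
    have h1 := ih hC (fun j => g j.castSucc) (fun j => hg _)
    have key := hcomp.mul_mem_WReg hz hs h1 (hg (Fin.last r))
    have key2 := WReg.reindex key (Equiv.ofBijective (fi r ι) (fi_bij r ι)).symm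
    have e1 : (Sum.elim (fun p => algebraMap C L (rcoord i' s p))
        (fun j => algebraMap E L (s j))) ∘ (Equiv.ofBijective (fi r ι) (fi_bij r ι)).symm =
        rcoord i s := by
      funext q
      obtain ⟨t, rfl⟩ := (fi_bij r ι).surjective q
      rw [Function.comp_apply, Equiv.ofBijective_symm_apply_apply]
      rcases t with ⟨a, b⟩ | b
      · exact hi' a (s b)
      · rfl
    have e2 : algebraMap C L (∏ j, i' j (g j.castSucc)) * algebraMap E L (g (Fin.last r)) =
        ∏ j, i j (g j) := by
      rw [Fin.prod_univ_castSucc, map_prod]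
      congr 1
      exact Finset.prod_congr rfl fun j _ => hi' j _
    rw [e1, e2] at key2
    exact key2

end Pf72953.Fib
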