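import Mathlib
import Pool.Agent.Lib.Pf72953.Reduction
import Pool.Agent.Lib.Pf72953f.KunR
import Pool.Agent.Lib.Pf72953f.ProdReg

/-!
MODULE Pf72953f.KodZero: the fibre powers of a fibre of Kodaira dimension zero have Kodaira dimension zero.

PROOF.  Let `s : Fin (dimension B E) → E` be a transcendence basis of `E/B` (`exists_tb`), `rcoord i s` one of `L/B`
(`IsFibrePower.tb`; reindexed by `Fin (dimension B L)` where necessary, `WReg.reindex`).
(1) `KodairaGE B E 1` is false (`kodairaDim B E = 0`, a supremum), and `KodairaGE B E 0` holds (`kodairaDim B E ≠ ⊥`, `kodairaDim_eq`), so by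
`KodairaGE.exists_coord` there are `m ≥ 1` and `g ≠ 0` in `WReg B s m`; `∏_j i_j g ∈ WReg B (rcoord i s) m` (`IsFibrePower.prod_mem`), nonzero, so
`KodairaGE B L 0` (`KodairaGE.of_coord`, with the empty family).
(2) `KodairaGE B L 1` is false: otherwise (`KodairaGE.exists_coord`) there are `m ≥ 1`, `f₀ ≠ 0` and `φ` transcendental over `B` with `f₀`,
`φ f₀ ∈ WReg B (rcoord i s) m`.  As in `prod_form` (Pf72953f/ProdForm.lean): by `IsFibrePower.kunneth` both are sums of products
`c ∏_j i_j (g_j)`, `g_j ∈ WReg B s m`; this space is not zero, choose `g ≠ 0` in it; every `g' ∈ WReg B s m` is `λ g`, `λ ∈ B`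
(otherwise `g' / g` is transcendental over `B`, as `B` is algebraically closed in `E`, and `KodairaGE B E 1` by
`KodairaGE.of_coord`), so `f₀ = b₀ ∏_j i_j g`, `φ f₀ = b ∏_j i_j g`, `φ = b / b₀` is in `B`, contradiction.
(3) So the supremum `kodairaDim B L` is `0` (`KodairaGE B L c` with `c ≥ 1` implies `KodairaGE B L 1`: restrict the family).
-/

set_option autoImplicit false

open scoped WithZero

namespace Pf72953.Fib

namespace KodZeroAux

variable {B K : Type*} [Field B] [Field K] [Algebra B K]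

theorem ge_one {c : ℕ} (hc : 1 ≤ c) (h : KodairaGE B K c) : KodairaGE B K 1 := by
  obtain ⟨m, hm, ω₀, hω₀, hne, f, hf, hfω⟩ := h
  exact ⟨m, hm, ω₀, hω₀, hne, fun _ => f ⟨0, hc⟩,
    hf.comp (fun _ : Fin 1 => (⟨0, hc⟩ : Fin c)) (fun a b _ => Subsingleton.elim a b),
    fun _ => hfω _⟩

theorem le_kodairaDim {c : ℕ} (h : KodairaGE B K c) :
    ((c : ℕ∞) : WithBot ℕ∞) ≤ kodairaDim B K := by
  unfold kodairaDim
  exact le_iSup₂_of_le c h le_rfl

theorem not_ge_one (h0 : kodairaDim B K = 0) : ¬ KodairaGE B K 1 := by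
  intro h
  have h1 := le_kodairaDim h
  rw [h0] at h1
  have h2 : ((1 : ℕ∞) : WithBot ℕ∞) ≤ ((0 : ℕ∞) : WithBot ℕ∞) := by exact_mod_cast h1
  rw [WithBot.coe_le_coe] at h2
  exact absurd h2 (by simp)

theorem ge_zero [FinTrdeg B K] (h0 : kodairaDim B K = 0) : KodairaGE B K 0 := by
  rcases kodairaDim_eq (k := B) (K := K) with h | ⟨c, hc, h⟩
  · rw [h0] at h
    exact absurd h (by simp)
  · rw [h0] at h
    have h1 : c = 0 := by
      have h2 : ((0 : ℕ∞) : WithBot ℕ∞) = ((c : ℕ∞) : WithBot ℕ∞) := by exact_mod_cast h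
      rw [WithBot.coe_inj] at h2
      exact_mod_cast h2.symm
    rwa [h1] at hc

theorem eq_zero [FinTrdeg B K] (h : KodairaGE B K 0) (h1 : ¬ KodairaGE B K 1) :
    kodairaDim B K = 0 := by
  rcases kodairaDim_eq (k := B) (K := K) with h2 | ⟨c, hc, h2⟩
  · have h3 := le_kodairaDim h
    rw [h2] at h3
    exact absurd h3 (by simp)
  · rcases Nat.eq_zero_or_pos c with rfl | hpos
    · rw [h2]; rfl
    · exact absurd (ge_one hpos hc) h1

end KodZeroAux

theorem IsFibrePower.kodairaDim_zero {B E L : Type*} [Field B] [CharZero B] [Field E] [Field L]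
    [Algebra B E] [Algebra B L] [Algebra.EssFiniteType B E] (hE : ClosedIn B E) {r : ℕ}
    (hr : 1 ≤ r) {i : Fin r → E →ₐ[B] L} (h : IsFibrePower B E L i)
    (h0 : kodairaDim B E = 0) : kodairaDim B L = 0 := by
  obtain ⟨s, hs⟩ := exists_tb B E
  have : Algebra.EssFiniteType B L := h.essFiniteType
  have htb := h.tb hs
  let e : Fin (dimension B L) ≃ Fin r × Fin (dimension B E) :=
    (finCongr h.dim).trans finProdFinEquiv.symm
  have hz : IsTranscendenceBasis B (rcoord i s ∘ e) := (isTranscendenceBasis_equiv e).mpr htb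
  have hE1 : ¬ KodairaGE B E 1 := KodZeroAux.not_ge_one h0
  have hE0 : KodairaGE B E 0 := KodZeroAux.ge_zero h0
  have hprodne : ∀ g : E, g ≠ 0 → ∏ j, i j g ≠ 0 := by
    intro g hg
    refine Finset.prod_ne_zero_iff.mpr fun j _ => ?_
    exact (map_ne_zero (i j)).mpr hg
  refine KodZeroAux.eq_zero ?_ ?_
  · obtain ⟨m, hm, g, hg, hgne, -⟩ := hE0.exists_coord hs
    have h1 : ∏ j, i j g ∈ WReg B (rcoord i s) m := h.prod_mem hs m r (fun _ => g) fun _ => hg
    exact KodairaGE.of_coord hz hm (WReg.reindex h1 e) (hprodne g hgne)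
      (f := fun a : Fin 0 => a.elim0)
      (algebraicIndependent_empty_type_iff.mpr (algebraMap B L).injective) fun a => a.elim0
  · intro hL
    obtain ⟨m, hm, f₀, hf₀, hf₀ne, φ, hφ, hφf⟩ := hL.exists_coord hz
    have hback : ∀ f, f ∈ WReg B (rcoord i s ∘ e) m → f ∈ WReg B (rcoord i s) m := by
      intro f hf
      have h2 := WReg.reindex hf e.symm
      have h3 : (rcoord i s ∘ e) ∘ e.symm = rcoord i s := by
        funext a
        simp
      rwa [h3] at h2
    -- a nonzero form on the fibre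
    have hex : ∃ g ∈ WReg B s m, g ≠ 0 := by
      by_contra hcon
      push Not at hcon
      obtain ⟨n, c, g, hg, hfe⟩ := h.kunneth hE hs m r f₀ (hback f₀ hf₀)
      apply hf₀ne
      rw [hfe]
      refine Finset.sum_eq_zero fun a _ => ?_
      have : i ⟨0, hr⟩ (g a ⟨0, hr⟩) = 0 := by
        rw [hcon _ (hg a ⟨0, hr⟩), map_zero]
      rw [Finset.prod_eq_zero (Finset.mem_univ (⟨0, hr⟩ : Fin r)) this, mul_zero]
    obtain ⟨g, hg, hgne⟩ := hex
    have hprop : ∀ g' ∈ WReg B s m, ∃ b : B, g' = algebraMap B E b * g := by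
      intro g' hg'
      by_cases halg : IsAlgebraic B (g' / g)
      · obtain ⟨b, hb⟩ := hE _ halg
        exact ⟨b, by rw [hb, div_mul_cancel₀ _ hgne]⟩
      · exfalso
        apply hE1
        refine KodairaGE.of_coord hs hm hg hgne (f := fun _ : Fin 1 => g' / g) ?_ fun _ => ?_
        · rw [algebraicIndependent_unique_type_iff]
          exact halg
        · rw [div_mul_cancel₀ _ hgne]
          exact hg'
    have hform : ∀ f ∈ WReg B (rcoord i s) m, ∃ b : B, f = algebraMap B L b * ∏ j, i j g := by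
      intro f hf
      obtain ⟨n, c, G, hG, hfe⟩ := h.kunneth hE hs m r f hf
      choose b hb using fun (a : Fin n) (j : Fin r) => hprop (G a j) (hG a j)
      refine ⟨∑ a, c a * ∏ j, b a j, ?_⟩
      rw [hfe, map_sum, Finset.sum_mul]
      refine Finset.sum_congr rfl fun a _ => ?_
      rw [map_mul, map_prod, mul_assoc, ← Finset.prod_mul_distrib]
      congr 1
      refine Finset.prod_congr rfl fun j _ => ?_
      rw [hb a j, map_mul, AlgHom.commutes]
    obtain ⟨b₀, hb₀⟩ := hform f₀ (hback f₀ hf₀)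
    obtain ⟨b₁, hb₁⟩ := hform (φ 0 * f₀) (hback _ (hφf 0))
    have hP : ∏ j, i j g ≠ 0 := hprodne g hgne
    have hb₀ne : algebraMap B L b₀ ≠ 0 := by
      intro hz0
      apply hf₀ne
      rw [hb₀, hz0, zero_mul]
    have hφ0 : φ 0 = algebraMap B L (b₁ / b₀) := by
      rw [map_div₀, eq_div_iff hb₀ne]
      rw [hb₀, ← mul_assoc] at hb₁
      exact mul_right_cancel₀ hP hb₁
    have htr : Transcendental B (φ 0) := hφ.transcendental 0
    apply htr
    rw [hφ0]
    exact isAlgebraic_algebraMap _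

end Pf72953.Fib
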