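import Mathlib
import Pool.Agent.Lib.Pf72953.Core

/-!
MODULE Pf72953f.Ruled: ruled varieties have no pluricanonical forms.

PROOF.  Let `y : Fin n → Y` be a transcendence basis of `Y/k` (`exists_tb`), `U := RatFunc Y`, `t := RatFunc.X`; the family
`z := Sum.elim (algebraMap Y U ∘ y) (fun _ : Unit => t)` is a transcendence basis of `U/k` (`t` is a transcendence basis of `U/Y`;
`IsTranscendenceBasis.sumElim_comp`).  Suppose `kodairaDim k U ≠ ⊥`; then (`kodairaDim_eq`, `KodairaGE.exists_coord`, reindexing,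
`WReg.reindex`) there are `m ≥ 1` and `f ≠ 0` in `WReg k z m` (the change of coordinates from `Fin (dimension k U)` is a reindexing
because any transcendence basis may be used in `KodairaGE.exists_coord`).
(1) Let `P` be a height one prime of `Y[X]`, `w` its valuation on `U` (`IsDedekindDomain.HeightOneSpectrum.valuation`, values in `ℤᵐ⁰`).  `w` is
trivial on `Y` (units of `Y[X]`), nontrivial, and `y` is residually independent (a nonzero polynomial in the `y` is a nonzero
element of `Y`), `dimension k U = n + 1`: so `IsDivisorial k U w`.  `z` is a regular basis for `w`: `w t ≤ 1`, and the derivations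
`pd` (of `U/k` with respect to `z`) map `Y[X]` to itself (on `Y` they are the partial derivatives `pd` of `Y/k` (`pd_algebraMap`) or `0`, on `t` they
are `0` or `1`), so they map `O_w` to itself: an element of `O_w` is `a / b`, `a, b ∈ Y[X]`, `w b = 1`, quotient rule
(compare `DivisAux.val_pd` in Pf72953u/Divis.lean).  Hence `w f = w f * w (jac z z) ^ m ≤ 1`.
So `f ∈ Y[X]` (`IsDedekindDomain.HeightOneSpectrum.mem_integers_of_valuation_le_one`).
(2) Let `w` be the valuation at infinity (`FunctionField.inftyValuation`, `w a = exp (deg a)` for a polynomial `a ≠ 0`).  As before it is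
divisorial; `Sum.elim y (fun _ => t⁻¹)` is adapted for `w` and `t⁻¹`, a uniformizer, so a regular basis (`Adapted.regBasis`), and the
jacobian of `z` with respect to it is `∂t/∂(t⁻¹) = - t ^ 2` (`pd` of `t = (t⁻¹)⁻¹`, `Derivation.leibniz_inv`; `jac_eq_det`, or `jac_rel`-like block
computation).  So `w f * w (t ^ 2) ^ m ≤ 1`, but `w f ≥ 1` as `f` is a nonzero polynomial and `w t > 1`, `m ≥ 1`:
contradiction.
-/

set_option autoImplicit false
set_option linter.style.haveILetI false

open scoped WithZero

namespace Pf72953.Fib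

namespace RuledAux

open Polynomial

section

variable {k Y : Type*} [Field k] [CharZero k] [Field Y] [Algebra k Y]

/-- the family `(a, y)` -/
noncomputable def fam {n : ℕ} (y : Fin n → Y) (a : RatFunc Y) : Option (Fin n) → RatFunc Y :=
  fun o => o.elim a (fun i => algebraMap Y (RatFunc Y) (y i))

instance towerRat : IsScalarTower k Y (RatFunc Y) :=
  IsScalarTower.of_algebraMap_eq fun a => by
    rw [IsScalarTower.algebraMap_apply k Y[X] (RatFunc Y),
      IsScalarTower.algebraMap_apply Y Y[X] (RatFunc Y)]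
    rfl

theorem ess [Algebra.EssFiniteType k Y] : Algebra.EssFiniteType k (RatFunc Y) := by
  haveI : Algebra.EssFiniteType Y (RatFunc Y) := by
    haveI : Algebra.EssFiniteType Y[X] (RatFunc Y) :=
      Algebra.EssFiniteType.of_isLocalization _ (nonZeroDivisors Y[X])
    exact Algebra.EssFiniteType.comp Y Y[X] (RatFunc Y)
  exact Algebra.EssFiniteType.comp k Y (RatFunc Y)

theorem tb_fam {n : ℕ} {y : Fin n → Y} (hy : IsTranscendenceBasis k y) :
    IsTranscendenceBasis k (fam y RatFunc.X) := by
  have h1 : IsTranscendenceBasis Y (fun _ : Unit => (X : Y[X])) :=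
    IsTranscendenceBasis.polynomial Unit Y
  haveI : Algebra.IsAlgebraic Y[X] (RatFunc Y) :=
    IsLocalization.isAlgebraic (RatFunc Y) (nonZeroDivisors Y[X])
  have h2 : IsTranscendenceBasis Y (algebraMap Y[X] (RatFunc Y) ∘ fun _ : Unit => (X : Y[X])) :=
    h1.algebraMap_comp
  have h3 := hy.sumElim_comp h2
  let e : Option (Fin n) ≃ Unit ⊕ Fin n :=
    (Equiv.optionEquivSumPUnit (Fin n)).trans (Equiv.sumComm _ _)
  have h4 := (isTranscendenceBasis_equiv e).mpr h3
  convert h4 using 1
  funext o
  rcases o with _ | i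
  · change RatFunc.X = algebraMap Y[X] (RatFunc Y) X
    exact RatFunc.algebraMap_X.symm
  · rfl

variable {n : ℕ} {y : Fin n → Y} (hy : IsTranscendenceBasis k y)
  (hz : IsTranscendenceBasis k (fam y RatFunc.X))

include hy in
theorem pd_const (b : Y) : pd hz none (algebraMap Y (RatFunc Y) b) = 0 :=
  pd_algebraMap_of_notMem hy hz some (fun _ => rfl) none (fun _ h => by cases h) b

theorem pd_X : pd hz none (RatFunc.X : RatFunc Y) = 1 := by
  have h := pd_self hz none none
  rw [if_pos rfl] at h
  exact h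

include hy in
theorem pd_poly (p : Y[X]) : ∃ q : Y[X], pd hz none (algebraMap Y[X] (RatFunc Y) p) =
    algebraMap Y[X] (RatFunc Y) q := by
  induction p using Polynomial.induction_on with
  | C a =>
    refine ⟨0, ?_⟩
    rw [map_zero, ← pd_const hy hz a]
    rfl
  | add p q hp hq =>
    obtain ⟨p', hp'⟩ := hp
    obtain ⟨q', hq'⟩ := hq
    exact ⟨p' + q', by rw [map_add, map_add, hp', hq', map_add]⟩
  | monomial n a hn =>
    obtain ⟨q, hq⟩ := hn
    refine ⟨C a * X ^ n + X * q, ?_⟩
    rw [pow_succ, ← mul_assoc, map_mul, Derivation.leibniz, hq, RatFunc.algebraMap_X, pd_X hz,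
      smul_eq_mul, smul_eq_mul, mul_one, map_add, map_mul, map_mul, RatFunc.algebraMap_X]

theorem jac_fam (a : RatFunc Y) : jac hz (fam y a) = pd hz none a := by
  classical
  have key : ∀ (i : Option (Fin n)) (j : Fin n),
      pd hz i (algebraMap Y (RatFunc Y) (y j)) = if i = some j then 1 else 0 := by
    intro i j
    exact pd_self hz i (some j)
  rw [jac_eq_det]
  have h : (Matrix.of fun i j => pd hz i (fam y a j)) =
      Matrix.updateCol (1 : Matrix (Option (Fin n)) (Option (Fin n)) (RatFunc Y)) none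
        (fun i => pd hz i a) := by
    ext i j
    rw [Matrix.of_apply, Matrix.updateCol_apply]
    rcases j with _ | j
    · rw [if_pos rfl]
      rfl
    · rw [if_neg (by simp), Matrix.one_apply]
      exact key i j
  rw [h, ← Matrix.cramer_apply, Matrix.cramer_one]
  rfl

include hy in
/-- the estimate at one valuation -/
theorem val_le [Algebra.EssFiniteType k Y] {w : Valuation (RatFunc Y) ℤᵐ⁰}
    (hY : ∀ b : Y, b ≠ 0 → w (algebraMap Y (RatFunc Y) b) = 1) {a : RatFunc Y}
    (ha : IsUnif w a) {m : ℕ} {f : RatFunc Y} (hf : f ∈ WReg k (fam y RatFunc.X) m) :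
    w f ≤ w (pd hz none a) ^ m := by
  classical
  haveI : Algebra.EssFiniteType k (RatFunc Y) := ess
  have hcard : Fintype.card (Option (Fin n)) = dimension k (RatFunc Y) :=
    card_eq_of_isTranscendenceBasis hz
  have hdim : dimension k (RatFunc Y) - 1 = n := by
    rw [← hcard, Fintype.card_option, Fintype.card_fin, Nat.add_sub_cancel]
  have hres : ∀ p : MvPolynomial (Fin n) k, p ≠ 0 →
      w (MvPolynomial.aeval (fun i => algebraMap Y (RatFunc Y) (y i)) p) = 1 := by
    intro p hp
    have h1 : MvPolynomial.aeval (fun i => algebraMap Y (RatFunc Y) (y i)) p =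
        algebraMap Y (RatFunc Y) (MvPolynomial.aeval y p) :=
      MvPolynomial.aeval_algebraMap_apply _ y p
    rw [h1]
    apply hY
    intro h0
    exact hp (hy.1 (by rw [h0, map_zero]))
  have hdiv : IsDivisorial k (RatFunc Y) w := by
    refine ⟨fun c hc => ?_, ⟨a, ha.ne_zero, ha.lt_one.ne⟩, ?_⟩
    · rw [IsScalarTower.algebraMap_apply k Y (RatFunc Y)]
      exact hY _ (by simpa using hc)
    · rw [hdim]
      exact ⟨_, hres⟩
  have had : Adapted k w (fam y a) a :=
    ⟨n, Equiv.refl _, fun i => algebraMap Y (RatFunc Y) (y i), hres, ha.ne_zero, ha.lt_one, rfl⟩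
  have hreg := had.regBasis hcard ha
  have h1 := hf w hdiv (fam y a) hreg
  have h2 : jac hreg.tb (fam y RatFunc.X) * jac hz (fam y a) = 1 := jac_mul_jac hz hreg.tb
  rw [jac_fam hz] at h2
  have h3 : w (jac hreg.tb (fam y RatFunc.X)) ^ m * w (pd hz none a) ^ m = 1 := by
    rw [← mul_pow, ← map_mul, h2, map_one, one_pow]
  calc w f = w f * (w (jac hreg.tb (fam y RatFunc.X)) ^ m * w (pd hz none a) ^ m) := by
        rw [h3, mul_one]
    _ = (w f * w (jac hreg.tb (fam y RatFunc.X)) ^ m) * w (pd hz none a) ^ m := by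
        rw [mul_assoc]
    _ ≤ 1 * w (pd hz none a) ^ m := mul_le_mul' h1 le_rfl
    _ = _ := one_mul _

theorem isUnif_of {w : Valuation (RatFunc Y) ℤᵐ⁰} {a : RatFunc Y}
    (ha : w a = WithZero.exp (-1 : ℤ)) : IsUnif w a := by
  have h0 : a ≠ 0 := by
    rintro rfl
    rw [map_zero] at ha
    exact WithZero.exp_ne_zero ha.symm
  refine ⟨h0, ?_, fun b hb => ?_⟩
  · rw [ha, ← WithZero.exp_zero, WithZero.exp_lt_exp]
    omega
  · rcases eq_or_ne b 0 with rfl | hb0
    · simp
    · have hb0' : w b ≠ 0 := (Valuation.ne_zero_iff w).mpr hb0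
      rw [← WithZero.exp_log hb0', ← WithZero.exp_zero, WithZero.exp_lt_exp] at hb
      rw [← WithZero.exp_log hb0', ha, WithZero.exp_le_exp]
      omega

include hy hz in
theorem main [Algebra.EssFiniteType k Y] {m : ℕ} (hm : 1 ≤ m) {f : RatFunc Y}
    (hf : f ∈ WReg k (fam y RatFunc.X) m) : f = 0 := by
  classical
  by_contra hf0
  obtain ⟨p, hp⟩ : ∃ p : Y[X], algebraMap Y[X] (RatFunc Y) p = f := by
    apply IsDedekindDomain.HeightOneSpectrum.mem_integers_of_valuation_le_one
    intro v
    obtain ⟨π, hπ⟩ := v.valuation_exists_uniformizer' (K := RatFunc Y)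
    have hY : ∀ b : Y, b ≠ 0 → v.valuation (RatFunc Y) (algebraMap Y (RatFunc Y) b) = 1 := by
      intro b hb
      have h1 : ∀ c : Y, v.valuation (RatFunc Y) (algebraMap Y (RatFunc Y) c) ≤ 1 := fun c => by
        rw [IsScalarTower.algebraMap_apply Y Y[X] (RatFunc Y)]
        exact v.valuation_le_one _
      refine le_antisymm (h1 b) ?_
      have h2 : v.valuation (RatFunc Y) (algebraMap Y (RatFunc Y) b) *
          v.valuation (RatFunc Y) (algebraMap Y (RatFunc Y) b⁻¹) = 1 := by
        rw [← map_mul, ← map_mul, mul_inv_cancel₀ hb, map_one, map_one]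
      rw [← h2]
      exact mul_le_of_le_one_right' (h1 _)
    refine (val_le hy hz hY (isUnif_of hπ) hf).trans ?_
    obtain ⟨q, hq⟩ := pd_poly hy hz π
    change v.valuation (RatFunc Y) (pd hz none (algebraMap Y[X] (RatFunc Y) π)) ^ m ≤ 1
    rw [hq]
    exact pow_le_one' (v.valuation_le_one q) m
  have hX0 : (RatFunc.X : RatFunc Y) ≠ 0 := RatFunc.X_ne_zero
  have hXi : RatFunc.inftyValuation Y (RatFunc.X : RatFunc Y)⁻¹ = WithZero.exp (-1 : ℤ) := by
    rw [← one_div]
    exact RatFunc.inftyValuation.X_inv Y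
  have h1 := val_le hy hz (w := RatFunc.inftyValuation Y)
    (fun b hb => RatFunc.inftyValuation.C Y hb) (isUnif_of hXi) hf
  have h2 : pd hz none ((RatFunc.X : RatFunc Y)⁻¹) = -((RatFunc.X : RatFunc Y)⁻¹ ^ 2) := by
    rw [Derivation.leibniz_inv, pd_X hz]
    simp [inv_pow]
  rw [h2, Valuation.map_neg, map_pow, hXi] at h1
  have hp0 : p ≠ 0 := by
    rintro rfl
    rw [map_zero] at hp
    exact hf0 hp.symm
  have h3 : RatFunc.inftyValuation Y f = WithZero.exp (p.natDegree : ℤ) := by
    rw [← hp]
    exact RatFunc.inftyValuation.polynomial Y hp0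
  rw [h3, ← WithZero.exp_nsmul, ← WithZero.exp_nsmul, WithZero.exp_le_exp] at h1
  simp only [smul_neg, nsmul_eq_mul, mul_one] at h1
  have h4 : (1 : ℤ) ≤ m := by exact_mod_cast hm
  have h5 : (0 : ℤ) ≤ p.natDegree := Int.natCast_nonneg _
  push_cast at h1
  nlinarith

end

end RuledAux

theorem kodairaDim_ratFunc {k Y : Type*} [Field k] [CharZero k] [Field Y] [Algebra k Y]
    [Algebra.EssFiniteType k Y] : kodairaDim k (RatFunc Y) = ⊥ := by
  classical
  haveI : Algebra.EssFiniteType k (RatFunc Y) := RuledAux.ess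
  obtain ⟨y, hy⟩ := exists_tb k Y
  have hz := RuledAux.tb_fam hy
  have key : ∀ c, ¬ KodairaGE k (RatFunc Y) c := by
    intro c hc
    have hcard : Fintype.card (Option (Fin (dimension k Y))) = dimension k (RatFunc Y) :=
      card_eq_of_isTranscendenceBasis hz
    let e : Fin (dimension k (RatFunc Y)) ≃ Option (Fin (dimension k Y)) :=
      (Fintype.equivFinOfCardEq hcard).symm
    have hz' : IsTranscendenceBasis k (RuledAux.fam y RatFunc.X ∘ e) :=
      (isTranscendenceBasis_equiv e).mpr hz
    obtain ⟨m, hm, f, hf, hf0, _⟩ := hc.exists_coord hz'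
    have hf' := WReg.reindex hf e.symm
    have h1 : (RuledAux.fam y RatFunc.X ∘ e) ∘ e.symm = RuledAux.fam y RatFunc.X := by
      funext i
      simp
    rw [h1] at hf'
    exact hf0 (RuledAux.main hy hz hm hf')
  unfold kodairaDim
  simp [key]

end Pf72953.Fib
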