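import Mathlib
import Pool.Agent.Lib.Pf72953.Reduction
import Pool.Agent.Lib.Pf72953u.Pull
import Pool.Agent.Lib.Pf72953f.Ruled

/-!
MODULE Pf72953f.UniA: uniruled varieties have no pluricanonical forms (generically finite case).

PROOF.  `U := RatFunc Y` is an `X`-algebra by `φ` (`φ.toRingHom.toAlgebra`), with the scalar tower over `k`.
`dimension k U = dimension k Y + 1 = dimension k X` (a transcendence basis of `Y/k` together with `RatFunc.X`,
`IsTranscendenceBasis.sumElim_comp`), so the image in `U` of a transcendence basis of `X/k` (`exists_tb`) is a transcendence basis of `U/k`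
(`isTranscendenceBasis_of_card`), `U` is algebraic over `X`, and finite, as `U` is essentially of finite type over `k` (hence over `X`)
(`Algebra.finite_of_essFiniteType_of_isAlgebraic`).  If `kodairaDim k X ≠ ⊥`, then `kodairaDim_eq` and
`KodairaGE.exists_coord` give `m ≥ 1` and `f ≠ 0` in `WReg k s m`, `s` a transcendence basis of `X/k`; by `Up.WReg.pull`
(`B := k`, `E := X`, `L := U`) its image in `U` is in `WReg k s m`, so `KodairaGE k U 0` (`KodairaGE.of_coord`, empty family, reindexing
by `Fin (dimension k U)`, `WReg.reindex`) and `kodairaDim k U ≠ ⊥`, contradicting `kodairaDim_ratFunc`.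
-/

set_option autoImplicit false

open scoped WithZero

namespace Pf72953.Fib

namespace UniAAux

theorem essFinite_ratFunc (k Y : Type*) [Field k] [Field Y] [Algebra k Y]
    [Algebra.EssFiniteType k Y] : Algebra.EssFiniteType k (RatFunc Y) := by
  have h1 : Algebra.EssFiniteType Y (Polynomial Y) := inferInstance
  have h2 : Algebra.EssFiniteType (Polynomial Y) (RatFunc Y) :=
    Algebra.EssFiniteType.of_isLocalization (RatFunc Y) (nonZeroDivisors (Polynomial Y))
  have h3 : Algebra.EssFiniteType Y (RatFunc Y) :=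
    Algebra.EssFiniteType.comp Y (Polynomial Y) (RatFunc Y)
  exact Algebra.EssFiniteType.comp k Y (RatFunc Y)

theorem trdeg_ratFunc (k Y : Type*) [Field k] [Field Y] [Algebra k Y] :
    Algebra.trdeg k (RatFunc Y) = Algebra.trdeg k Y + 1 := by
  have h1 : Algebra.trdeg Y (Polynomial Y) = 1 := Polynomial.trdeg_of_isDomain
  have h2 : Algebra.IsAlgebraic (Polynomial Y) (RatFunc Y) :=
    (IsFractionRing.comap_isAlgebraic_iff (A := Polynomial Y) (K := RatFunc Y)
      (C := RatFunc Y)).mpr inferInstance
  have h3 : Algebra.trdeg (Polynomial Y) (RatFunc Y) = 0 := trdeg_eq_zero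
  have h4 : FaithfulSMul (Polynomial Y) (RatFunc Y) :=
    (faithfulSMul_iff_algebraMap_injective _ _).mpr (IsFractionRing.injective _ _)
  have h5 := trdeg_add_eq Y (Polynomial Y) (A := RatFunc Y)
  rw [h1, h3, add_zero] at h5
  have h6 := trdeg_add_eq k Y (A := RatFunc Y)
  rw [← h5] at h6
  exact h6.symm

end UniAAux

theorem kodairaDim_of_uniruled {k X Y : Type*} [Field k] [CharZero k] [Field X] [Field Y]
    [Algebra k X] [Algebra k Y] [Algebra.EssFiniteType k X] [Algebra.EssFiniteType k Y]
    (φ : X →ₐ[k] RatFunc Y) (hdim : dimension k Y + 1 = dimension k X) :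
    kodairaDim k X = ⊥ := by
  classical
  by_contra hne
  obtain ⟨z, hz⟩ := exists_tb k X
  rcases kodairaDim_eq (k := k) (K := X) with h | ⟨c, hc, -⟩
  · exact hne h
  obtain ⟨m, hm, f, hf, hf0, -⟩ := hc.exists_coord hz
  let _ : Algebra X (RatFunc Y) := φ.toRingHom.toAlgebra
  have : IsScalarTower k X (RatFunc Y) :=
    IsScalarTower.of_algebraMap_eq fun c => (φ.commutes c).symm
  have hess : Algebra.EssFiniteType k (RatFunc Y) := UniAAux.essFinite_ratFunc k Y
  have ht : Algebra.trdeg k (RatFunc Y) = ((dimension k X : ℕ) : Cardinal) := by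
    rw [UniAAux.trdeg_ratFunc, ← trdeg_eq_dimension, ← hdim]
    push_cast
    rfl
  have hd : dimension k (RatFunc Y) = dimension k X := by
    unfold dimension at ht ⊢
    rw [ht, Cardinal.toNat_natCast]
  have halg : Algebra.IsAlgebraic X (RatFunc Y) := by
    rw [← trdeg_eq_zero_iff]
    have h1 := lift_trdeg_add_eq k X (RatFunc Y)
    rw [ht, ← trdeg_eq_dimension, Cardinal.lift_natCast, Cardinal.lift_natCast] at h1
    have h2 : Cardinal.lift (Algebra.trdeg X (RatFunc Y)) = 0 := by
      have h3 : ((dimension k X : ℕ) : Cardinal) + Cardinal.lift (Algebra.trdeg X (RatFunc Y)) =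
          (dimension k X : ℕ) + 0 := by rw [h1, add_zero]
      exact Cardinal.eq_of_add_eq_add_left h3 (Cardinal.natCast_lt_aleph0)
    rwa [Cardinal.lift_eq_zero] at h2
  have : Algebra.EssFiniteType X (RatFunc Y) := Algebra.EssFiniteType.of_comp k X (RatFunc Y)
  have : FiniteDimensional X (RatFunc Y) := Algebra.finite_of_essFiniteType_of_isAlgebraic
  have h1 := Up.WReg.pull (B := k) (E := X) (L := RatFunc Y) hz hf
  have hai : AlgebraicIndependent k (fun i => algebraMap X (RatFunc Y) (z i)) :=
    hz.1.map' (f := φ) φ.toRingHom.injective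
  have hz' : IsTranscendenceBasis k (fun i => algebraMap X (RatFunc Y) (z i)) :=
    isTranscendenceBasis_of_card (by rw [Fintype.card_fin, hd]) hai
  let e : Fin (dimension k (RatFunc Y)) ≃ Fin (dimension k X) := finCongr hd
  have hz'' : IsTranscendenceBasis k ((fun i => algebraMap X (RatFunc Y) (z i)) ∘ e) :=
    (isTranscendenceBasis_equiv e).mpr hz'
  have hne0 : algebraMap X (RatFunc Y) f ≠ 0 := by
    rw [Ne, map_eq_zero]
    exact hf0
  have hK : KodairaGE k (RatFunc Y) 0 :=
    KodairaGE.of_coord hz'' hm (WReg.reindex h1 e) hne0 (f := fun a : Fin 0 => a.elim0)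
      (algebraicIndependent_empty_type_iff.mpr (algebraMap k (RatFunc Y)).injective)
      fun a => a.elim0
  have h2 : (((0 : ℕ) : ℕ∞) : WithBot ℕ∞) ≤ kodairaDim k (RatFunc Y) := by
    unfold kodairaDim
    exact le_iSup₂_of_le 0 hK le_rfl
  rw [kodairaDim_ratFunc, le_bot_iff] at h2
  exact WithBot.coe_ne_bot h2

end Pf72953.Fib
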