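import Mathlib
import Pool.Agent.Lib.Pf72953u.Inst
import Pool.Agent.Lib.Pf72953.Core

/-!
MODULE Pf72953f.WUp: pull-back of regular forms to a bigger field over a bigger field of constants.

PROOF.  Let `w` be divisorial on `U/K`, `c` a regular basis for `w` over `K`.  `w` is divisorial on `U/k` (`Up.IsDivisorial.under`).
If `w` is not trivial on `B`, its restriction is divisorial on `B/k` (`IsDivisorial.restrict`) and `WReg.reg_bound` gives a regular basis
`cB` of `B/k` with `w θ * w (jac cB x) ^ m ≤ 1`; if `w` is trivial on `B`, take `cB := x` (`jac_self`).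
The image of `cB` is a transcendence basis of `U/K`: the extension of `x` and of `cB` have the same algebraic
closure (`B` is algebraic over `k(x)` and over `k(cB)`; `U` is algebraic over `K(x)`, hence over `K(B)` and over `K(cB)`,
with the right cardinality).  Then `jac c x = jac c cB * jac_{U/K, cB} x` (`jac_chain`), where
`jac_{U/K, cB} (x) = algebraMap B U (jac cB x)`: `Up.pd_base` (Pf72953u/Lin.lean: `pd` over `K` of elements of `B` with respect to
`cB` is the image of `pd` over `k`), `jac_eq_det`, `RingHom.map_det`; and `w (jac c cB) ≤ 1` by `RegBasis.jac_le`, as `w (cB) ≤ 1`.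
-/

set_option autoImplicit false

open scoped WithZero

namespace Pf72953.Fib

namespace WUpAux

theorem hle {k K U : Type*} [Field k] [Field K] [Field U] [Algebra k K]
    [Algebra k U] [Algebra K U] [IsScalarTower k K U] (s : Set U) : 
    ∀ a ∈ Algebra.adjoin k s, a ∈ Algebra.adjoin K s := by
    intro a ha
    induction ha using Algebra.adjoin_induction with
    | mem b hb => exact Algebra.subset_adjoin hb
    | algebraMap r =>
      rw [IsScalarTower.algebraMap_apply k K U]
      exact (Algebra.adjoin K s).algebraMap_mem _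
    | add a b _ _ ha hb => exact add_mem ha hb
    | mul a b _ _ ha hb => exact mul_mem ha hb

theorem alg_up {k K U : Type*} [Field k] [Field K] [Field U] [Algebra k K]
    [Algebra k U] [Algebra K U] [IsScalarTower k K U] (s : Set U) {u : U}
    (h1 : IsAlgebraic (Algebra.adjoin k s) u) : IsAlgebraic (Algebra.adjoin K s) u := by
  let φ : Algebra.adjoin k s →+* Algebra.adjoin K s :=
    ((Algebra.adjoin k s).val.toRingHom).codRestrict
      (Algebra.adjoin K s).toSubring (fun a => hle s a a.2)
  let _ : Algebra (Algebra.adjoin k s) (Algebra.adjoin K s) := φ.toAlgebra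
  have : IsScalarTower (Algebra.adjoin k s) (Algebra.adjoin K s) U :=
    IsScalarTower.of_algebraMap_eq fun a => rfl
  refine h1.extendScalars ?_
  intro a b hab
  have h4 := congrArg (fun c : Algebra.adjoin K s => (c : U)) hab
  exact Subtype.ext h4

/-- a transcendence basis of `B/k` is one of `U/K` if another one is -/
theorem tb_change1 {k K B U ι : Type*} [Field k] [Field K] [Field B] [Field U] [Algebra k K]
    [Algebra k B] [Algebra k U] [Algebra K U] [Algebra B U] [IsScalarTower k K U]
    [IsScalarTower k B U] [Fintype ι] {x c : ι → B} (hc : IsTranscendenceBasis k c)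
    (hxU : IsTranscendenceBasis K (fun l => algebraMap B U (x l))) :
    Algebra.IsAlgebraic (Algebra.adjoin K (Set.range (fun l => algebraMap B U (c l)))) U := by
  refine ⟨fun a => ?_⟩
  refine (hxU.isAlgebraic.isAlgebraic a).adjoin_of_forall_isAlgebraic ?_
  rintro _ ⟨⟨l, rfl⟩, _⟩
  exact alg_up _ (isAlgebraic_transport hc (Set.range (fun l => algebraMap B U (c l)))
    (fun i => ⟨i, rfl⟩) (x l))

theorem tb_change {k K B U ι : Type*} [Field k] [Field K] [Field B] [Field U] [Algebra k K]
    [Algebra k B] [Algebra k U] [Algebra K U] [Algebra B U] [IsScalarTower k K U]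
    [IsScalarTower k B U] [Fintype ι] {x c : ι → B} (hc : IsTranscendenceBasis k c)
    (hxU : IsTranscendenceBasis K (fun l => algebraMap B U (x l))) :
    IsTranscendenceBasis K (fun l => algebraMap B U (c l)) := by
  have halg := tb_change1 hc hxU
  refine Algebra.IsAlgebraic.isTranscendenceBasis_of_lift_le_trdeg_of_finite K _ ?_
  exact hxU.lift_cardinalMk_eq_trdeg.le
end WUpAux

open WUpAux in
theorem WReg_up {k K B U ι : Type*} [Field k] [CharZero k] [Field K] [CharZero K] [Field B]
    [Field U] [Algebra k K] [Algebra k B] [Algebra k U] [Algebra K U] [Algebra B U]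
    [IsScalarTower k K U] [IsScalarTower k B U] [Algebra.EssFiniteType k B]
    [Algebra.EssFiniteType k U] [Fintype ι] [DecidableEq ι] {x : ι → B}
    (hx : IsTranscendenceBasis k x)
    (hxU : IsTranscendenceBasis K (fun l => algebraMap B U (x l))) {m : ℕ} {θ : B}
    (hθ : θ ∈ WReg k x m) : algebraMap B U θ ∈ WReg K (fun l => algebraMap B U (x l)) m := by
  intro w hw c hc
  have hw' : IsDivisorial k U w := Pf72953.Up.IsDivisorial.under hw
  obtain ⟨cB, hcB, hb⟩ : ∃ (cB : ι → B) (hcB : RegBasis k (w.comap (algebraMap B U)) cB),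
      w.comap (algebraMap B U) θ * w.comap (algebraMap B U) (jac hcB.tb x) ^ m ≤ 1 := by
    by_cases hnt : ∃ a : B, a ≠ 0 ∧ w (algebraMap B U a) ≠ 1
    · exact WReg.reg_bound hx hθ (hw'.restrict hnt)
    · push Not at hnt
      have h1 : ∀ a : B, a ≠ 0 → w.comap (algebraMap B U) a = 1 := fun a ha => hnt a ha
      refine ⟨x, RegBasis.of_trivial h1 hx, ?_⟩
      rw [jac_self, map_one, one_pow, mul_one]
      rcases eq_or_ne θ 0 with rfl | h0
      · simp
      · exact (h1 θ h0).le
  have htb : IsTranscendenceBasis K (fun l => algebraMap B U (cB l)) := tb_change hcB.tb hxU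
  have h2 : jac htb (fun l => algebraMap B U (x l)) = algebraMap B U (jac hcB.tb x) := by
    rw [jac_eq_det, jac_eq_det, RingHom.map_det]
    congr 1
    ext i j
    simp only [Matrix.of_apply, RingHom.mapMatrix_apply, Matrix.map_apply]
    exact Pf72953.Up.pd_base hcB.tb htb i (x j)
  have h3 : w (jac hc.tb (fun l => algebraMap B U (cB l))) ≤ 1 :=
    hc.jac_le _ fun i => hcB.le_one i
  rw [jac_chain htb hc.tb, h2, map_mul, mul_pow]
  have h4 : w (jac hc.tb (fun l => algebraMap B U (cB l))) ^ m ≤ 1 := pow_le_one' h3 m
  calc w (algebraMap B U θ) * (w (jac hc.tb (fun l => algebraMap B U (cB l))) ^ m *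
        w (algebraMap B U (jac hcB.tb x)) ^ m)
      ≤ w (algebraMap B U θ) * (1 * w (algebraMap B U (jac hcB.tb x)) ^ m) := by gcongr
    _ = w (algebraMap B U θ) * w (algebraMap B U (jac hcB.tb x)) ^ m := by rw [one_mul]
    _ ≤ 1 := hb

end Pf72953.Fib
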