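import Mathlib
import Pool.Agent.Lib.Pf72953.Reduction
import Pool.Agent.Lib.Pf72953f.Ruled
import Pool.Agent.Lib.Pf72953f.WUp

/-!
MODULE Pf72953f.UniB: a variety covered by the images of the rational curves of `Y × P¹` has no pluricanonical forms.

PROOF.  `U := RatFunc Y` is a `B`-algebra by `ψ`.  The element `ψ b` is not in the image of `Y`, so it is transcendental over `Y`
(`Y` is algebraically closed in `RatFunc Y`: `RatFunc Y` is purely transcendental over `Y`; search Mathlib for `RatFunc` and
`transcendental`/`isAlgebraic`, e.g. `RatFunc.transcendental_of_ne_C`, or use that `Y[X]` is integrally closed: an element algebraic over `Y` is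
integral over `Y`, so it is a polynomial, of degree zero).  So `U` is algebraic over `Y(ψ b)` (`U/Y` has transcendence degree one).
Let `x : Fin _ → B` be a transcendence basis of `B/k`, `y` one of `Y/k` (`exists_tb`).  The family `ψ ∘ x` is algebraically
independent over `k` and `U` is algebraic over `k(ψ ∘ x, y)` (which contains in its algebraic closure `Y` and `ψ b`); extend the set of
the `ψ (x l)` by a subset `J` of the `y_l` to a transcendence basis of `U/k` (`exists_isTranscendenceBasis_between` or similar).
Let `K := IntermediateField.adjoin k (y_J)`, a subfield of `Y`, acting on `U` through `Y`.  Then `ψ ∘ x` is a transcendence basis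
of `U/K` (algebraically independent over `k(y_J)`: `AlgebraicIndependent.sumElim_iff`, `adjoin` versus fraction field; and `U` is algebraic over
`K(ψ ∘ x)`).  If `kodairaDim k B ≠ ⊥` there are `m ≥ 1` and `θ ≠ 0` in `WReg k x m` (`kodairaDim_eq`, `KodairaGE.exists_coord`), and
`WReg_up` gives `ψ θ ∈ WReg K (ψ ∘ x) m` in `U`; so `KodairaGE K U 0` (`KodairaGE.of_coord`, empty family, reindexing) and
`kodairaDim K U ≠ ⊥`, contradicting `kodairaDim_ratFunc (k := K)` (`Algebra.EssFiniteType K Y` by `of_comp k K Y`).
-/

set_option autoImplicit false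

open scoped WithZero

namespace Pf72953.Fib

namespace UniBAux

open Algebra in
/-- moving elements of a generating set to the constants -/
theorem exists_base {k Y U ι : Type*} [Field k] [Field Y] [Field U] [Algebra k Y] [Algebra Y U]
    [Algebra k U] [IsScalarTower k Y U] {z : ι → U} (hz : AlgebraicIndependent k z) (T : Set Y)
    (halg : ∀ a : U, IsAlgebraic (adjoin k (Set.range z ∪ algebraMap Y U '' T)) a) :
    ∃ S : Set Y, S ⊆ T ∧ IsTranscendenceBasis (IntermediateField.adjoin k S) z := by
  classical
  have hfr : Algebra.IsAlgebraic (adjoin k (Set.range z ∪ algebraMap Y U '' T)) U := ⟨halg⟩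
  obtain ⟨u, hsu, hut, hu⟩ := exists_isTranscendenceBasis_between (R := k) (A := U) (Set.range z)
    (Set.range z ∪ algebraMap Y U '' T) Set.subset_union_left
    ((algebraicIndependent_subtype_range hz.injective).2 hz)
  obtain ⟨S, hS⟩ : ∃ S : Set Y, S = {a | a ∈ T ∧ algebraMap Y U a ∈ u ∧
    algebraMap Y U a ∉ Set.range z} := ⟨_, rfl⟩
  refine ⟨S, fun a ha => by rw [hS] at ha; exact ha.1, ?_⟩
  rw [IntermediateField.isTranscendenceBasis_adjoin_iff]
  have hmS : ∀ a ∈ S, algebraMap Y U a ∈ u ∧ algebraMap Y U a ∉ Set.range z := fun a ha => by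
    rw [hS] at ha; exact ha.2
  rw [isTranscendenceBasis_iff_algebraicIndependent_isAlgebraic]
  constructor
  · -- independence
    let e : ι ⊕ S → u := Sum.elim (fun i => ⟨z i, hsu ⟨i, rfl⟩⟩)
      (fun a => ⟨algebraMap Y U a, (hmS a a.2).1⟩)
    have he : Function.Injective e := by
      rintro (i | a) (j | b) hab
      · have h1 : z i = z j := congrArg Subtype.val hab
        rw [hz.injective h1]
      · have h1 : z i = algebraMap Y U b := congrArg Subtype.val hab
        exact absurd ⟨i, h1⟩ (hmS b b.2).2
      · have h1 : algebraMap Y U a = z j := congrArg Subtype.val hab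
        exact absurd ⟨j, h1.symm⟩ (hmS a a.2).2
      · have h1 : algebraMap Y U a = algebraMap Y U b := congrArg Subtype.val hab
        rw [Subtype.ext ((algebraMap Y U).injective h1)]
    have h1 := hu.1.comp e he
    have h2 : (Subtype.val ∘ e : ι ⊕ S → U) = Sum.elim z (fun a : S => algebraMap Y U a) := by
      funext i
      rcases i with i | i <;> rfl
    change AlgebraicIndependent k (Subtype.val ∘ e : ι ⊕ S → U) at h1
    rw [h2, AlgebraicIndependent.sumElim_iff] at h1
    have h3 := h1.2
    have h4 : adjoin k S ≤ (adjoin k (Set.range fun a : S => algebraMap Y U a)).comap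
        (IsScalarTower.toAlgHom k Y U) := by
      rw [Algebra.adjoin_le_iff]
      intro a ha
      exact Algebra.subset_adjoin ⟨⟨a, ha⟩, rfl⟩
    let φ : adjoin k S →+* adjoin k (Set.range fun a : S => algebraMap Y U a) :=
      ((algebraMap Y U).comp (adjoin k S).val.toRingHom).codRestrict
        (adjoin k (Set.range fun a : S => algebraMap Y U a)).toSubring (fun a => h4 a.2)
    letI : Algebra (adjoin k S) (adjoin k (Set.range fun a : S => algebraMap Y U a)) :=
      φ.toAlgebra
    haveI : IsScalarTower (adjoin k S) (adjoin k (Set.range fun a : S => algebraMap Y U a)) U :=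
      IsScalarTower.of_algebraMap_eq fun a => rfl
    refine h3.restrictScalars (R := adjoin k S) ?_
    intro a b hab
    have h5 := congrArg
      (fun c : adjoin k (Set.range fun a : S => algebraMap Y U a) => (c : U)) hab
    exact Subtype.ext ((algebraMap Y U).injective h5)
  · -- algebraicity
    have h1 := hu.isAlgebraic
    have h2 : ∀ a ∈ adjoin k (Set.range (Subtype.val : u → U)), a ∈ adjoin (adjoin k S)
        (Set.range z) := by
      have h3 : adjoin k (Set.range (Subtype.val : u → U)) ≤
          (adjoin (adjoin k S) (Set.range z)).restrictScalars k := by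
        rw [Algebra.adjoin_le_iff, Subtype.range_coe]
        intro a ha
        by_cases hz' : a ∈ Set.range z
        · exact Algebra.subset_adjoin (R := adjoin k S) hz'
        · rcases hut ha with h4 | ⟨b, hb, rfl⟩
          · exact absurd h4 hz'
          · have hbS : b ∈ S := by rw [hS]; exact ⟨hb, ha, hz'⟩
            exact (adjoin (adjoin k S) (Set.range z)).algebraMap_mem
              (⟨b, Algebra.subset_adjoin hbS⟩ : adjoin k S)
      intro a ha
      exact h3 ha
    let φ : adjoin k (Set.range (Subtype.val : u → U)) →+* adjoin (adjoin k S) (Set.range z) :=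
      ((adjoin k (Set.range (Subtype.val : u → U))).val.toRingHom).codRestrict
        (adjoin (adjoin k S) (Set.range z)).toSubring (fun a => h2 a a.2)
    letI : Algebra (adjoin k (Set.range (Subtype.val : u → U)))
        (adjoin (adjoin k S) (Set.range z)) := φ.toAlgebra
    haveI : IsScalarTower (adjoin k (Set.range (Subtype.val : u → U)))
        (adjoin (adjoin k S) (Set.range z)) U := IsScalarTower.of_algebraMap_eq fun a => rfl
    refine ⟨fun a => (h1.isAlgebraic a).extendScalars ?_⟩
    intro a b hab
    exact Subtype.ext (congrArg (fun c : adjoin (adjoin k S) (Set.range z) => (c : U)) hab)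

/-- the case of a transcendence basis over bigger constants -/
theorem of_tb {k K B Y : Type*} [Field k] [CharZero k] [Field K] [CharZero K] [Field B] [Field Y]
    [Algebra k K] [Algebra k B] [Algebra k Y] [Algebra K Y] [IsScalarTower k K Y]
    [Algebra.EssFiniteType k B] [Algebra.EssFiniteType k Y]
    (ψ : B →ₐ[k] RatFunc Y) {x : Fin (dimension k B) → B} (hx : IsTranscendenceBasis k x)
    (hz : IsTranscendenceBasis K (fun l => ψ (x l))) : kodairaDim k B = ⊥ := by
  classical
  rcases kodairaDim_eq (k := k) (K := B) with h | ⟨c, hc, -⟩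
  · exact h
  exfalso
  obtain ⟨m, hm, f₀, hf₀, hne, -, -, -⟩ := hc.exists_coord hx
  letI : Algebra B (RatFunc Y) := ψ.toRingHom.toAlgebra
  haveI : IsScalarTower k B (RatFunc Y) :=
    IsScalarTower.of_algebraMap_eq fun c => (ψ.commutes c).symm
  haveI : IsScalarTower k K (RatFunc Y) := IsScalarTower.of_algebraMap_eq fun c => by
    rw [IsScalarTower.algebraMap_apply k Y (RatFunc Y),
      IsScalarTower.algebraMap_apply K Y (RatFunc Y), IsScalarTower.algebraMap_apply k K Y]
  haveI : Algebra.EssFiniteType (Polynomial Y) (RatFunc Y) :=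
    Algebra.EssFiniteType.of_isLocalization (RatFunc Y) (nonZeroDivisors (Polynomial Y))
  haveI : Algebra.EssFiniteType Y (RatFunc Y) :=
    Algebra.EssFiniteType.comp Y (Polynomial Y) (RatFunc Y)
  haveI : Algebra.EssFiniteType k (RatFunc Y) := Algebra.EssFiniteType.comp k Y (RatFunc Y)
  haveI : Algebra.EssFiniteType K Y := Algebra.EssFiniteType.of_comp k K Y
  haveI : Algebra.EssFiniteType K (RatFunc Y) := Algebra.EssFiniteType.comp K Y (RatFunc Y)
  have h1 : algebraMap B (RatFunc Y) f₀ ∈ WReg K (fun l => algebraMap B (RatFunc Y) (x l)) m :=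
    WReg_up (k := k) (K := K) (B := B) (U := RatFunc Y) hx hz hf₀
  have hcard := card_eq_of_isTranscendenceBasis hz
  rw [Fintype.card_fin] at hcard
  let e : Fin (dimension K (RatFunc Y)) ≃ Fin (dimension k B) := finCongr hcard.symm
  have h2 := WReg.reindex h1 e
  have h3 : KodairaGE K (RatFunc Y) 0 := by
    refine KodairaGE.of_coord (k := K) (K := RatFunc Y)
      (z := (fun l => algebraMap B (RatFunc Y) (x l)) ∘ e) ((isTranscendenceBasis_equiv e).2 hz) hm
      h2 ?_ (f := fun i => i.elim0) ?_ (fun i => i.elim0)
    · simpa using hne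
    · exact algebraicIndependent_empty_type
  have h4 := kodairaDim_ratFunc (k := K) (Y := Y)
  have h5 : (((0 : ℕ) : ℕ∞) : WithBot ℕ∞) ≤ kodairaDim K (RatFunc Y) :=
    le_iSup₂_of_le 0 h3 le_rfl
  rw [h4] at h5
  exact absurd h5 (by simp)

end UniBAux

theorem kodairaDim_of_curves {k B Y : Type*} [Field k] [CharZero k] [Field B] [Field Y]
    [Algebra k B] [Algebra k Y] [Algebra.EssFiniteType k B] [Algebra.EssFiniteType k Y]
    (ψ : B →ₐ[k] RatFunc Y) (b : B) (hb : ∀ a : Y, algebraMap Y (RatFunc Y) a ≠ ψ b) :
    kodairaDim k B = ⊥ := by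
  classical
  obtain ⟨x, hx⟩ := exists_tb k B
  obtain ⟨y, hy⟩ := exists_tb k Y
  have hz : AlgebraicIndependent k (fun l => ψ (x l)) := hx.1.map' ψ.toRingHom.injective
  -- everything is algebraic over the values of `x` and `y`
  have halg : ∀ a : RatFunc Y, IsAlgebraic (Algebra.adjoin k (Set.range (fun l => ψ (x l)) ∪
      algebraMap Y (RatFunc Y) '' Set.range y)) a := by
    intro a
    have hC : ¬ ∃ c, ψ b = RatFunc.C c := by
      rintro ⟨c, hc⟩
      exact hb c (by rw [hc]; rfl)
    have h1 := (RatFunc.isAlgebraic_adjoin_simple_X' (f := ψ b) hC).isAlgebraic a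
    rw [IntermediateField.isAlgebraic_adjoin_iff] at h1
    have h2 : ∀ c ∈ Algebra.adjoin Y {ψ b}, c ∈ Algebra.adjoin k
        (Set.range (algebraMap Y (RatFunc Y)) ∪ {ψ b}) := by
      intro c hc
      induction hc using Algebra.adjoin_induction with
      | mem c hc => exact Algebra.subset_adjoin (Or.inr hc)
      | algebraMap c => exact Algebra.subset_adjoin (Or.inl ⟨c, rfl⟩)
      | add c d _ _ hc hd => exact add_mem hc hd
      | mul c d _ _ hc hd => exact mul_mem hc hd
    let φ : Algebra.adjoin Y {ψ b} →+* Algebra.adjoin k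
        (Set.range (algebraMap Y (RatFunc Y)) ∪ {ψ b}) :=
      ((Algebra.adjoin Y {ψ b}).val.toRingHom).codRestrict
        (Algebra.adjoin k (Set.range (algebraMap Y (RatFunc Y)) ∪ {ψ b})).toSubring
        (fun c => h2 c c.2)
    letI : Algebra (Algebra.adjoin Y {ψ b}) (Algebra.adjoin k
        (Set.range (algebraMap Y (RatFunc Y)) ∪ {ψ b})) := φ.toAlgebra
    haveI : IsScalarTower (Algebra.adjoin Y {ψ b}) (Algebra.adjoin k
        (Set.range (algebraMap Y (RatFunc Y)) ∪ {ψ b})) (RatFunc Y) :=
      IsScalarTower.of_algebraMap_eq fun c => rfl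
    have h3 : IsAlgebraic (Algebra.adjoin k
        (Set.range (algebraMap Y (RatFunc Y)) ∪ {ψ b})) a := by
      refine h1.extendScalars ?_
      intro c d hcd
      exact Subtype.ext (congrArg (fun e : Algebra.adjoin k
        (Set.range (algebraMap Y (RatFunc Y)) ∪ {ψ b}) => (e : RatFunc Y)) hcd)
    refine h3.adjoin_of_forall_isAlgebraic ?_
    rintro c ⟨⟨d, rfl⟩ | hc, -⟩
    · exact isAlgebraic_transport (k := k) (F := Y) (L := RatFunc Y) hy _
        (fun i => Or.inr ⟨y i, ⟨i, rfl⟩, rfl⟩) d
    · rw [Set.mem_singleton_iff] at hc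
      rw [hc]
      letI : Algebra B (RatFunc Y) := ψ.toRingHom.toAlgebra
      haveI : IsScalarTower k B (RatFunc Y) :=
        IsScalarTower.of_algebraMap_eq fun c => (ψ.commutes c).symm
      exact isAlgebraic_transport (k := k) (F := B) (L := RatFunc Y) hx _
        (fun i => Or.inl ⟨i, rfl⟩) b
  obtain ⟨S, -, hS⟩ := UniBAux.exists_base hz (Set.range y) halg
  haveI : CharZero (IntermediateField.adjoin k S) :=
    charZero_of_injective_algebraMap (algebraMap k (IntermediateField.adjoin k S)).injective
  refine UniBAux.of_tb (K := IntermediateField.adjoin k S) ψ hx ?_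
  exact hS

end Pf72953.Fib
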