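import Mathlib
import Pool.Agent.Lib.Pf72953f.Rel
import Pool.Agent.Lib.Pf72953f.UniA
import Pool.Agent.Lib.Pf72953f.UniB
import Pool.Agent.Lib.Pf72953f.DDefs

/-!
MODULE Pf72953f.NonUni: the total space of a fibration is not uniruled if the base and the fibre have nonnegative Kodaira
dimension.

`Uniruled k X`: there is a dominant, generically finite rational map from a ruled variety `Y × P¹` to `X`.

PROOF.  Let `φ : X → RatFunc Y`, `dimension k Y + 1 = dimension k X`, and `ψ := φ` restricted to `B`
(`φ.comp (IsScalarTower.toAlgHom k B X)`).  If some `ψ b` is not in the image of `Y`, `kodairaDim_of_curves` gives `kodairaDim k B = ⊥`.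
Otherwise `ψ` factors through an embedding `B → Y` over `k`: `Algebra B Y`, `IsScalarTower k B Y`, the `B`-algebra structure of
`RatFunc Y` is compatible, so `φ` is a `B`-algebra homomorphism, `Algebra.EssFiniteType B X` and `Algebra.EssFiniteType B Y`
(`of_comp`), and `dimension B Y + 1 = dimension B X` (transcendence degrees are additive: `tb_rel` in Pf72953f/Rel.lean and
`card_eq_of_isTranscendenceBasis`, for `k ⊆ B ⊆ Y` and `k ⊆ B ⊆ X`).  So `kodairaDim_of_uniruled (k := B)` gives `kodairaDim B X = ⊥`.
-/

set_option autoImplicit false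

open scoped WithZero

namespace Pf72953.Fib

universe u v

private theorem nonUni_dim {k B L : Type*} [Field k] [Field B] [Field L]
    [Algebra k B] [Algebra k L] [Algebra B L] [IsScalarTower k B L] [Algebra.EssFiniteType k B]
    [Algebra.EssFiniteType B L] : dimension k B + dimension B L = dimension k L := by
  obtain ⟨x, hx⟩ := exists_tb k B
  obtain ⟨s, hs⟩ := exists_tb B L
  have h := card_eq_of_isTranscendenceBasis (tb_rel hx hs)
  rw [← h]
  simp

theorem not_uniruled {k : Type v} {B X : Type u} [Field k] [CharZero k] [Field B] [Field X]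
    [Algebra k B] [Algebra k X] [Algebra B X] [IsScalarTower k B X] [Algebra.EssFiniteType k B]
    [Algebra.EssFiniteType k X] (hB : kodairaDim k B ≠ ⊥) (hX : kodairaDim B X ≠ ⊥) :
    ¬ Uniruled k X := by
  rintro ⟨Y, _, _, _, φ, hdim⟩
  let ψ : B →ₐ[k] RatFunc Y := φ.comp (IsScalarTower.toAlgHom k B X)
  by_cases hb : ∃ b, ∀ a : Y, algebraMap Y (RatFunc Y) a ≠ ψ b
  · obtain ⟨b, hb⟩ := hb
    exact hB (kodairaDim_of_curves ψ b hb)
  · push Not at hb
    choose g hg using hb
    have hinj : Function.Injective (algebraMap Y (RatFunc Y)) :=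
      (algebraMap Y (RatFunc Y)).injective
    let g' : B →+* Y :=
      { toFun := g
        map_one' := hinj (by rw [hg, map_one, map_one])
        map_mul' := fun a b => hinj (by rw [hg, map_mul, map_mul, hg, hg])
        map_zero' := hinj (by rw [hg, map_zero, map_zero])
        map_add' := fun a b => hinj (by rw [hg, map_add, map_add, hg, hg]) }
    let _ : Algebra B Y := g'.toAlgebra
    have hBY : ∀ b : B, algebraMap B Y b = g b := fun b => rfl
    have hkR : ∀ c : k, algebraMap k (RatFunc Y) c =
        algebraMap Y (RatFunc Y) (algebraMap k Y c) := fun c => by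
      rw [← IsScalarTower.algebraMap_apply k Y (RatFunc Y)]
    have hBR : ∀ c : B, algebraMap B (RatFunc Y) c =
        algebraMap Y (RatFunc Y) (algebraMap B Y c) := fun c => by
      rw [← IsScalarTower.algebraMap_apply B Y (RatFunc Y)]
    have : IsScalarTower k B Y := IsScalarTower.of_algebraMap_eq fun c => hinj (by
      rw [hBY, hg, ← hkR, AlgHom.commutes])
    have : CharZero B := charZero_of_injective_algebraMap (algebraMap k B).injective
    have : Algebra.EssFiniteType B X := Algebra.EssFiniteType.of_comp k B X
    have : Algebra.EssFiniteType B Y := Algebra.EssFiniteType.of_comp k B Y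
    let φ' : X →ₐ[B] RatFunc Y :=
      { φ.toRingHom with
        commutes' := fun b => by
          rw [hBR, hBY, hg]
          rfl }
    have h1 := nonUni_dim (k := k) (B := B) (L := X)
    have h2 := nonUni_dim (k := k) (B := B) (L := Y)
    exact hX (kodairaDim_of_uniruled (k := B) φ' (by omega))

end Pf72953.Fib
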